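import Pool.Agent.H88.WPD.Loxo

/-!
The axis of a random product: definitions.
-/

namespace Pool.Agent.H88.WPD

/-- The axis of w: precise points Y i (letter starts), Y' i (letter ends), coarse points Z i
(block ends), in the order ... Z i, Y i, Y' i, Z (i+1), Y (i+1) ... -/
structure AxisData {X : Type*} [PseudoMetricSpace X] {G : Type*} [Group G] [MulAction G X]
    (w : G) (J : ℕ) (Y Y' Z : ℤ → X) (c e ℓ ℓ₂ ℓp : ℝ) : Prop where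
  wY : ∀ i : ℤ, w • Y i = Y (i + J)
  wY' : ∀ i : ℤ, w • Y' i = Y' (i + J)
  wZ : ∀ i : ℤ, w • Z i = Z (i + J)
  YY : ∀ i j k : ℤ, i ≤ j → j ≤ k → gp (Y i) (Y k) (Y j) ≤ c
  YY' : ∀ i j k : ℤ, i ≤ j → j < k → gp (Y i) (Y k) (Y' j) ≤ c
  YZ : ∀ i j k : ℤ, i < j → j ≤ k → gp (Y i) (Y k) (Z j) ≤ e
  dY : ∀ i : ℤ, ℓ₂ ≤ dist (Y i) (Y (i + 1))
  dYp : ∀ i : ℤ, dist (Y i) (Y (i + 1)) ≤ ℓp
  dZ : ∀ i : ℤ, ℓ ≤ dist (Z i) (Z (i + 1))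
  dZY : ∀ i : ℤ, ℓ₂ ≤ dist (Z i) (Y i)
  dYZ : ∀ i : ℤ, ℓ₂ ≤ dist (Y' i) (Z (i + 1))

/-- The products of the first k blocks. -/
def pre {G : Type*} [Group G] (x : ℕ → G) : ℕ → G
  | 0 => 1
  | k + 1 => pre x k * x k

/-- The vertices of the periodic path with period pre x J. -/
def UU {G : Type*} [Group G] (x : ℕ → G) (J : ℕ) (i : ℤ) : G :=
  (pre x J) ^ (i / (J : ℤ)) * pre x (i % (J : ℤ)).toNat

/-- The index of a block. -/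
def ix (J : ℕ) (i : ℤ) : ℕ := (i % (J : ℤ)).toNat

end Pool.Agent.H88.WPD
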