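import Pool.Agent.H88.WPD.Comb

/-!
From the counting bound to exponential decay for the random walk.
-/

namespace Pool.Agent.H88.WPD

open scoped ENNReal

section walk

variable {G : Type*} [Group G]

/-- The law of w_n = g_1 ... g_n for independent increments of law μ. -/
noncomputable def walk (μ : PMF G) : ℕ → PMF G
  | 0 => PMF.pure 1
  | n + 1 => (walk μ n).bind fun w => μ.map fun g => w * g

/-- Expectation of φ(g w) for w of law p. -/
noncomputable def Ex (p : PMF G) (φ : G → ℝ≥0∞) (g : G) : ℝ≥0∞ := ∑' x, p x * φ (g * x)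

theorem tsum_map_mul (p : PMF G) (w : G) (f : G → ℝ≥0∞) :
    ∑' x, (p.map (fun g => w * g)) x * f x = ∑' x, p x * f (w * x) := by
  classical
  have h1 : ∀ x, (p.map (fun g => w * g)) x = p (w⁻¹ * x) := by
    intro x
    rw [PMF.map_apply]
    rw [tsum_eq_single (w⁻¹ * x)]
    · simp
    · intro y hy
      rw [if_neg]
      intro h2
      apply hy
      rw [h2]
      group
  simp_rw [h1]
  rw [← (Equiv.mulLeft w).tsum_eq]
  simp

theorem tsum_bind_mul (p : PMF G) (q : G → PMF G) (f : G → ℝ≥0∞) :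
    ∑' x, (p.bind q) x * f x = ∑' w, p w * ∑' x, q w x * f x := by
  simp_rw [PMF.bind_apply, ← ENNReal.tsum_mul_right, ← ENNReal.tsum_mul_left]
  rw [ENNReal.tsum_comm]
  simp_rw [mul_assoc]

theorem Ex_walk_add (μ : PMF G) (m : ℕ) (φ : G → ℝ≥0∞) : ∀ (n : ℕ) (g : G),
    Ex (walk μ (m + n)) φ g = Ex (walk μ m) (Ex (walk μ n) φ) g := by
  intro n
  induction n generalizing φ with
  | zero =>
    intro g
    have h1 : ∀ φ : G → ℝ≥0∞, Ex (walk μ 0) φ = φ := by
      intro φ
      funext g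
      unfold Ex
      rw [tsum_eq_single 1]
      · simp [walk]
      · intro y hy
        simp [walk, hy]
    rw [h1]
    rfl
  | succ n ih =>
    intro g
    have h2 : ∀ (k : ℕ) (φ : G → ℝ≥0∞), Ex (walk μ (k + 1)) φ = Ex (walk μ k) (Ex μ φ) := by
      intro k φ
      funext g
      unfold Ex
      have := tsum_bind_mul (walk μ k) (fun w => μ.map fun g => w * g) (fun x => φ (g * x))
      simp only [walk]
      rw [this]
      refine tsum_congr fun w => ?_
      rw [tsum_map_mul]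
      simp [mul_assoc]
    rw [← add_assoc, h2, ih, h2]

theorem walk_add_apply (μ : PMF G) (m n : ℕ) (x : G) :
    walk μ (m + n) x = ∑' y, walk μ m y * walk μ n (y⁻¹ * x) := by
  classical
  have h1 := Ex_walk_add μ m (fun y => if y = x then 1 else 0) n 1
  unfold Ex at h1
  simp only [one_mul, mul_ite, mul_one, mul_zero] at h1
  rw [tsum_ite_eq] at h1
  rw [h1]
  refine tsum_congr fun y => ?_
  congr 1
  rw [tsum_eq_single (y⁻¹ * x)]
  · simp
  · intro z hz
    rw [if_neg]
    intro h2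
    apply hz
    rw [← h2]
    group

theorem walk_pos (μ : PMF G) {m n : ℕ} {x y : G} (hx : walk μ m x ≠ 0) (hy : walk μ n y ≠ 0) :
    walk μ (m + n) (x * y) ≠ 0 := by
  rw [walk_add_apply]
  intro h0
  rw [ENNReal.tsum_eq_zero] at h0
  have := h0 x
  rw [inv_mul_cancel_left] at this
  exact (mul_ne_zero hx hy) this

/-- The sup functional. -/
def Bd (S : Finset G) (κ : ℝ≥0∞) (ψ : G → ℝ≥0∞) : Prop :=
  ∀ l g, ev S ψ l g ≤ κ * 1160 ^ l.length

variable {S : Finset G}

theorem ev_shift (ψ : G → ℝ≥0∞) (x : G) : ∀ (l : List G) (u : G), ∃ l' : List G,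
    l'.length = (u :: l).length ∧ ∀ g, ev S (fun g => ψ (g * x)) (u :: l) g = ev S ψ l' g := by
  intro l
  induction l with
  | nil =>
    intro u
    refine ⟨[u * x], by simp, ?_⟩
    intro g
    simp [ev, mul_assoc]
  | cons v l ih =>
    intro u
    obtain ⟨l', h1, h2⟩ := ih v
    refine ⟨u :: l', by simp [h1], ?_⟩
    intro g
    have e1 : ev S (fun g => ψ (g * x)) (u :: v :: l) g = ∑ b ∈ S, ∑ a ∈ S,
      ev S (fun g => ψ (g * x)) (v :: l) (g * (a * (b * u))) := rfl
    rw [e1]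
    simp_rw [h2]
    rfl

theorem Bd.shift {κ : ℝ≥0∞} {ψ : G → ℝ≥0∞} (h : Bd S κ ψ) (x : G) :
    Bd S κ (fun g => ψ (g * x)) := by
  intro l g
  cases l with
  | nil =>
    have := h [] (g * x)
    simpa [ev] using this
  | cons u l =>
    obtain ⟨l', h1, h2⟩ := ev_shift (S := S) ψ x l u
    rw [h2, ← h1]
    exact h l' g

theorem ev_append (ψ : G → ℝ≥0∞) : ∀ (l : List G) (g : G),
    ev S (fun g => ∑ b ∈ S, ∑ a ∈ S, ψ (g * (a * b))) l g = ev S ψ (l ++ [1]) g := by
  intro l
  induction l with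
  | nil => intro g; simp [ev]
  | cons u l ih =>
    intro g
    simp only [List.cons_append, ev]
    simp_rw [ih]

theorem Bd.U {κ : ℝ≥0∞} {ψ : G → ℝ≥0∞} (h : Bd S κ ψ) :
    Bd S (1160 * κ) (fun g => ∑ b ∈ S, ∑ a ∈ S, ψ (g * (a * b))) := by
  intro l g
  rw [ev_append]
  refine (h (l ++ [1]) g).trans (le_of_eq ?_)
  rw [List.length_append, List.length_singleton, pow_succ]
  ring

theorem ev_tsum {ι : Type*} (w : ι → ℝ≥0∞) (ψ : ι → G → ℝ≥0∞) : ∀ (l : List G) (g : G),
    ev S (fun g => ∑' i, w i * ψ i g) l g = ∑' i, w i * ev S (ψ i) l g := by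
  intro l
  induction l with
  | nil => intro g; rfl
  | cons u l ih =>
    intro g
    simp only [ev]
    simp_rw [ih]
    simp_rw [Finset.mul_sum]
    rw [Summable.tsum_finsetSum (fun _ _ => ENNReal.summable)]
    refine Finset.sum_congr rfl fun b _ => ?_
    rw [Summable.tsum_finsetSum (fun _ _ => ENNReal.summable)]

theorem Bd.tsum {ι : Type*} {w : ι → ℝ≥0∞} {ψ : ι → G → ℝ≥0∞} {κ : ℝ≥0∞}
    (h : ∀ i, Bd S κ (ψ i)) : Bd S ((∑' i, w i) * κ) (fun g => ∑' i, w i * ψ i g) := by
  intro l g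
  rw [ev_tsum, mul_assoc, ← ENNReal.tsum_mul_right]
  refine ENNReal.tsum_le_tsum fun i => ?_
  gcongr
  exact h i l g

theorem ev_add (ψ ψ' : G → ℝ≥0∞) : ∀ (l : List G) (g : G),
    ev S (fun g => ψ g + ψ' g) l g = ev S ψ l g + ev S ψ' l g := by
  intro l
  induction l with
  | nil => intro g; rfl
  | cons u l ih =>
    intro g
    simp only [ev]
    simp_rw [ih, Finset.sum_add_distrib]

theorem ev_mul (w : ℝ≥0∞) (ψ : G → ℝ≥0∞) : ∀ (l : List G) (g : G),
    ev S (fun g => w * ψ g) l g = w * ev S ψ l g := by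
  intro l
  induction l with
  | nil => intro g; rfl
  | cons u l ih =>
    intro g
    simp only [ev]
    simp_rw [ih, Finset.mul_sum]

theorem Bd.add {κ κ' : ℝ≥0∞} {ψ ψ' : G → ℝ≥0∞} (h : Bd S κ ψ) (h' : Bd S κ' ψ') :
    Bd S (κ + κ') (fun g => ψ g + ψ' g) := by
  intro l g
  rw [ev_add, add_mul]
  exact add_le_add (h l g) (h' l g)

theorem Bd.mul {κ : ℝ≥0∞} {ψ : G → ℝ≥0∞} (w : ℝ≥0∞) (h : Bd S κ ψ) :
    Bd S (w * κ) (fun g => w * ψ g) := by
  intro l g
  rw [ev_mul, mul_assoc]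
  gcongr
  exact h l g

open Classical in
/-- One block of the walk. -/
theorem Bd.block {μ : PMF G} {L : ℕ} {β κ : ℝ≥0∞} {ψ : G → ℝ≥0∞} (hcard : S.card = 40)
    (hβ : ∀ x, β * ∑ b ∈ S, ∑ a ∈ S, (if a * b = x then 1 else 0) ≤ walk μ L x)
    (hβt : β ≠ ⊤)
    (h : Bd S κ ψ) : Bd S ((1160 * β + (1 - 1600 * β)) * κ) (Ex (walk μ L) ψ) := by
  classical
  set N : G → ℝ≥0∞ := fun x => ∑ b ∈ S, ∑ a ∈ S, (if a * b = x then 1 else 0) with hN
  set ν : G → ℝ≥0∞ := fun x => walk μ L x - β * N x with hν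
  have e1 : ∀ x, walk μ L x = β * N x + ν x := by
    intro x
    rw [hν]
    exact (add_tsub_cancel_of_le (hβ x)).symm
  have hNsum : ∀ f : G → ℝ≥0∞, ∑' x, N x * f x = ∑ b ∈ S, ∑ a ∈ S, f (a * b) := by
    intro f
    simp only [hN]
    simp_rw [Finset.sum_mul]
    rw [Summable.tsum_finsetSum (fun _ _ => ENNReal.summable)]
    refine Finset.sum_congr rfl fun b _ => ?_
    rw [Summable.tsum_finsetSum (fun _ _ => ENNReal.summable)]
    refine Finset.sum_congr rfl fun a _ => ?_
    rw [tsum_eq_single (a * b)]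
    · simp
    · intro y hy
      rw [if_neg (fun h => hy h.symm), zero_mul]
  have hN1 : ∑' x, N x = 1600 := by
    have := hNsum (fun _ => 1)
    simp only [mul_one, Finset.sum_const, hcard] at this
    rw [this]
    norm_num
  have hνsum : ∑' x, ν x = 1 - 1600 * β := by
    have h1 : ∑' x, walk μ L x = 1 := (walk μ L).tsum_coe
    simp_rw [e1] at h1
    rw [ENNReal.tsum_add, ENNReal.tsum_mul_left, hN1, mul_comm β] at h1
    rw [← h1]
    rw [ENNReal.add_sub_cancel_left (ENNReal.mul_ne_top (by norm_num) hβt)]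
  have e2 : Ex (walk μ L) ψ = fun g =>
      β * (∑ b ∈ S, ∑ a ∈ S, ψ (g * (a * b))) + ∑' x, ν x * ψ (g * x) := by
    funext g
    unfold Ex
    simp_rw [e1, add_mul]
    rw [ENNReal.tsum_add]
    congr 1
    simp_rw [mul_assoc]
    rw [ENNReal.tsum_mul_left, hNsum]
  rw [e2]
  have h3 : Bd S (β * (1160 * κ)) (fun g => β * (∑ b ∈ S, ∑ a ∈ S, ψ (g * (a * b)))) :=
    Bd.mul β (Bd.U h)
  have h4 : Bd S ((∑' x, ν x) * κ) (fun g => ∑' x, ν x * ψ (g * x)) :=
    Bd.tsum fun x => h.shift x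
  have h5 := Bd.add h3 h4
  rw [hνsum] at h5
  have e3 : β * (1160 * κ) + (1 - 1600 * β) * κ = (1160 * β + (1 - 1600 * β)) * κ := by ring
  rw [e3] at h5
  exact h5

theorem exp_decay {μ : PMF G} {L : ℕ} (hL : 0 < L) (hcard : S.card = 40)
    (hpos : ∀ a ∈ S, walk μ L a ≠ 0) {φ : G → ℝ≥0∞} (h : Bd S 2 φ) :
    ∃ B c : ℝ, 0 < B ∧ 0 < c ∧ c < 1 ∧ ∀ n : ℕ,
      ∑' x, walk μ n x * φ x ≤ ENNReal.ofReal (B * c ^ n) := by
  classical
  -- a common lower bound
  obtain ⟨α, hα0, hα1, hα⟩ : ∃ α : ℝ≥0∞, α ≠ 0 ∧ α ≤ 1 ∧ ∀ a ∈ S, α ≤ walk μ L a := by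
    have hne : S.Nonempty := by
      rw [← Finset.card_pos, hcard]; norm_num
    obtain ⟨a0, ha0, hmin⟩ := Finset.exists_min_image S (fun a => walk μ L a) hne
    exact ⟨walk μ L a0, hpos a0 ha0, PMF.coe_le_one _ _, hmin⟩
  have hαt : α ≠ ⊤ := ne_top_of_le_ne_top ENNReal.one_ne_top hα1
  set β : ℝ≥0∞ := α * α with hβdef
  have hβ0 : β ≠ 0 := mul_ne_zero hα0 hα0
  have hβt : β ≠ ⊤ := ENNReal.mul_ne_top hαt hαt
  have hβ : ∀ x, β * ∑ b ∈ S, ∑ a ∈ S, (if a * b = x then 1 else 0) ≤ walk μ (L + L) x := by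
    intro x
    rw [walk_add_apply, Finset.sum_comm, Finset.mul_sum]
    calc ∑ a ∈ S, β * ∑ b ∈ S, (if a * b = x then 1 else 0)
        ≤ ∑ a ∈ S, walk μ L a * walk μ L (a⁻¹ * x) := by
          apply Finset.sum_le_sum
          intro a ha
          by_cases hax : a⁻¹ * x ∈ S
          · have h1 : ∑ b ∈ S, (if a * b = x then (1 : ℝ≥0∞) else 0) = 1 := by
              rw [Finset.sum_eq_single (a⁻¹ * x)]
              · simp
              · intro b _ hb
                rw [if_neg]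
                intro h2
                apply hb
                rw [← h2]; group
              · intro h2; exact absurd hax h2
            rw [h1, mul_one, hβdef]
            exact mul_le_mul' (hα a ha) (hα _ hax)
          · have h1 : ∑ b ∈ S, (if a * b = x then (1 : ℝ≥0∞) else 0) = 0 := by
              apply Finset.sum_eq_zero
              intro b hb
              rw [if_neg]
              intro h2
              apply hax
              rw [← h2]
              simpa using hb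
            rw [h1, mul_zero]
            simp
      _ ≤ ∑' y, walk μ L y * walk μ L (y⁻¹ * x) := ENNReal.sum_le_tsum _
  set lam : ℝ≥0∞ := 1160 * β + (1 - 1600 * β) with hlam
  -- iterate
  have hbd : ∀ m r : ℕ, Bd S (2 * lam ^ m) (Ex (walk μ ((L + L) * m + r)) φ) := by
    intro m
    induction m with
    | zero =>
      intro r
      have h1 : Bd S ((∑' x, walk μ r x) * 2) (fun g => ∑' x, walk μ r x * φ (g * x)) :=
        Bd.tsum fun x => h.shift x
      rw [(walk μ r).tsum_coe, one_mul] at h1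
      rw [mul_zero, zero_add, pow_zero, mul_one]
      exact h1
    | succ m ih =>
      intro r
      have h1 := Bd.block (μ := μ) (L := L + L) hcard hβ hβt (ih r)
      have h2 : Ex (walk μ ((L + L) * (m + 1) + r)) φ =
          Ex (walk μ (L + L)) (Ex (walk μ ((L + L) * m + r)) φ) := by
        funext g
        rw [← Ex_walk_add]
        congr 2
        ring
      rw [h2]
      have h3 : 2 * lam ^ (m + 1) = lam * (2 * lam ^ m) := by rw [pow_succ]; ring
      rw [h3]
      exact h1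
  have hβle : 1600 * β ≤ 1 := by
    have h1 : ∑' x, β * ∑ b ∈ S, ∑ a ∈ S, (if a * b = x then (1 : ℝ≥0∞) else 0) ≤
        ∑' x, walk μ (L + L) x := ENNReal.tsum_le_tsum hβ
    rw [(walk μ (L + L)).tsum_coe, ENNReal.tsum_mul_left,
      Summable.tsum_finsetSum (fun _ _ => ENNReal.summable)] at h1
    have h2 : ∀ b ∈ S, ∑' x, ∑ a ∈ S, (if a * b = x then (1 : ℝ≥0∞) else 0) = 40 := by
      intro b _
      rw [Summable.tsum_finsetSum (fun _ _ => ENNReal.summable)]
      have h3 : ∀ a ∈ S, ∑' x, (if a * b = x then (1 : ℝ≥0∞) else 0) = 1 := by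
        intro a _
        rw [tsum_eq_single (a * b)]
        · simp
        · intro y hy
          rw [if_neg (fun h => hy h.symm)]
      rw [Finset.sum_congr rfl h3]
      simp [hcard]
    rw [Finset.sum_congr rfl h2] at h1
    simp only [Finset.sum_const, hcard, nsmul_eq_mul] at h1
    calc 1600 * β = β * ((40 : ℕ) * 40) := by push_cast; ring
      _ ≤ 1 := h1
  have hlam1 : lam < 1 := by
    have h1 : (1600 : ℝ≥0∞) * β + (1 - 1600 * β) = 1 := add_tsub_cancel_of_le hβle
    have h2 : lam < 1600 * β + (1 - 1600 * β) := by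
      rw [hlam]
      apply ENNReal.add_lt_add_right
      · exact ne_top_of_le_ne_top ENNReal.one_ne_top tsub_le_self
      · exact ENNReal.mul_lt_mul_left hβ0 hβt (by norm_num)
    rwa [h1] at h2
  have hlam0 : lam ≠ 0 := by
    rw [hlam]
    intro h0
    have := (add_eq_zero.1 h0).1
    rcases mul_eq_zero.1 this with h1 | h1
    · norm_num at h1
    · exact hβ0 h1
  have hlamt : lam ≠ ⊤ := ne_top_of_lt hlam1
  set q : ℝ := lam.toReal with hq
  have hq0 : 0 < q := ENNReal.toReal_pos hlam0 hlamt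
  have hq1 : q < 1 := by
    have := (ENNReal.toReal_lt_toReal hlamt ENNReal.one_ne_top).2 hlam1
    simpa using this
  set k : ℕ := L + L with hk
  have hkpos : 0 < k := by omega
  set c : ℝ := q ^ ((1 : ℝ) / k) with hc
  have hc0 : 0 < c := Real.rpow_pos_of_pos hq0 _
  have hkR : (0 : ℝ) < k := by exact_mod_cast hkpos
  have hc1 : c < 1 := Real.rpow_lt_one hq0.le hq1 (by positivity)
  have hck : c ^ k = q := by
    rw [hc, ← Real.rpow_natCast, ← Real.rpow_mul hq0.le]
    rw [one_div, inv_mul_cancel₀ hkR.ne', Real.rpow_one]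
  refine ⟨2 / q, c, by positivity, hc0, hc1, ?_⟩
  intro n
  have h1 := hbd (n / k) (n % k) [] 1
  rw [Nat.div_add_mod] at h1
  simp only [ev, Ex, one_mul, List.length_nil, pow_zero, mul_one] at h1
  refine h1.trans ?_
  have h2 : (2 : ℝ≥0∞) * lam ^ (n / k) = ENNReal.ofReal (2 * q ^ (n / k)) := by
    rw [ENNReal.ofReal_mul (by norm_num), ENNReal.ofReal_pow hq0.le, hq,
      ENNReal.ofReal_toReal hlamt]
    norm_num
  rw [h2]
  apply ENNReal.ofReal_le_ofReal
  have h3 : q * q ^ (n / k) ≤ c ^ n := by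
    rw [← hck, ← pow_mul, ← pow_add]
    apply pow_le_pow_of_le_one hc0.le hc1.le
    have := Nat.lt_div_mul_add (a := n) hkpos
    have h4 : n / k * k = k * (n / k) := by ring
    omega
  have h5 : 2 / q * c ^ n ≥ 2 / q * (q * q ^ (n / k)) := by gcongr
  have h6 : 2 / q * (q * q ^ (n / k)) = 2 * q ^ (n / k) := by field_simp
  linarith

end walk

end Pool.Agent.H88.WPD
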