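import Pool.Agent.H88.WPD.Comb

/-!
Leaf estimates.
-/

namespace Pool.Agent.H88.WPD

open scoped ENNReal

section leaf

variable {X : Type*} [PseudoMetricSpace X]
variable {G : Type*} [Group G] [MulAction G X]

/-- w = c a t with a in S and no cancellation at both ends of a. -/
def Good (S : Finset G) (C : ℝ) (o : X) (w : G) : Prop :=
  ∃ a ∈ S, ∃ c t : G, w = c * (a * t) ∧ gp (c⁻¹ • o) (a • o) o ≤ C ∧
    gp (a⁻¹ • o) (t • o) o ≤ 2 * C

/-- w is conjugate to a cyclically reduced product a m b with a in S. -/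
def CycGood (S : Finset G) (C : ℝ) (o : X) (w : G) : Prop :=
  ∃ a ∈ S, ∃ P m b : G, w = P * (a * (m * b)) * P⁻¹ ∧ 70 * C ≤ dist o (m • o) ∧
    70 * C ≤ dist o (b • o) ∧ gp (a⁻¹ • o) (m • o) o ≤ 4 * C ∧
    gp (m⁻¹ • o) (b • o) o ≤ 4 * C ∧ gp (b⁻¹ • o) (a • o) o ≤ 4 * C

variable [IsIsometricSMul G X] {S : Finset G} {C δ : ℝ} {o : X}

theorem good_zero (h : Hyp X δ) (hδ : 0 ≤ δ) (hδC : δ ≤ C) (hC : 0 < C) (hS : Sch S C o)
    {φ : G → ℝ≥0∞} (hφ : ∀ w, Good S C o w → φ w = 0) (c : G) :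
    ∀ (σ : List (Frame G)) (F : Frame G) (t : G), Valid S C o c (F :: σ) →
      CS o C (F.b • o) ((F.b * (F.e * t)) • o) → Sm (F :: σ) φ c t = 0 := by
  intro σ
  induction σ with
  | nil =>
    intro F t hv hcs
    simp only [Sm]
    refine Finset.sum_eq_zero fun a ha => hφ _ ?_
    have h1 := hv.2.2.2.2 a ha
    refine ⟨a, hv.2.1 ha, c, F.b * (F.e * t), rfl, h1.1, ?_⟩
    exact cs_back h hδ hδC hC hcs (hS.len _ hv.2.2.1) h1.2
  | cons F2 σ2 ih =>
    intro F t hv hcs
    have : Sm (F :: F2 :: σ2) φ c t =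
        ∑ a ∈ F.A, Sm (F2 :: σ2) φ c (a * (F.b * (F.e * t))) := rfl
    rw [this]
    refine Finset.sum_eq_zero fun a ha => ?_
    have h1 := hv.2.2.2.2 a ha
    apply ih F2 _ hv.1
    have h2 := cs_pop (ρ := F2.b * F2.e) (a := a) (ζ := (F.b * (F.e * t)) • o) h hδC hC
      hv.1.2.2.2.1 (by
        have := h1.1
        simp only [rho] at this
        linarith) (cs_back h hδ hδC hC hcs (hS.len _ hv.2.2.1) h1.2)
      (hS.len a (hv.2.1 ha))
    simpa [mul_smul] using h2

theorem leaf_good (h : Hyp X δ) (hδ : 0 ≤ δ) (hδC : δ ≤ C) (hC : 0 < C) (hS : Sch S C o)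
    {φ : G → ℝ≥0∞} (hφ1 : ∀ w, φ w ≤ 1) (hφ : ∀ w, Good S C o w → φ w = 0) :
    ∀ c σ, Valid S C o c σ → Sm σ φ c 1 ≤ 2 * 20 ^ σ.length := by
  intro c σ hv
  cases σ with
  | nil =>
    simp only [Sm, List.length_nil, pow_zero]
    calc φ (c * 1) ≤ 1 := hφ1 _
      _ ≤ 2 * 1 := by norm_num
  | cons F σ =>
    rw [good_zero h hδ hδC hC hS hφ c σ F 1 hv (by simpa using hv.2.2.2.1)]
    simp

/-- Validity without reference to the base. -/
def Val0 (S : Finset G) (C : ℝ) (o : X) : List (Frame G) → Prop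
  | [] => True
  | F :: σ => Val0 S C o σ ∧ F.A ⊆ S ∧ F.b ∈ S ∧ CS o C (F.b • o) ((F.b * F.e) • o) ∧
      (∀ a ∈ F.A, gp (a⁻¹ • o) (F.b • o) o ≤ C) ∧
      ∀ F2 ∈ σ.head?, ∀ a ∈ F.A, gp ((F2.b * F2.e)⁻¹ • o) (a • o) o ≤ C

theorem Valid.val0 {c : G} : ∀ {σ : List (Frame G)}, Valid S C o c σ → Val0 S C o σ := by
  intro σ
  induction σ with
  | nil => intro _; trivial
  | cons F σ ih =>
    intro hv
    refine ⟨ih hv.1, hv.2.1, hv.2.2.1, hv.2.2.2.1, fun a ha => (hv.2.2.2.2 a ha).2, ?_⟩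
    intro F2 hF2 a ha
    cases σ with
    | nil => simp at hF2
    | cons F3 σ3 =>
      simp only [List.head?_cons, Option.mem_def, Option.some.injEq] at hF2
      subst hF2
      exact (hv.2.2.2.2 a ha).1

theorem Val0.dropLast {F' : Frame G} : ∀ {σ : List (Frame G)}, Val0 S C o (σ ++ [F']) →
    Val0 S C o σ := by
  intro σ
  induction σ with
  | nil => intro _; trivial
  | cons F σ ih =>
    intro hv
    refine ⟨ih hv.1, hv.2.1, hv.2.2.1, hv.2.2.2.1, hv.2.2.2.2.1, ?_⟩
    intro F2 hF2 a ha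
    apply hv.2.2.2.2.2 F2 _ a ha
    cases σ with
    | nil => simp at hF2
    | cons F3 σ3 => simpa using hF2

/-- The set of words of a stack. -/
def Wd : List (Frame G) → Set G
  | [] => {1}
  | F :: σ => {w | ∃ w' ∈ Wd σ, ∃ a ∈ F.A, w = w' * (a * (F.b * F.e))}

omit [IsIsometricSMul G X] [MulAction G X] [PseudoMetricSpace X] in
theorem Sm_zero {φ : G → ℝ≥0∞} : ∀ (σ : List (Frame G)) (c t : G),
    (∀ w ∈ Wd σ, φ (c * (w * t)) = 0) → Sm σ φ c t = 0 := by
  intro σ
  induction σ with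
  | nil =>
    intro c t h1
    have := h1 1 rfl
    simpa [Sm] using this
  | cons F σ ih =>
    intro c t h1
    simp only [Sm]
    refine Finset.sum_eq_zero fun a ha => ?_
    apply ih
    intro w hw
    have := h1 (w * (a * (F.b * F.e))) ⟨w, hw, a, ha, rfl⟩
    simpa [mul_assoc] using this

omit [IsIsometricSMul G X] [MulAction G X] [PseudoMetricSpace X] in
theorem Sm_append {φ : G → ℝ≥0∞} (F' : Frame G) : ∀ (σ : List (Frame G)) (c t : G),
    Sm (σ ++ [F']) φ c t = ∑ a ∈ F'.A, Sm σ φ (c * (a * (F'.b * F'.e))) t := by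
  intro σ
  induction σ with
  | nil =>
    intro c t
    simp [Sm, mul_assoc]
  | cons F σ ih =>
    intro c t
    simp only [List.cons_append, Sm]
    rw [Finset.sum_comm]
    refine Finset.sum_congr rfl fun a _ => ?_
    rw [ih]

theorem mid (h : Hyp X δ) (hδ : 0 ≤ δ) (hδC : δ ≤ C) (hC : 0 < C) (hS : Sch S C o)
    (F' : Frame G) : ∀ (σ : List (Frame G)), Val0 S C o (σ ++ [F']) → ∀ w ∈ Wd σ,
      CS o C (F'.b • o) ((F'.b * F'.e * w) • o) ∧
      ∀ F2 ∈ (σ ++ [F']).head?, ∀ a : G, gp ((F2.b * F2.e)⁻¹ • o) (a • o) o ≤ C →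
        gp ((F'.b * F'.e * w)⁻¹ • o) (a • o) o ≤ 3 * C := by
  intro σ
  induction σ with
  | nil =>
    intro hv w hw
    have hw1 : w = 1 := hw
    subst hw1
    refine ⟨by simpa using hv.2.2.2.1, ?_⟩
    intro F2 hF2 a ha
    simp only [List.nil_append, List.head?_cons, Option.mem_def, Option.some.injEq] at hF2
    subst hF2
    rw [mul_one]
    linarith
  | cons F σ ih =>
    intro hv w hw
    obtain ⟨w', hw', a, ha, rfl⟩ := hw
    obtain ⟨i1, i2⟩ := ih hv.1 w' hw'
    set x := F'.b * F'.e * w' with hx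
    set m := F.b * F.e with hm
    have hl : gp (x⁻¹ • o) (a • o) o ≤ 3 * C := by
      cases σ with
      | nil =>
        exact i2 F' (by simp) a (hv.2.2.2.2.2 F' (by simp) a ha)
      | cons F3 σ3 =>
        exact i2 F3 (by simp) a (hv.2.2.2.2.2 F3 (by simp) a ha)
    have hcsF : CS o C (F.b • o) (m • o) := hv.2.2.2.1
    have hb : gp (a⁻¹ • o) (m • o) o ≤ 2 * C :=
      cs_back h hδ hδC hC hcsF (hS.len _ hv.2.2.1) (hv.2.2.2.2.1 a ha)
    have hmd : 70 * C ≤ dist o (m • o) := cs_dist h hδ hδC hC hcsF (hS.len _ hv.2.2.1)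
    have hal := hS.len a (hv.2.1 ha)
    have e0 : F'.b * F'.e * (w' * (a * m)) = x * (a * m) := by rw [hx]; group
    rw [e0]
    constructor
    · have := cs_pop (ρ := x) (a := a) (ζ := m • o) h hδC hC i1 hl hb hal
      simpa [mul_smul] using this
    · intro F2 hF2 a2 ha2
      simp only [List.cons_append, List.head?_cons, Option.mem_def, Option.some.injEq] at hF2
      subst hF2
      have e1 : gp ((x * a)⁻¹ • o) (m • o) o ≤ 2 * C + δ :=
        jn_mul_left h hb hl (by linarith)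
      have e2 : gp ((x * a * m)⁻¹ • o) (a2 • o) o ≤ C + δ :=
        jn_mul_left h ha2 e1 (by linarith)
      have e3 : x * (a * m) = x * a * m := by group
      rw [e3]
      linarith

/-- Peeling the bottom frame and the top frame: for good outer letters everything is good. -/
theorem cyc_zero (h : Hyp X δ) (hδ : 0 ≤ δ) (hδC : δ ≤ C) (hC : 0 < C) (hS : Sch S C o)
    {φ : G → ℝ≥0∞} (hφ : ∀ w, CycGood S C o w → φ w = 0) {F F' : Frame G}
    {σ : List (Frame G)} (hv : Val0 S C o (F :: (σ ++ [F']))) {a a' : G} (ha : a ∈ F.A)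
    (ha' : a' ∈ F'.A) (hF' : Val0 S C o [F']) (c t : G)
    (h1 : gp (a⁻¹ • o) ((F.b * (F.e * t) * c) • o) o ≤ C)
    (h2 : gp ((a * (F.b * (F.e * t) * c))⁻¹ • o) (a' • o) o ≤ C) :
    Sm σ φ (c * (a' * (F'.b * F'.e))) (a * (F.b * (F.e * t))) = 0 := by
  apply Sm_zero
  intro w hw
  apply hφ
  obtain ⟨i1, i2⟩ := mid h hδ hδC hC hS F' σ hv.1 w hw
  set x := F'.b * F'.e * w with hx
  set E := F.b * (F.e * t) * c with hE
  have hal := hS.len a (hv.2.1 ha)
  have hl : gp (x⁻¹ • o) (a • o) o ≤ 3 * C := by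
    cases σ with
    | nil => exact i2 F' (by simp) a (hv.2.2.2.2.2 F' (by simp) a ha)
    | cons F3 σ3 => exact i2 F3 (by simp) a (hv.2.2.2.2.2 F3 (by simp) a ha)
  refine ⟨a', hF'.2.1 ha', c, x, a * E, ?_, ?_, ?_, ?_, ?_, ?_⟩
  · rw [hx, hE]; group
  · exact cs_dist h hδ hδC hC i1 (hS.len _ hF'.2.2.1)
  · have e1 := jn_len (o := o) a E
    have e2 : 0 ≤ dist o (E • o) := dist_nonneg
    linarith
  · have := cs_back h hδ hδC hC i1 (hS.len _ hF'.2.2.1) (hF'.2.2.2.2.1 a' ha')
    linarith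
  · have := jn_mul_right (o := o) (l := E) h hl h1 (by linarith)
    linarith
  · linarith

theorem Val0.last {F' : Frame G} : ∀ {σ : List (Frame G)}, Val0 S C o (σ ++ [F']) →
    Val0 S C o [F'] := by
  intro σ
  induction σ with
  | nil => intro hv; exact hv
  | cons F σ ih => intro hv; exact ih hv.1

theorem leaf_cyc (h : Hyp X δ) (hδ : 0 ≤ δ) (hδC : δ ≤ C) (hC : 0 < C) (hS : Sch S C o)
    {φ : G → ℝ≥0∞} (hφ1 : ∀ w, φ w ≤ 1) (hφ : ∀ w, CycGood S C o w → φ w = 0) :
    ∀ (n : ℕ) (σ : List (Frame G)), σ.length ≤ n → Val0 S C o σ → ∀ c t : G,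
      Sm σ φ c t ≤ 2 * 20 ^ σ.length := by
  classical
  intro n
  induction n using Nat.strong_induction_on with
  | _ n ih =>
  intro σ hn hv c t
  cases σ with
  | nil =>
    simp only [Sm, List.length_nil, pow_zero]
    calc φ (c * t) ≤ 1 := hφ1 _
      _ ≤ 2 * 1 := by norm_num
  | cons F σ0 =>
    rcases List.eq_nil_or_concat σ0 with h0 | ⟨σ, F', h0⟩
    · subst h0
      have hA : F.A.card ≤ 40 := by
        rw [← hS.card]
        exact Finset.card_le_card hv.2.1
      calc Sm [F] φ c t = ∑ a ∈ F.A, φ (c * (a * (F.b * (F.e * t)))) := rfl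
        _ ≤ ∑ a ∈ F.A, 1 := Finset.sum_le_sum fun a _ => hφ1 _
        _ = F.A.card := by simp
        _ ≤ (40 : ℕ) := by exact_mod_cast hA
        _ = 2 * 20 ^ [F].length := by simp; norm_num
    · rw [List.concat_eq_append] at h0
      subst h0
      have hA : F.A.card ≤ 40 := by
        rw [← hS.card]
        exact Finset.card_le_card hv.2.1
      have hF' := Val0.last hv.1
      have hA' : F'.A.card ≤ 40 := by
        rw [← hS.card]
        exact Finset.card_le_card hF'.2.1
      have hv' : Val0 S C o σ := Val0.dropLast hv.1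
      set I : ℝ≥0∞ := 2 * 20 ^ σ.length with hI
      have hlen : σ.length < n := by
        simp only [List.length_cons, List.length_append, List.length_nil] at hn
        omega
      have hin : ∀ c t : G, Sm σ φ c t ≤ I := fun c t => ih σ.length hlen σ le_rfl hv' c t
      have e1 : Sm (F :: (σ ++ [F'])) φ c t = ∑ a ∈ F.A, ∑ a' ∈ F'.A,
          Sm σ φ (c * (a' * (F'.b * F'.e))) (a * (F.b * (F.e * t))) := by
        simp only [Sm]
        refine Finset.sum_congr rfl fun a _ => ?_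
        rw [Sm_append]
      rw [e1]
      have e2 : ∑ a ∈ F.A, ∑ a' ∈ F'.A,
          Sm σ φ (c * (a' * (F'.b * F'.e))) (a * (F.b * (F.e * t))) ≤
          F.A.card * I + (1 : ℕ) * (40 * I) := by
        apply sum_le_bad (p := fun a => C < gp ((F.b * (F.e * t) * c) • o) (a⁻¹ • o) o)
        · apply card_filter_le_one
          intro a ha b hb h5 h6
          exact hS.bwd _ a (hv.2.1 ha) b (hv.2.1 hb) h5 h6
        · intro a ha hgp
          push Not at hgp
          have e3 : ∑ a' ∈ F'.A,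
              Sm σ φ (c * (a' * (F'.b * F'.e))) (a * (F.b * (F.e * t))) ≤
              F'.A.card * 0 + (1 : ℕ) * I := by
            apply sum_le_bad
              (p := fun a' => C < gp ((a * (F.b * (F.e * t) * c))⁻¹ • o) (a' • o) o)
            · apply card_filter_le_one
              intro a1 h1 a2 h2 h5 h6
              exact hS.fwd _ a1 (hF'.2.1 h1) a2 (hF'.2.1 h2) h5 h6
            · intro a' ha' hgp'
              push Not at hgp'
              rw [cyc_zero h hδ hδC hC hS hφ hv ha ha' hF' c t (by rw [gp_comm]; exact hgp)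
                hgp']
            · intro a' _ _
              exact hin _ _
          simpa using e3
        · intro a _ _
          calc _ ≤ ∑ a' ∈ F'.A, I := Finset.sum_le_sum fun a' _ => hin _ _
            _ = F'.A.card * I := by simp
            _ ≤ (40 : ℕ) * I := by gcongr
            _ = 40 * I := by norm_num
      calc _ ≤ _ := e2
        _ ≤ (40 : ℕ) * I + (1 : ℕ) * (40 * I) := by gcongr
        _ = 80 * I := by push_cast; ring
        _ ≤ 400 * I := by gcongr; norm_num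
        _ = 2 * 20 ^ (F :: (σ ++ [F'])).length := by
          rw [List.length_cons, List.length_append, List.length_singleton, pow_succ, pow_succ,
            hI]
          ring

end leaf

end Pool.Agent.H88.WPD
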