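import Pool.Agent.H88.WPD.Loxo
import Pool.Agent.H88.WPD.Leaf

/-!
Cyclically reduced words are WPD; good words have small coarse stabilisers.
-/

namespace Pool.Agent.H88.WPD

section cyc

variable {X : Type*} [PseudoMetricSpace X] {δ C : ℝ} {o : X}
variable {G : Type*} [Group G] [MulAction G X] [IsIsometricSMul G X]

/-- The vertices of the periodic chain of (a m b)^infinity. -/
def per (o : X) (a m b : G) (i : ℕ) : X :=
  (a * m * b) ^ (i / 3) • (if i % 3 = 0 then (1 : G) else if i % 3 = 1 then a else a * m) • o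

theorem per_zero (a m b : G) (k : ℕ) : per o a m b (3 * k) = (a * m * b) ^ k • o := by
  unfold per
  rw [Nat.mul_div_cancel_left k (by norm_num : 0 < 3), Nat.mul_mod_right]
  simp

theorem per_one (a m b : G) (k : ℕ) : per o a m b (3 * k + 1) = (a * m * b) ^ k • a • o := by
  unfold per
  have h1 : (3 * k + 1) / 3 = k := by omega
  have h2 : (3 * k + 1) % 3 = 1 := by omega
  rw [h1, h2]
  simp

theorem per_two (a m b : G) (k : ℕ) :
    per o a m b (3 * k + 2) = (a * m * b) ^ k • (a * m) • o := by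
  unfold per
  have h1 : (3 * k + 2) / 3 = k := by omega
  have h2 : (3 * k + 2) % 3 = 2 := by omega
  rw [h1, h2]
  simp

theorem per_chain (hC : 0 < C) {a m b : G} (ha : 100 * C ≤ dist o (a • o))
    (hm : 70 * C ≤ dist o (m • o)) (hb : 70 * C ≤ dist o (b • o))
    (h1 : gp (a⁻¹ • o) (m • o) o ≤ 4 * C) (h2 : gp (m⁻¹ • o) (b • o) o ≤ 4 * C)
    (h3 : gp (b⁻¹ • o) (a • o) o ≤ 4 * C) : Chain (per o a m b) (4 * C) (70 * C) := by
  set g := a * m * b with hg
  have hsucc : ∀ k, g ^ (k + 1) = g ^ k * (a * m * b) := fun k => pow_succ _ _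
  constructor
  · intro i
    obtain ⟨k, hk⟩ : ∃ k, i = 3 * k ∨ i = 3 * k + 1 ∨ i = 3 * k + 2 := ⟨i / 3, by omega⟩
    rcases hk with rfl | rfl | rfl
    · rw [per_zero, per_one, per_two, gp_smul, mul_smul, gp_inv_smul]
      exact h1
    · have e1 : 3 * k + 1 + 2 = 3 * (k + 1) := by ring
      have e2 : 3 * k + 1 + 1 = 3 * k + 2 := by ring
      rw [e1, e2, per_zero, per_one, per_two]
      have e3 : (a * m * b) ^ (k + 1) • o = (a * m * b) ^ k • (a * m) • b • o := by
        rw [pow_succ, mul_smul, mul_smul]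
      rw [e3, gp_smul, gp_inv_smul]
      have e4 : (a * m)⁻¹ • a • o = m⁻¹ • o := by
        rw [← mul_smul]; congr 1; group
      rw [e4]
      exact h2
    · have e1 : 3 * k + 2 + 2 = 3 * (k + 1) + 1 := by ring
      have e2 : 3 * k + 2 + 1 = 3 * (k + 1) := by ring
      rw [e1, e2, per_zero, per_one, per_two, gp_inv_smul]
      have e3 : ((a * m * b) ^ (k + 1))⁻¹ • (a * m * b) ^ k • (a * m) • o = b⁻¹ • o := by
        rw [← mul_smul, ← mul_smul]; congr 1; rw [pow_succ]; group
      have e5 := gp_inv_smul (X := X) ((a * m * b) ^ (k + 1))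
        ((a * m * b) ^ k • (a * m) • o) (a • o) o
      rw [e3] at e5
      rw [← gp_inv_smul, e5] 
      exact h3
  · intro i
    obtain ⟨k, hk⟩ : ∃ k, i = 3 * k ∨ i = 3 * k + 1 ∨ i = 3 * k + 2 := ⟨i / 3, by omega⟩
    rcases hk with rfl | rfl | rfl
    · rw [per_zero, per_one, dist_smul]
      linarith
    · have e2 : 3 * k + 1 + 1 = 3 * k + 2 := by ring
      rw [e2, per_one, per_two, dist_smul, mul_smul, dist_smul]
      linarith
    · have e2 : 3 * k + 2 + 1 = 3 * (k + 1) := by ring
      rw [e2, per_zero, per_two]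
      have e3 : (a * m * b) ^ (k + 1) • o = (a * m * b) ^ k • (a * m) • b • o := by
        rw [pow_succ, mul_smul, mul_smul]
      rw [e3, dist_smul, dist_smul]
      linarith

theorem stab_conj_finite {K : ℝ} {x y : X} (u : G) (h : (Stab G K x y).Finite) :
    (Stab G K (u • x) (u • y)).Finite := by
  refine Set.Finite.subset (h.image (fun g => u * g * u⁻¹)) ?_
  intro g hg
  refine ⟨u⁻¹ * g * u, ⟨?_, ?_⟩, by group⟩
  · have e1 : dist x ((u⁻¹ * g * u) • x) = dist (u • x) (g • u • x) := by
      rw [← dist_smul u x, mul_smul, mul_smul, smul_inv_smul]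
    rw [e1]
    exact hg.1
  · have e1 : dist y ((u⁻¹ * g * u) • y) = dist (u • y) (g • u • y) := by
      rw [← dist_smul u y, mul_smul, mul_smul, smul_inv_smul]
    rw [e1]
    exact hg.2

theorem stab_conj_encard {K : ℝ} {x y : X} (u : G) :
    (Stab G K (u • x) (u • y)).encard ≤ (Stab G K x y).encard := by
  have : Stab G K (u • x) (u • y) ⊆ (fun g => u * g * u⁻¹) '' Stab G K x y := by
    intro g hg
    refine ⟨u⁻¹ * g * u, ⟨?_, ?_⟩, by group⟩
    · have e1 : dist x ((u⁻¹ * g * u) • x) = dist (u • x) (g • u • x) := by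
        rw [← dist_smul u x, mul_smul, mul_smul, smul_inv_smul]
      rw [e1]
      exact hg.1
    · have e1 : dist y ((u⁻¹ * g * u) • y) = dist (u • y) (g • u • y) := by
        rw [← dist_smul u y, mul_smul, mul_smul, smul_inv_smul]
      rw [e1]
      exact hg.2
  exact (Set.encard_le_encard this).trans (Set.encard_image_le _ _)

theorem WPD.conj {g : G} (h : WPD X g) (P : G) : WPD X (P * g * P⁻¹) := by
  refine ⟨h.1.conj P, fun x K hK => ?_⟩
  obtain ⟨N, hN0, hN⟩ := h.2 (P⁻¹ • x) K hK
  refine ⟨N, hN0, ?_⟩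
  have h1 := stab_conj_finite P hN
  rw [smul_inv_smul] at h1
  have e1 : (P * g * P⁻¹) ^ N • x = P • g ^ N • P⁻¹ • x := by
    rw [conj_pow, mul_smul, mul_smul]
  rw [e1]
  exact h1

theorem gp_move_ge {K : ℝ} {x x' p : X} (h : dist x x' ≤ K) : dist x' p - K ≤ gp x x' p := by
  unfold gp
  have := dist_triangle x' x p
  rw [dist_comm x' x] at this
  linarith

theorem stab_near (hX : Hyp X δ) (hδ : 0 ≤ δ) (hδC : δ ≤ C) {K : ℝ} {z p : X} {h : G}
    (hh : h ∈ Stab G K o z) (hp : gp o z p ≤ 6 * C) (h1 : K + 20 * C ≤ dist o p)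
    (h2 : K + 20 * C ≤ dist z p) (hC : 0 < C) : gp o z (h • p) ≤ 8 * C := by
  have e1 : gp (h • z) (h • o) (h • p) ≤ 6 * C := by
    rw [gp_smul, gp_comm]; exact hp
  have e2 : gp (h • z) o (h • p) ≤ 6 * C + δ := by
    apply hX.le e1
    have := gp_move_ge (p := h • p) hh.1
    rw [dist_smul] at this
    linarith
  have e3 : gp o z (h • p) ≤ 6 * C + δ + δ := by
    apply hX.le (z := h • z)
    · rw [gp_comm]; exact e2
    · have := gp_move_ge (p := h • p) hh.2
      rw [dist_smul] at this
      linarith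
  linarith

theorem near_close (hX : Hyp X δ) (hδC : δ ≤ C) {z p p' : X} {t : ℝ}
    (h1 : gp o z p ≤ 8 * C) (h2 : gp o z p' ≤ 8 * C) (h3 : |dist o p - dist o p'| ≤ t) :
    dist p p' ≤ 18 * C + t := by
  have e1 := hX.four p p' o z
  have e2 := dist_eq_gp o z p
  have e3 := dist_eq_gp o z p'
  have e4 := abs_le.1 h3
  have e5 : dist p o = dist o p := dist_comm _ _
  have e6 : dist p' o = dist o p' := dist_comm _ _
  have e7 : dist p z = dist z p := dist_comm _ _
  have e8 : dist p' z = dist z p' := dist_comm _ _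
  have e9 : max (dist p o + dist p' z) (dist p z + dist p' o) ≤ dist o z + 16 * C + t := by
    apply max_le
    · linarith
    · linarith
  linarith

theorem cyc_wpd (hX : Hyp X δ) (hδC : δ ≤ C) (hC : 0 < C) {a m b : G}
    (ha : 100 * C ≤ dist o (a • o))
    (hm : 70 * C ≤ dist o (m • o)) (hb : 70 * C ≤ dist o (b • o))
    (h1 : gp (a⁻¹ • o) (m • o) o ≤ 4 * C) (h2 : gp (m⁻¹ • o) (b • o) o ≤ 4 * C)
    (h3 : gp (b⁻¹ • o) (a • o) o ≤ 4 * C)
    (hfin : (Stab G (32 * C + 1) o (a • o)).Finite) : WPD X (a * m * b) := by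
  have hδ : 0 ≤ δ := hX.nonneg o
  have hch := per_chain hC ha hm hb h1 h2 h3
  have hD : 2 * (4 * C) + 4 * δ < 70 * C := by linarith
  have hx0 : per o a m b 0 = o := by
    have := per_zero (o := o) a m b 0
    simpa using this
  have hgrow : ∀ i n : ℕ, 60 * C * n ≤ dist (per o a m b i) (per o a m b (i + n)) := by
    intro i n
    have e1 := hch.grow hX hδ hD i n
    have e2 : (0 : ℝ) ≤ n := Nat.cast_nonneg n
    nlinarith
  set g := a * m * b with hg
  refine ⟨⟨o, 60 * C, by positivity, fun n => ?_⟩, fun x K hK => ?_⟩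
  · have e1 := hgrow 0 (3 * n)
    rw [hx0, zero_add, per_zero] at e1
    have e2 : (0 : ℝ) ≤ n := Nat.cast_nonneg n
    push_cast at e1
    nlinarith
  · set K' : ℝ := K + 2 * dist o x with hK'
    have hK'0 : 0 ≤ K' := by positivity
    obtain ⟨N1, hN1⟩ := exists_nat_gt ((K' + 20 * C) / (60 * C))
    rw [div_lt_iff₀ (by positivity)] at hN1
    set N : ℕ := 2 * N1 + 1 with hN
    refine ⟨N, by omega, ?_⟩
    set z : X := g ^ N • o with hz
    have hsub : Stab G K x (g ^ N • x) ⊆ Stab G K' o z := by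
      have aux : ∀ (u k : G), dist (u • x) (k • u • x) ≤ K → dist (u • o) (k • u • o) ≤ K' := by
        intro u k hk
        have e2 : dist (u • o) (k • u • o) ≤ dist (u • o) (u • x) + dist (u • x) (k • u • x) +
          dist (k • u • x) (k • u • o) := dist_triangle4 _ _ _ _
        rw [dist_smul, dist_smul, dist_smul, dist_comm x o] at e2
        linarith
      intro k hk
      refine ⟨?_, aux (g ^ N) k hk.2⟩
      have := aux 1 k (by simpa using hk.1)
      simpa using this
    refine Set.Finite.subset ?_ hsub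
    set ym : X := g ^ N1 • o with hym
    set y : X := g ^ N1 • a • o with hy
    have hzp : z = per o a m b (3 * N1 + 1 + (3 * N1 + 2)) := by
      have : 3 * N1 + 1 + (3 * N1 + 2) = 3 * N := by omega
      rw [this, per_zero]
    have hymp : ym = per o a m b (3 * N1) := (per_zero a m b N1).symm
    have hyp' : y = per o a m b (3 * N1 + 1) := (per_one a m b N1).symm
    have g1 : gp o z ym ≤ 6 * C := by
      have e1 := hch.two hX hδ hD 0 (3 * N1) (3 * N1 + 3)
      have e2 : 0 + 3 * N1 + (3 * N1 + 3) = 3 * N1 + 1 + (3 * N1 + 2) := by ring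
      rw [e2, zero_add, hx0, ← hzp, ← hymp] at e1
      linarith
    have g2 : gp o z y ≤ 6 * C := by
      have e1 := hch.two hX hδ hD 0 (3 * N1 + 1) (3 * N1 + 2)
      rw [zero_add, hx0, ← hzp, ← hyp'] at e1
      linarith
    have g3 : gp o y ym ≤ 6 * C := by
      have e1 := hch.two hX hδ hD 0 (3 * N1) 1
      rw [zero_add, hx0, ← hyp', ← hymp] at e1
      linarith
    have d1 : K' + 20 * C ≤ dist o ym := by
      have e1 := hgrow 0 (3 * N1)
      rw [zero_add, hx0, ← hymp] at e1
      have e2 : (0 : ℝ) ≤ N1 := Nat.cast_nonneg N1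
      push_cast at e1
      nlinarith
    have d2 : K' + 20 * C ≤ dist z y := by
      have e1 := hgrow (3 * N1 + 1) (3 * N1 + 2)
      rw [← hzp, ← hyp', dist_comm] at e1
      have e2 : (0 : ℝ) ≤ N1 := Nat.cast_nonneg N1
      push_cast at e1
      nlinarith
    have d3 : K' + 20 * C ≤ dist z ym := by
      have e1 := hgrow (3 * N1) (3 * N1 + 3)
      have e3 : 3 * N1 + (3 * N1 + 3) = 3 * N1 + 1 + (3 * N1 + 2) := by ring
      rw [e3, ← hzp, ← hymp, dist_comm] at e1
      have e2 : (0 : ℝ) ≤ N1 := Nat.cast_nonneg N1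
      push_cast at e1
      nlinarith
    have d4 : K' + 20 * C ≤ dist o y := by
      have e1 := hgrow 0 (3 * N1 + 1)
      rw [zero_add, hx0, ← hyp'] at e1
      have e2 : (0 : ℝ) ≤ N1 := Nat.cast_nonneg N1
      push_cast at e1
      nlinarith
    have hfin' : (Stab G (32 * C + 1) ym y).Finite := stab_conj_finite (g ^ N1) hfin
    apply Set.Finite.of_finite_fibers (fun h : G => ⌊dist o (h • ym)⌋)
    · refine Set.Finite.subset (Set.finite_Icc (0 : ℤ) ⌊dist o ym + K'⌋) ?_
      rintro _ ⟨h, hh, rfl⟩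
      refine ⟨Int.floor_nonneg.2 dist_nonneg, Int.floor_le_floor ?_⟩
      have := dist_triangle o (h • o) (h • ym)
      rw [dist_smul] at this
      have := hh.1
      linarith
    · rintro _ ⟨h0, hh0, rfl⟩
      refine Set.Finite.subset (hfin'.image (fun k => h0 * k)) ?_
      rintro h ⟨hh, hfl⟩
      have hfl' : ⌊dist o (h0 • ym)⌋ = ⌊dist o (h • ym)⌋ := by
        have : ⌊dist o (h • ym)⌋ = ⌊dist o (h0 • ym)⌋ := hfl
        exact this.symm
      have hab : |dist o (h0 • ym) - dist o (h • ym)| ≤ 1 :=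
        (Int.abs_sub_lt_one_of_floor_eq_floor hfl').le
      refine ⟨h0⁻¹ * h, ⟨?_, ?_⟩, by simp⟩
      · have e1 : dist ym ((h0⁻¹ * h) • ym) = dist (h0 • ym) (h • ym) := by
          rw [← dist_smul h0 ym, mul_smul, smul_inv_smul]
        rw [e1]
        have e2 := near_close hX hδC (stab_near hX hδ hδC hh0 g1 d1 d3 hC)
          (stab_near hX hδ hδC hh g1 d1 d3 hC) hab
        linarith
      · have e1 : dist y ((h0⁻¹ * h) • y) = dist (h0 • y) (h • y) := by
          rw [← dist_smul h0 y, mul_smul, smul_inv_smul]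
        rw [e1]
        have aux : ∀ k : G, k ∈ Stab G K' o z → gp o (k • y) (k • ym) ≤ 7 * C := by
          intro k hk
          have e3 : gp (k • y) (k • o) (k • ym) ≤ 6 * C := by
            rw [gp_smul, gp_comm]; exact g3
          have e4 : gp (k • y) o (k • ym) ≤ 6 * C + δ := by
            apply hX.le e3
            have := gp_move_ge (p := k • ym) hk.1
            rw [dist_smul] at this
            linarith
          rw [gp_comm]
          linarith
        have e3 := aux h0 hh0
        have e4 := aux h hh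
        have e5 := dist_eq_gp o (h0 • y) (h0 • ym)
        have e6 := dist_eq_gp o (h • y) (h • ym)
        rw [dist_smul] at e5 e6
        have e7 := gp_nonneg o (h0 • y) (h0 • ym)
        have e8 := gp_nonneg o (h • y) (h • ym)
        have e9 := abs_le.1 hab
        have e10 : |dist o (h0 • y) - dist o (h • y)| ≤ 14 * C + 1 := by
          rw [abs_le]
          constructor
          · linarith
          · linarith
        have e11 := near_close hX hδC (stab_near hX hδ hδC hh0 g2 d4 d2 hC)
          (stab_near hX hδ hδC hh g2 d4 d2 hC) e10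
        linarith

theorem CycGood.wpd (hX : Hyp X δ) (hδC : δ ≤ C) (hC : 0 < C) {S : Finset G}
    (hS : Sch S C o) (hfin : ∀ a ∈ S, (Stab G (32 * C + 1) o (a • o)).Finite) {w : G}
    (hw : CycGood S C o w) : WPD X w := by
  obtain ⟨a, ha, P, m, b, rfl, hm, hb, h1, h2, h3⟩ := hw
  have := cyc_wpd hX hδC hC (hS.len a ha) hm hb h1 h2 h3 (hfin a ha)
  rw [mul_assoc] at this
  exact this.conj P

theorem Good.stab (hX : Hyp X δ) (hδC : δ ≤ C) (hC : 0 < C) {S : Finset G} (hS : Sch S C o)
    {K : ℝ} {w : G} (hw : Good S C o w) :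
    ∃ a ∈ S, (Stab G K o (w • o)).encard ≤ (Stab G (K + 8 * C) o (a • o)).encard := by
  obtain ⟨a, ha, c, t, rfl, h1, h2⟩ := hw
  refine ⟨a, ha, ?_⟩
  refine le_trans ?_ (stab_conj_encard (K := K + 8 * C) (x := o) (y := a • o) c)
  apply Set.encard_le_encard
  intro g hg
  have hal := hS.len a ha
  have e1 : gp (c⁻¹ • o) ((a * t) • o) o ≤ C + δ := jn_mul_right hX h1 h2 (by linarith)
  have e2 : gp ((c * a)⁻¹ • o) (t • o) o ≤ 2 * C + δ := jn_mul_left hX h2 h1 (by linarith)
  constructor
  · have := stab_mid hX hg (p := c • o) (c := C + δ) (by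
      rw [mul_smul, gp_inv_smul]; exact e1)
    linarith
  · have := stab_mid hX hg (p := c • a • o) (c := 2 * C + δ) (by
      have e3 : (c * (a * t)) • o = (c * a) • t • o := by rw [← mul_smul, mul_assoc]
      have e4 : c • a • o = (c * a) • o := by rw [mul_smul]
      rw [e3, e4, gp_inv_smul]
      exact e2)
    linarith

end cyc

end Pool.Agent.H88.WPD
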