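import Pool.Agent.H88.WPD.Schottky
import Pool.Agent.H88.WPD.Cyc

/-!
Exponential decay, parts (a) and (b).
-/

namespace Pool.Agent.H88.WPD

open scoped ENNReal

section final

variable {X : Type*} [PseudoMetricSpace X] {δ : ℝ}
variable {G : Type*} [Group G] [MulAction G X]

variable (X) in
/-- μ is non-elementary: the semigroup generated by its support contains two independent
loxodromic elements. -/
def NonElementary (μ : PMF G) : Prop :=
  ∃ f ∈ Subsemigroup.closure μ.support, ∃ g ∈ Subsemigroup.closure μ.support, Indep X f g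

/-- The probability of a set. -/
noncomputable def Pr (p : PMF G) (A : Set G) : ℝ := (p.toOuterMeasure A).toReal

theorem closure_walk (μ : PMF G) {x : G} (hx : x ∈ Subsemigroup.closure μ.support) :
    ∃ n : ℕ, 0 < n ∧ walk μ n x ≠ 0 := by
  induction hx using Subsemigroup.closure_induction with
  | mem x hx =>
    refine ⟨1, one_pos, ?_⟩
    have h1 : walk μ 1 = μ := by
      simp only [walk, PMF.pure_bind, one_mul]
      exact PMF.map_id μ
    rw [h1]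
    exact (PMF.mem_support_iff μ x).1 hx
  | mul x y _ _ hx hy =>
    obtain ⟨m, hm, h1⟩ := hx
    obtain ⟨n, _, h2⟩ := hy
    exact ⟨m + n, by omega, walk_pos μ h1 h2⟩

theorem Pr_ge (p : PMF G) {A : Set G} {φ : G → ℝ≥0∞} (hφ : ∀ x, x ∉ A → φ x = 1) {t : ℝ}
    (ht : 0 ≤ t) (h : ∑' x, p x * φ x ≤ ENNReal.ofReal t) : 1 - t ≤ Pr p A := by
  classical
  unfold Pr
  rw [PMF.toOuterMeasure_apply]
  have h1 : (1 : ℝ≥0∞) ≤ (∑' x, A.indicator p x) + ENNReal.ofReal t := by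
    calc (1 : ℝ≥0∞) = ∑' x, p x := p.tsum_coe.symm
      _ ≤ ∑' x, (A.indicator p x + p x * φ x) := by
        refine ENNReal.tsum_le_tsum fun x => ?_
        by_cases hx : x ∈ A
        · rw [Set.indicator_of_mem hx]
          exact le_self_add
        · rw [Set.indicator_of_notMem hx, hφ x hx, mul_one, zero_add]
      _ = (∑' x, A.indicator p x) + ∑' x, p x * φ x := ENNReal.tsum_add
      _ ≤ _ := by gcongr
  have h2 : (∑' x, A.indicator p x) ≤ 1 := by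
    calc _ ≤ ∑' x, p x := by
          refine ENNReal.tsum_le_tsum fun x => ?_
          exact Set.indicator_le_self' (fun _ _ => by simp) x
      _ = 1 := p.tsum_coe
  have h3 : (∑' x, A.indicator p x) ≠ ⊤ := ne_top_of_le_ne_top ENNReal.one_ne_top h2
  have h4 := ENNReal.toReal_mono (ENNReal.add_ne_top.2 ⟨h3, ENNReal.ofReal_ne_top⟩) h1
  rw [ENNReal.toReal_add h3 ENNReal.ofReal_ne_top, ENNReal.toReal_ofReal ht] at h4
  simp only [ENNReal.toReal_one] at h4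
  linarith

variable [IsIsometricSMul G X]

/-- The Schottky sets for a non-elementary WPD measure. -/
theorem schottky_mu (hX : Hyp X δ) (μ : PMF G) (hμ : NonElementary X μ)
    (hw : ∃ h ∈ Subsemigroup.closure μ.support, WPD X h) (o : X) :
    ∃ C : ℝ, 0 < C ∧ δ ≤ C ∧ ∀ K : ℝ, 0 ≤ K → ∃ (S : Finset G) (L : ℕ), 0 < L ∧ Sch S C o ∧
      (∀ a ∈ S, walk μ L a ≠ 0) ∧ ∀ a ∈ S, (Stab G K o (a • o)).Finite := by
  obtain ⟨f0, hf0, g0, hg0, hlf, hlg, hind⟩ := hμ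
  obtain ⟨h, hh, hwpd⟩ := hw
  have choose : ∀ u : ℕ → X, Asy u u → ∃ f ∈ Subsemigroup.closure μ.support,
      Lox X f ∧ ¬ Asy (fun n => f • u n) u := by
    intro u hu
    have h1 := hind u hu
    by_cases h2 : Asy (fun n => f0 • u n) u
    · exact ⟨g0, hg0, hlg, fun h3 => h1 ⟨h2, h3⟩⟩
    · exact ⟨f0, hf0, hlf, h2⟩
  obtain ⟨f, hf, hlf1, hf1⟩ := choose _ (lox_asy hX hwpd.1 o)
  obtain ⟨f', hf', hlf1', hf1'⟩ := choose _ (lox_asy hX hwpd.1.inv o)
  obtain ⟨l, hl, wl⟩ := closure_walk μ hf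
  obtain ⟨l', hl', wl'⟩ := closure_walk μ hf'
  obtain ⟨l3, hl3, wl3⟩ := closure_walk μ hh
  exact schottky hX hl hl' hl3 wl wl' wl3 hlf1 hlf1' hwpd o hf1 hf1'

theorem bd_of_leaf (hX : Hyp X δ) {C : ℝ} {o : X} (hδC : δ ≤ C) (hC : 0 < C) {S : Finset G}
    (hS : Sch S C o) {φ : G → ℝ≥0∞}
    (hL : ∀ c σ, Valid S C o c σ → Sm σ φ c 1 ≤ 2 * 20 ^ σ.length) : Bd S 2 φ := by
  intro l g
  have := claimB hX hδC hC hS hL l g [] trivial
  simpa [Sm] using this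

/-- Part (a). -/
theorem partA (hX : Hyp X δ) (μ : PMF G) (hμ : NonElementary X μ)
    (hw : ∃ h ∈ Subsemigroup.closure μ.support, WPD X h) :
    ∃ B c : ℝ, 0 < B ∧ 0 < c ∧ c < 1 ∧
      ∀ n : ℕ, 1 - B * c ^ n ≤ Pr (walk μ n) {g | WPD X g} := by
  classical
  obtain ⟨_, _, ⟨o, _⟩, _⟩ := hw
  rename_i h' _ 
  have hw : ∃ h ∈ Subsemigroup.closure μ.support, WPD X h := ⟨_, ‹_›, ⟨_, ‹_›⟩, ‹_›⟩
  obtain ⟨C, hC, hδC, hSch⟩ := schottky_mu hX μ hμ hw o
  obtain ⟨S, L, hL, hS, hpos, hfin⟩ := hSch (32 * C + 1) (by positivity)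
  set φ : G → ℝ≥0∞ := fun w => if CycGood S C o w then 0 else 1 with hφ
  have hφ1 : ∀ w, φ w ≤ 1 := by
    intro w
    simp only [hφ]
    split_ifs <;> simp
  have hφ0 : ∀ w, CycGood S C o w → φ w = 0 := by
    intro w hw
    simp only [hφ]
    rw [if_pos hw]
  have hBd : Bd S 2 φ := bd_of_leaf hX hδC hC hS fun c σ hv =>
    leaf_cyc hX (hX.nonneg o) hδC hC hS hφ1 hφ0 σ.length σ le_rfl hv.val0 c 1
  obtain ⟨B, c, hB, hc, hc1, hdec⟩ := exp_decay hL hS.card hpos hBd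
  refine ⟨B, c, hB, hc, hc1, fun n => ?_⟩
  apply Pr_ge _ _ (by positivity) (hdec n)
  intro x hx
  simp only [hφ]
  rw [if_neg]
  intro h1
  exact hx (h1.wpd hX hδC hC hS hfin)

/-- Part (b). -/
theorem partB (hX : Hyp X δ) (μ : PMF G) (hμ : NonElementary X μ)
    (hw : ∃ h ∈ Subsemigroup.closure μ.support, WPD X h) (x : X) (K : ℝ) (hK : 0 ≤ K) :
    ∃ N : ℕ, ∃ B c : ℝ, 0 < B ∧ 0 < c ∧ c < 1 ∧
      ∀ n : ℕ, 1 - B * c ^ n ≤ Pr (walk μ n) {g | (Stab G K x (g • x)).encard ≤ N} := by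
  classical
  obtain ⟨C, hC, hδC, hSch⟩ := schottky_mu hX μ hμ hw x
  obtain ⟨S, L, hL, hS, hpos, hfin⟩ := hSch (K + 8 * C) (by positivity)
  set φ : G → ℝ≥0∞ := fun w => if Good S C x w then 0 else 1 with hφ
  have hφ1 : ∀ w, φ w ≤ 1 := by
    intro w
    simp only [hφ]
    split_ifs <;> simp
  have hφ0 : ∀ w, Good S C x w → φ w = 0 := by
    intro w hw
    simp only [hφ]
    rw [if_pos hw]
  have hBd : Bd S 2 φ := bd_of_leaf hX hδC hC hS
    (leaf_good hX (hX.nonneg x) hδC hC hS hφ1 hφ0)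
  obtain ⟨B, c, hB, hc, hc1, hdec⟩ := exp_decay hL hS.card hpos hBd
  refine ⟨∑ a ∈ S, (Stab G (K + 8 * C) x (a • x)).ncard, B, c, hB, hc, hc1, fun n => ?_⟩
  apply Pr_ge _ _ (by positivity) (hdec n)
  intro g hg
  simp only [hφ]
  rw [if_neg]
  intro h1
  apply hg
  obtain ⟨a, ha, h2⟩ := h1.stab (K := K) hX hδC hC hS
  refine h2.trans ?_
  rw [← (hfin a ha).cast_ncard_eq]
  exact_mod_cast Finset.single_le_sum
    (f := fun a => (Stab G (K + 8 * C) x (a • x)).ncard) (fun _ _ => Nat.zero_le _) ha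

end final

end Pool.Agent.H88.WPD
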