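import Pool.Agent.H88.WPD.Leaf2

/-!
Exponentially small probabilities: shadows, middle letters, drift.
-/

namespace Pool.Agent.H88.WPD

open scoped ENNReal

section es

/-- Exponentially small sequences. -/
def ES (f : ℕ → ℝ≥0∞) : Prop :=
  ∃ B c : ℝ, 0 < B ∧ 0 < c ∧ c < 1 ∧ ∀ n : ℕ, f n ≤ ENNReal.ofReal (B * c ^ n)

theorem ES.of_ev {f g : ℕ → ℝ≥0∞} (hg : ES g) {M : ℝ} (hM : ∀ n, f n ≤ ENNReal.ofReal M)
    (n₀ : ℕ) (h : ∀ n, n₀ ≤ n → f n ≤ g n) : ES f := by
  obtain ⟨B, c, hB, hc, hc1, hbd⟩ := hg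
  refine ⟨B + |M| / c ^ n₀, c, by positivity, hc, hc1, fun n => ?_⟩
  by_cases hn : n₀ ≤ n
  · refine (h n hn).trans ((hbd n).trans ?_)
    apply ENNReal.ofReal_le_ofReal
    have : 0 ≤ |M| / c ^ n₀ * c ^ n := by positivity
    linarith
  · push Not at hn
    refine (hM n).trans ?_
    apply ENNReal.ofReal_le_ofReal
    have h1 : c ^ n₀ ≤ c ^ n := pow_le_pow_of_le_one hc.le hc1.le hn.le
    have h2 : |M| ≤ |M| / c ^ n₀ * c ^ n := by
      rw [div_mul_eq_mul_div, le_div_iff₀ (by positivity)]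
      gcongr
    have h3 : 0 ≤ B * c ^ n := by positivity
    have h4 := le_abs_self M
    linarith

theorem ES.mono {f g : ℕ → ℝ≥0∞} (hg : ES g) (h : ∀ n, f n ≤ g n) : ES f := by
  obtain ⟨B, c, hB, hc, hc1, hbd⟩ := hg
  exact ⟨B, c, hB, hc, hc1, fun n => (h n).trans (hbd n)⟩

theorem ES.add {f g : ℕ → ℝ≥0∞} (hf : ES f) (hg : ES g) : ES (fun n => f n + g n) := by
  obtain ⟨B, c, hB, hc, hc1, hbd⟩ := hf
  obtain ⟨B', c', hB', hc', hc1', hbd'⟩ := hg
  refine ⟨B + B', max c c', by positivity, lt_max_of_lt_left hc, max_lt hc1 hc1', fun n => ?_⟩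
  refine (add_le_add (hbd n) (hbd' n)).trans ?_
  rw [← ENNReal.ofReal_add (by positivity) (by positivity)]
  apply ENNReal.ofReal_le_ofReal
  rw [add_mul]
  gcongr
  · exact le_max_left _ _
  · exact le_max_right _ _

theorem ES.zero : ES (fun _ => 0) :=
  ⟨1, 1 / 2, by norm_num, by norm_num, by norm_num, fun _ => zero_le⟩

theorem ES.sum {ι : Type*} (s : Finset ι) {f : ι → ℕ → ℝ≥0∞} (h : ∀ i ∈ s, ES (f i)) :
    ES (fun n => ∑ i ∈ s, f i n) := by
  classical
  induction s using Finset.induction_on with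
  | empty => simpa using ES.zero
  | insert a s ha ih =>
    have h1 : (fun n => ∑ i ∈ insert a s, f i n) = fun n => f a n + ∑ i ∈ s, f i n := by
      funext n
      rw [Finset.sum_insert ha]
    rw [h1]
    exact (h a (Finset.mem_insert_self _ _)).add
      (ih fun i hi => h i (Finset.mem_insert_of_mem hi))

theorem ES.poly {f : ℕ → ℝ≥0∞} (hf : ES f) (K : ℝ) (hK : 0 ≤ K) (k : ℕ) :
    ES (fun n => ENNReal.ofReal (K * ((n : ℝ) + 1) ^ k) * f n) := by
  obtain ⟨B, c, hB, hc, hc1, hbd⟩ := hf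
  set r := Real.sqrt c with hr
  have hr0 : 0 < r := Real.sqrt_pos.2 hc
  have hr1 : r < 1 := by
    rw [hr, Real.sqrt_lt' one_pos]
    simpa using hc1
  have hrr : r * r = c := Real.mul_self_sqrt hc.le
  have ht := tendsto_pow_const_mul_const_pow_of_abs_lt_one k
    (show |r| < 1 by rw [abs_of_pos hr0]; exact hr1)
  obtain ⟨D, hD⟩ := ht.bddAbove_range
  have hD' : ∀ n : ℕ, (n : ℝ) ^ k * r ^ n ≤ D := fun n => hD ⟨n, rfl⟩
  refine ⟨K * (|D| / r) * B + 1, r, by positivity, hr0, hr1, fun n => ?_⟩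
  refine (mul_le_mul_right (hbd n) _).trans ?_
  rw [← ENNReal.ofReal_mul (by positivity)]
  apply ENNReal.ofReal_le_ofReal
  have h1 := hD' (n + 1)
  push_cast at h1
  have h2 : ((n : ℝ) + 1) ^ k * r ^ n ≤ |D| / r := by
    rw [le_div_iff₀ hr0]
    calc ((n : ℝ) + 1) ^ k * r ^ n * r = ((n : ℝ) + 1) ^ k * r ^ (n + 1) := by rw [pow_succ]; ring
      _ ≤ D := h1
      _ ≤ |D| := le_abs_self D
  have h3 : c ^ n = r ^ n * r ^ n := by rw [← hrr, mul_pow]
  rw [h3]
  have h4 : 0 ≤ r ^ n := by positivity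
  calc K * ((n : ℝ) + 1) ^ k * (B * (r ^ n * r ^ n))
      = (K * B) * (((n : ℝ) + 1) ^ k * r ^ n) * r ^ n := by ring
    _ ≤ (K * B) * (|D| / r) * r ^ n := by gcongr
    _ ≤ (K * (|D| / r) * B + 1) * r ^ n := by nlinarith

theorem ES.comp_div {f : ℕ → ℝ≥0∞} (hf : ES f) {J : ℕ} (hJ : 0 < J) :
    ES (fun n => f (n / J)) := by
  obtain ⟨B, c, hB, hc, hc1, hbd⟩ := hf
  have hJR : (0 : ℝ) < J := by exact_mod_cast hJ
  set r : ℝ := c ^ ((1 : ℝ) / J) with hr
  have hr0 : 0 < r := Real.rpow_pos_of_pos hc _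
  have hr1 : r < 1 := Real.rpow_lt_one hc.le hc1 (by positivity)
  have hrJ : r ^ J = c := by
    rw [hr, ← Real.rpow_natCast, ← Real.rpow_mul hc.le]
    rw [one_div, inv_mul_cancel₀ hJR.ne', Real.rpow_one]
  refine ⟨B / c, r, by positivity, hr0, hr1, fun n => (hbd (n / J)).trans ?_⟩
  apply ENNReal.ofReal_le_ofReal
  have h3 : c * c ^ (n / J) ≤ r ^ n := by
    rw [← hrJ, ← pow_mul, ← pow_add]
    apply pow_le_pow_of_le_one hr0.le hr1.le
    have := Nat.lt_div_mul_add (a := n) hJ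
    have h4 : n / J * J = J * (n / J) := by ring
    omega
  have h4 : B / c * r ^ n ≥ B / c * (c * c ^ (n / J)) := by gcongr
  have h5 : B / c * (c * c ^ (n / J)) = B * c ^ (n / J) := by field_simp
  linarith

end es

section prob

variable {X : Type*} [PseudoMetricSpace X] {δ C R : ℝ} {o : X}
variable {G : Type*} [Group G] [MulAction G X] [IsIsometricSMul G X]
variable {S : Finset G} {μ : PMF G} {L : ℕ}

omit [MulAction G X] [IsIsometricSMul G X] [PseudoMetricSpace X] in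
theorem walk_sum_le_one (μ : PMF G) (n : ℕ) {φ : G → ℝ≥0∞} (hφ : ∀ w, φ w ≤ 1) :
    ∑' x, walk μ n x * φ x ≤ 1 := by
  calc ∑' x, walk μ n x * φ x ≤ ∑' x, walk μ n x * 1 := by
        refine ENNReal.tsum_le_tsum fun x => ?_
        gcongr
        exact hφ x
    _ = 1 := by
      simp only [mul_one]
      exact (walk μ n).tsum_coe

open Classical in
/-- The walk goes deep into a given shadow with exponentially small probability. -/
theorem shadow_decay (hX : Hyp X δ) (hδC : δ ≤ C) (hC : 0 < C) (hS : Sch S C o) (hL : 0 < L)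
    (hpos : ∀ a ∈ S, walk μ L a ≠ 0) (hR0 : 0 < R) (hR : ∀ g ∈ μ.support, dist o (g • o) ≤ R)
    {ε : ℝ} (hε : 0 < ε) : ∃ B c : ℝ, 0 < B ∧ 0 < c ∧ c < 1 ∧ ∀ (n : ℕ) (ζ : X),
      ∑' x, walk μ n x * (if ε * n < gp (x • o) ζ o then 1 else 0) ≤
        ENNReal.ofReal (B * c ^ n) := by
  have hδ : 0 ≤ δ := hX.nonneg o
  obtain ⟨B₁, c₁, hB₁, hc₁, hc₁', hdec⟩ := exp_decayB (o := o) hL hS.card hpos hR
  have hA : ∀ a ∈ S, dist o (a • o) ≤ R * L := fun a ha => walk_len hR L a (hpos a ha)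
  set θ : ℝ := min 1 (ε / (2 * R)) with hθ
  have hθ0 : 0 < θ := lt_min one_pos (by positivity)
  have hθ1 : θ ≤ 1 := min_le_left _ _
  have hθ2 : R * θ ≤ ε / 2 := by
    have h1 : θ ≤ ε / (2 * R) := min_le_right _ _
    calc R * θ ≤ R * (ε / (2 * R)) := by gcongr
      _ = ε / 2 := by field_simp
  obtain ⟨n₀, hn₀⟩ := exists_nat_gt (10 * C / ε)
  rw [div_lt_iff₀ hε] at hn₀
  set r : ℝ := c₁ ^ θ with hr
  have hr0 : 0 < r := Real.rpow_pos_of_pos hc₁ _
  have hr1 : r < 1 := Real.rpow_lt_one hc₁.le hc₁' hθ0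
  refine ⟨41 * B₁ / c₁ + 1 / r ^ n₀, r, by positivity, hr0, hr1, fun n ζ => ?_⟩
  set φ : G → ℝ≥0∞ := fun x => if ε * n < gp (x • o) ζ o then 1 else 0 with hφ
  have hφ1 : ∀ w, φ w ≤ 1 := by
    intro w
    simp only [hφ]
    split_ifs <;> simp
  change ∑' x, walk μ n x * φ x ≤ _
  by_cases hn : n₀ ≤ n
  · set n₁ : ℕ := ⌊θ * n⌋₊ with hn₁
    have hn1 : (n₁ : ℝ) ≤ θ * n := Nat.floor_le (by positivity)
    have hn1' : θ * n < n₁ + 1 := Nat.lt_floor_add_one _
    have hnn : n₁ ≤ n := by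
      have h1 : (n₁ : ℝ) ≤ n := by
        have : (0 : ℝ) ≤ n := Nat.cast_nonneg n
        nlinarith
      exact_mod_cast h1
    obtain ⟨n₂, hn₂⟩ := Nat.exists_eq_add_of_le hnn
    have hnR : (n₀ : ℝ) ≤ n := by exact_mod_cast hn
    have hbudget : R * n₁ + 5 * C ≤ ε * n := by
      have h1 : R * n₁ ≤ ε / 2 * n := by
        calc R * n₁ ≤ R * (θ * n) := by gcongr
          _ = R * θ * n := by ring
          _ ≤ ε / 2 * n := by gcongr
      have h2 : ε * n₀ ≤ ε * n := by gcongr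
      linarith
    have hbd : ∀ V : G, ∑' x, walk μ n₁ x * φ (x * V) ≤
        41 * ENNReal.ofReal (B₁ * c₁ ^ n₁) := by
      intro V
      apply hdec n₁ 41 (fun x => φ (x * V))
      apply leaf_shadow hX hδ hδC hC hS (by positivity) hA hφ1 (ζ := ζ)
      intro w hw
      simp only [hφ] at hw
      have : ε * n < gp (w • o) ζ o := by
        by_contra hcon
        rw [if_neg hcon] at hw
        exact hw rfl
      linarith
    have h1 : ∑' x, walk μ n x * φ x = Ex (walk μ (n₁ + n₂)) φ 1 := by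
      unfold Ex
      rw [hn₂]
      simp
    rw [h1, Ex_walk_add]
    have h2 : Ex (walk μ n₁) (Ex (walk μ n₂) φ) 1 =
        ∑' V, walk μ n₂ V * ∑' x, walk μ n₁ x * φ (x * V) := by
      unfold Ex
      simp only [one_mul]
      simp_rw [← ENNReal.tsum_mul_left]
      rw [ENNReal.tsum_comm]
      refine tsum_congr fun V => tsum_congr fun x => ?_
      ring
    rw [h2]
    calc ∑' V, walk μ n₂ V * ∑' x, walk μ n₁ x * φ (x * V)
        ≤ ∑' V, walk μ n₂ V * (41 * ENNReal.ofReal (B₁ * c₁ ^ n₁)) := by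
          refine ENNReal.tsum_le_tsum fun V => ?_
          gcongr
          exact hbd V
      _ = 41 * ENNReal.ofReal (B₁ * c₁ ^ n₁) := by
          rw [ENNReal.tsum_mul_right, (walk μ n₂).tsum_coe, one_mul]
      _ = ENNReal.ofReal (41 * (B₁ * c₁ ^ n₁)) := by
          rw [ENNReal.ofReal_mul (p := 41) (by norm_num)]
          norm_num
      _ ≤ ENNReal.ofReal ((41 * B₁ / c₁ + 1 / r ^ n₀) * r ^ n) := by
          apply ENNReal.ofReal_le_ofReal
          have h3 : c₁ ^ n₁ ≤ r ^ n / c₁ := by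
            rw [le_div_iff₀ hc₁]
            have e1 : c₁ ^ n₁ * c₁ = c₁ ^ ((n₁ : ℝ) + 1) := by
              rw [Real.rpow_add hc₁, Real.rpow_natCast, Real.rpow_one]
            have e2 : r ^ n = c₁ ^ (θ * n) := by
              rw [hr, ← Real.rpow_natCast, ← Real.rpow_mul hc₁.le]
            rw [e1, e2]
            exact Real.rpow_le_rpow_of_exponent_ge hc₁ hc₁'.le hn1'.le
          have h4 : 0 ≤ 1 / r ^ n₀ * r ^ n := by positivity
          calc 41 * (B₁ * c₁ ^ n₁) ≤ 41 * (B₁ * (r ^ n / c₁)) := by gcongr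
            _ = 41 * B₁ / c₁ * r ^ n := by ring
            _ ≤ _ := by linarith
  · push Not at hn
    refine (walk_sum_le_one μ n hφ1).trans ?_
    rw [← ENNReal.ofReal_one]
    apply ENNReal.ofReal_le_ofReal
    have h1 : r ^ n₀ ≤ r ^ n := pow_le_pow_of_le_one hr0.le hr1.le hn.le
    have h2 : 1 ≤ 1 / r ^ n₀ * r ^ n := by
      rw [one_div, inv_mul_eq_div, le_div_iff₀ (by positivity)]
      linarith
    have h3 : 0 ≤ 41 * B₁ / c₁ * r ^ n := by positivity
    linarith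

omit [IsIsometricSMul G X] in
theorem MidGood.mono {r r' : ℝ} (h : r' ≤ r) {w : G} (hw : MidGood S C o r w) :
    MidGood S C o r' w := by
  obtain ⟨a, ha, c, t, h1, h2, h3, h4, h5⟩ := hw
  exact ⟨a, ha, c, t, h1, h2, h3, h.trans h4, h.trans h5⟩

theorem MidGood.len (hX : Hyp X δ) (hδC : δ ≤ C) (hC : 0 < C) (hS : Sch S C o) {r : ℝ} {w : G}
    (hw : MidGood S C o r w) : r ≤ dist o (w • o) := by
  obtain ⟨a, ha, c, t, rfl, h2, h3, h4, h5⟩ := hw
  have hal := hS.len a ha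
  have e1 : gp (c⁻¹ • o) ((a * t) • o) o ≤ 3 * C + δ := jn_mul_right hX h2 h3 (by linarith)
  have e2 := jn_len (o := o) c (a * t)
  have e3 := jn_len (o := o) a t
  have e4 : 0 ≤ dist o (t • o) := dist_nonneg
  linarith

open Classical in
/-- With exponentially small probability exceptions, there is a letter in the middle. -/
theorem mid_decay (hX : Hyp X δ) (hδC : δ ≤ C) (hC : 0 < C) (hS : Sch S C o) (hL : 0 < L)
    (hpos : ∀ a ∈ S, walk μ L a ≠ 0) (hR : ∀ g ∈ μ.support, dist o (g • o) ≤ R) :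
    ∃ η : ℝ, 0 < η ∧ ∃ B c : ℝ, 0 < B ∧ 0 < c ∧ c < 1 ∧ ∀ n : ℕ,
      ∑' x, walk μ n x * (if MidGood S C o (η * n) x then 0 else 1) ≤
        ENNReal.ofReal (B * c ^ n) := by
  have hδ : 0 ≤ δ := hX.nonneg o
  obtain ⟨B₁, c₁, hB₁, hc₁, hc₁', hdec⟩ := exp_decayB (o := o) hL hS.card hpos hR
  have hA : ∀ a ∈ S, dist o (a • o) ≤ R * L := fun a ha => walk_len hR L a (hpos a ha)
  have hlog : Real.log c₁ < 0 := Real.log_neg hc₁ hc₁'
  have hlog4 : 0 < Real.log 4 := Real.log_pos (by norm_num)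
  set η' : ℝ := - Real.log c₁ / (2 * Real.log 4) with hη'
  have hη0 : 0 < η' := div_pos (by linarith) (by positivity)
  have h4 : (4 : ℝ) ^ η' = c₁ ^ (-(1 / 2 : ℝ)) := by
    rw [Real.rpow_def_of_pos (by norm_num : (0 : ℝ) < 4), Real.rpow_def_of_pos hc₁]
    congr 1
    rw [hη']
    field_simp
  set r : ℝ := (4 : ℝ) ^ η' * c₁ with hr
  have hr0 : 0 < r := by positivity
  have hr1 : r < 1 := by
    rw [hr, h4]
    have e1 : c₁ ^ (-(1 / 2 : ℝ)) * c₁ = c₁ ^ ((1 : ℝ) / 2) := by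
      nth_rewrite 2 [← Real.rpow_one c₁]
      rw [← Real.rpow_add hc₁]
      norm_num
    rw [e1]
    exact Real.rpow_lt_one hc₁.le hc₁' (by norm_num)
  obtain ⟨n₀, hn₀⟩ := exists_nat_gt (2 / η')
  rw [div_lt_iff₀ hη0] at hn₀
  refine ⟨50 * C * η', by positivity, B₁ + 1 / r ^ n₀, r, by positivity, hr0, hr1, fun n => ?_⟩
  set φ : G → ℝ≥0∞ := fun x => if MidGood S C o (50 * C * η' * n) x then 0 else 1 with hφ
  have hφ1 : ∀ w, φ w ≤ 1 := by
    intro w
    simp only [hφ]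
    split_ifs <;> simp
  change ∑' x, walk μ n x * φ x ≤ _
  by_cases hn : n₀ ≤ n
  · have hnR : (n₀ : ℝ) ≤ n := by exact_mod_cast hn
    set p : ℕ := ⌊η' * n⌋₊ with hp
    have hp1 : (p : ℝ) ≤ η' * n := Nat.floor_le (by positivity)
    have hp2 : η' * n < p + 1 := Nat.lt_floor_add_one _
    have hp3 : 50 * C * η' * n ≤ 100 * C * p := by
      have h1 : n₀ * η' ≤ n * η' := by gcongr
      have h2 : η' * n ≤ 2 * p := by linarith
      have h3 : C * (η' * n) ≤ C * (2 * p) := by gcongr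
      linarith
    have h1 : BdB S o (R * L) (R * n) (2 ^ (2 * p)) φ := by
      apply leaf_midB hX hδ hδC hC hS hA hφ1
      intro w hw
      simp only [hφ]
      rw [if_pos (hw.mono hp3)]
    refine (hdec n _ φ h1).trans ?_
    have h2 : (2 : ℝ≥0∞) ^ (2 * p) = ENNReal.ofReal (4 ^ p) := by
      rw [pow_mul, ENNReal.ofReal_pow (by norm_num)]
      norm_num
    rw [h2, ← ENNReal.ofReal_mul (by positivity)]
    apply ENNReal.ofReal_le_ofReal
    have h3 : (4 : ℝ) ^ p ≤ ((4 : ℝ) ^ η') ^ n := by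
      rw [← Real.rpow_natCast, ← Real.rpow_natCast, ← Real.rpow_mul (by norm_num)]
      exact Real.rpow_le_rpow_of_exponent_le (by norm_num) hp1
    have h5 : 0 ≤ 1 / r ^ n₀ * r ^ n := by positivity
    calc 4 ^ p * (B₁ * c₁ ^ n) ≤ ((4 : ℝ) ^ η') ^ n * (B₁ * c₁ ^ n) := by gcongr
      _ = B₁ * r ^ n := by rw [hr, mul_pow]; ring
      _ ≤ _ := by linarith
  · push Not at hn
    refine (walk_sum_le_one μ n hφ1).trans ?_
    rw [← ENNReal.ofReal_one]
    apply ENNReal.ofReal_le_ofReal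
    have h1 : r ^ n₀ ≤ r ^ n := pow_le_pow_of_le_one hr0.le hr1.le hn.le
    have h2 : 1 ≤ 1 / r ^ n₀ * r ^ n := by
      rw [one_div, inv_mul_eq_div, le_div_iff₀ (by positivity)]
      linarith
    have h3 : 0 ≤ B₁ * r ^ n := by positivity
    linarith

end prob

end Pool.Agent.H88.WPD
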