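import Pool.Agent.H88.WPD.Schottky2
import Pool.Agent.H88.WPD.Prob
import Pool.Agent.H88.WPD.Final

/-!
Admissible measures: Schottky sets with small coarse stabilisers, restriction of the walk to
the subgroup generated by the support.
-/

namespace Pool.Agent.H88.WPD

open scoped ENNReal

section rev

variable {G : Type*} [Group G]

/-- The semigroup generated by the support is a group. -/
def Reversible (μ : PMF G) : Prop :=
  ∀ x ∈ Subsemigroup.closure μ.support, x⁻¹ ∈ Subsemigroup.closure μ.support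

theorem mem_of_rev {μ : PMF G} (h : Reversible μ) {x : G}
    (hx : x ∈ Subgroup.closure μ.support) : x ∈ Subsemigroup.closure μ.support := by
  induction hx using Subgroup.closure_induction with
  | mem x hx => exact Subsemigroup.subset_closure hx
  | one =>
    obtain ⟨y, hy⟩ := μ.support_nonempty
    have h1 : y ∈ Subsemigroup.closure μ.support := Subsemigroup.subset_closure hy
    have h2 := Subsemigroup.mul_mem _ h1 (h y h1)
    rwa [mul_inv_cancel] at h2
  | mul x y _ _ hx hy => exact Subsemigroup.mul_mem _ hx hy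
  | inv x _ hx => exact h x hx

theorem mem_closure_group {μ : PMF G} {x : G} (hx : x ∈ Subsemigroup.closure μ.support) :
    x ∈ Subgroup.closure μ.support := by
  induction hx using Subsemigroup.closure_induction with
  | mem x hx => exact Subgroup.subset_closure hx
  | mul x y _ _ hx hy => exact Subgroup.mul_mem _ hx hy

end rev

section sub

variable {G : Type*} [Group G]

/-- The restriction of μ to a subgroup containing its support. -/
noncomputable def subPMF (μ : PMF G) (Γ : Subgroup G) (h : ∀ g ∈ μ.support, g ∈ Γ) : PMF Γ :=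
  ⟨fun x => μ x.1, by
    have h1 : ∑' x : (Γ : Set G), μ x.1 = ∑' x, μ x :=
      tsum_subtype_eq_of_support_subset (fun x hx => h x ((PMF.mem_support_iff μ x).2 hx))
    have h2 : ∑' x : Γ, μ x.1 = 1 := by
      rw [← μ.tsum_coe]
      exact h1
    rw [← h2]
    exact ENNReal.summable.hasSum⟩

theorem subPMF_apply (μ : PMF G) (Γ : Subgroup G) (h : ∀ g ∈ μ.support, g ∈ Γ) (x : Γ) :
    subPMF μ Γ h x = μ x.1 := rfl

theorem walk_one (μ : PMF G) : walk μ 1 = μ := by
  simp only [walk, PMF.pure_bind, one_mul]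
  exact PMF.map_id μ

theorem walk_mem {μ : PMF G} {Γ : Subgroup G} (h : ∀ g ∈ μ.support, g ∈ Γ) :
    ∀ (n : ℕ) (x : G), walk μ n x ≠ 0 → x ∈ Γ := by
  intro n
  induction n with
  | zero =>
    intro x hx
    have h1 : x = 1 := by
      by_contra h2
      apply hx
      simp [walk, h2]
    rw [h1]
    exact Γ.one_mem
  | succ n ih =>
    intro x hx
    rw [walk_add_apply] at hx
    rw [Ne, ENNReal.tsum_eq_zero, not_forall] at hx
    obtain ⟨y, hy⟩ := hx
    have hy1 : walk μ n y ≠ 0 := left_ne_zero_of_mul hy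
    have hy2 : walk μ 1 (y⁻¹ * x) ≠ 0 := right_ne_zero_of_mul hy
    rw [walk_one] at hy2
    have h2 := Γ.mul_mem (ih y hy1) (h _ ((PMF.mem_support_iff μ _).2 hy2))
    rwa [mul_inv_cancel_left] at h2

theorem walk_sub (μ : PMF G) (Γ : Subgroup G) (h : ∀ g ∈ μ.support, g ∈ Γ) :
    ∀ (n : ℕ) (x : Γ), walk (subPMF μ Γ h) n x = walk μ n x.1 := by
  classical
  intro n
  induction n with
  | zero =>
    intro x
    change (PMF.pure 1 : PMF Γ) x = (PMF.pure 1 : PMF G) x.1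
    rw [PMF.pure_apply, PMF.pure_apply]
    by_cases hx : x = 1
    · rw [if_pos hx, if_pos (by rw [hx]; rfl)]
    · have hx' : ¬ (x : G) = 1 := fun h1 => hx (Subtype.ext h1)
      rw [if_neg hx, if_neg hx']
  | succ n ih =>
    intro x
    rw [walk_add_apply, walk_add_apply]
    simp_rw [ih, walk_one]
    have h1 : ∑' y : (Γ : Set G), walk μ n y.1 * μ ((y.1)⁻¹ * x.1) =
        ∑' y, walk μ n y * μ (y⁻¹ * x.1) := by
      apply tsum_subtype_eq_of_support_subset (f := fun y => walk μ n y * μ (y⁻¹ * x.1))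
      intro y hy
      exact walk_mem h n y (left_ne_zero_of_mul hy)
    exact h1

theorem walk_sub_tsum (μ : PMF G) (Γ : Subgroup G) (h : ∀ g ∈ μ.support, g ∈ Γ) (n : ℕ)
    (φ : G → ℝ≥0∞) :
    ∑' x : Γ, walk (subPMF μ Γ h) n x * φ x.1 = ∑' x, walk μ n x * φ x := by
  simp_rw [walk_sub]
  have h1 : ∑' y : (Γ : Set G), walk μ n y.1 * φ y.1 = ∑' y, walk μ n y * φ y := by
    apply tsum_subtype_eq_of_support_subset (f := fun y => walk μ n y * φ y)
    intro y hy
    exact walk_mem h n y (left_ne_zero_of_mul hy)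
  exact h1

end sub

section adm

variable {X : Type*} [PseudoMetricSpace X] {δ : ℝ}
variable {G : Type*} [Group G] [MulAction G X] [IsIsometricSMul G X]

instance subgroup_isometric (Γ : Subgroup G) : IsIsometricSMul Γ X :=
  ⟨fun g => isometry_smul X (g : G)⟩

theorem sch_sub {S : Finset G} {C : ℝ} {o : X} {Γ : Subgroup G} [DecidablePred (· ∈ Γ)]
    (hS : Sch S C o) (hSΓ : ∀ a ∈ S, a ∈ Γ) : Sch (S.subtype (· ∈ Γ)) C o := by
  constructor
  · rw [Finset.card_subtype, Finset.filter_true_of_mem hSΓ]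
    exact hS.card
  · intro y a ha a' ha' h1 h2
    exact Subtype.ext (hS.fwd y a (Finset.mem_subtype.1 ha) a' (Finset.mem_subtype.1 ha') h1 h2)
  · intro y a ha a' ha' h1 h2
    exact Subtype.ext (hS.bwd y a (Finset.mem_subtype.1 ha) a' (Finset.mem_subtype.1 ha') h1 h2)
  · intro a ha
    exact hS.len a (Finset.mem_subtype.1 ha)

/-- Schottky sets with coarse stabilisers fixing the limit set. -/
theorem schottkyE (hX : Hyp X δ) (μ : PMF G) (hμ : NonElementary X μ)
    (hw : ∃ h ∈ Subsemigroup.closure μ.support, WPD X h) (hrev : Reversible μ) (o : X) :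
    ∃ C₀ : ℝ, 0 < C₀ ∧ δ ≤ C₀ ∧ ∀ C : ℝ, C₀ ≤ C → ∀ K : ℝ, 0 ≤ K →
      ∃ (S : Finset G) (L : ℕ), 0 < L ∧ Sch S C o ∧ (∀ a ∈ S, walk μ L a ≠ 0) ∧
        (∀ a ∈ S, a ∈ Subgroup.closure μ.support) ∧
        (∀ a ∈ S, Stab G K o (a • o) ⊆ FixLim X (Subgroup.closure μ.support)) ∧
        ∀ a ∈ S, (Stab G K o (a • o)).Finite := by
  obtain ⟨C₁, hC₁, hδC₁, hSch⟩ := schottky_mu hX μ hμ hw o
  obtain ⟨S₀, L₀, hL₀, hS₀, hpos₀, _⟩ := hSch 0 le_rfl
  obtain ⟨f0, hf0, g0, hg0, hlf, hlg, hind⟩ := hμ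
  obtain ⟨h, hh, hwpd⟩ := hw
  have choose : ∀ u : ℕ → X, Asy u u → ∃ f ∈ Subsemigroup.closure μ.support,
      Lox X f ∧ ¬ Asy (fun n => f • u n) u := by
    intro u hu
    have h1 := hind u hu
    by_cases h2 : Asy (fun n => f0 • u n) u
    · exact ⟨g0, hg0, hlg, fun h3 => h1 ⟨h2, h3⟩⟩
    · exact ⟨f0, hf0, hlf, h2⟩
  obtain ⟨f, hf, hlf1, hf1⟩ := choose _ (lox_asy hX hwpd.1 o)
  obtain ⟨f', hf', hlf1', hf1'⟩ := choose _ (lox_asy hX hwpd.1.inv o)
  obtain ⟨l, hl, wl⟩ := closure_walk μ hf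
  obtain ⟨l', hl', wl'⟩ := closure_walk μ hf'
  obtain ⟨l3, hl3, wl3⟩ := closure_walk μ hh
  set Γ := Subgroup.closure μ.support with hΓ
  obtain ⟨C₀, hC₀, hδC₀, hmain⟩ := schottky2 (Γ := Γ) hX hl hl' hl3 wl wl' wl3 hlf1 hlf1' hwpd.1 o
    (mem_closure_group hf) (mem_closure_group hf') (mem_closure_group hh) hf1 hf1'
  refine ⟨C₀, hC₀, hδC₀, fun C hC K hK => ?_⟩
  obtain ⟨T, B, N, hB, hκ⟩ := hmain C hC
  have hS₀Γ : ∀ a ∈ S₀, a ∈ Γ := fun a ha =>
    walk_mem (fun g hg => Subgroup.subset_closure hg) L₀ a (hpos₀ a ha)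
  obtain ⟨κ, hκΓ, hκ1, hκ2, hκ3, hκ4⟩ := kill hX hδC₁ hC₁ hS₀ hS₀Γ (mem_closure_group hh) hwpd
    (K := K + 2 * B) (T := T) (by positivity) N
  obtain ⟨lκ, hlκ, wκ⟩ := closure_walk μ (mem_of_rev hrev hκΓ)
  obtain ⟨S, L, hL, hS, hpos, hform⟩ := hκ κ lκ hκΓ hlκ wκ hκ3 hκ4
  refine ⟨S, L, hL, hS, hpos, ?_, ?_, ?_⟩
  · intro a ha
    exact walk_mem (fun g hg => Subgroup.subset_closure hg) L a (hpos a ha)
  · intro a ha
    obtain ⟨α, hα, α', _, rfl, h1, h2⟩ := hform a ha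
    exact stab_core hα h1 h2 hκ1
  · intro a ha
    obtain ⟨α, hα, α', _, rfl, h1, h2⟩ := hform a ha
    exact stab_core_fin h1 h2 hκ2

end adm

end Pool.Agent.H88.WPD
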