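import Mathlib

/-!
Gromov products, four point hyperbolicity, rooted chains and chain shadows.
-/

namespace Pool.Agent.H88.WPD

open Relation

/-- The Gromov product of x and y seen from z. -/
noncomputable def gp {X : Type*} [PseudoMetricSpace X] (x y z : X) : ℝ :=
  (dist x z + dist y z - dist x y) / 2

/-- Gromov's four point condition. -/
def Hyp (X : Type*) [PseudoMetricSpace X] (δ : ℝ) : Prop :=
  ∀ x y z w : X, min (gp x y w) (gp y z w) - δ ≤ gp x z w

section geom

variable {X : Type*} [PseudoMetricSpace X] {δ : ℝ}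

theorem gp_comm (x y z : X) : gp x y z = gp y x z := by
  unfold gp
  rw [dist_comm x y]
  ring

theorem gp_nonneg (x y z : X) : 0 ≤ gp x y z := by
  unfold gp
  have := dist_triangle x z y
  rw [dist_comm z y] at this
  linarith

theorem gp_le_left (x y z : X) : gp x y z ≤ dist x z := by
  unfold gp
  have := dist_triangle y x z
  rw [dist_comm y x] at this
  linarith

theorem gp_le_right (x y z : X) : gp x y z ≤ dist y z := by
  rw [gp_comm]
  exact gp_le_left y x z

/-- (x|y)_z + (x|z)_y = d(y,z). -/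
theorem gp_add (x y z : X) : gp x y z + gp x z y = dist y z := by
  unfold gp
  rw [dist_comm z y]
  ring

theorem gp_self_left (x z : X) : gp x x z = dist x z := by
  unfold gp
  rw [dist_self]
  ring

theorem gp_self_base (x y : X) : gp x y x = 0 := by
  unfold gp
  rw [dist_self, dist_comm y x]
  ring

theorem gp_self_base' (x y : X) : gp x y y = 0 := by
  rw [gp_comm]
  exact gp_self_base y x

theorem gp_base_le (x y z z' : X) : gp x y z ≤ gp x y z' + dist z z' := by
  unfold gp
  have h1 := dist_triangle x z' z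
  have h2 := dist_triangle y z' z
  rw [dist_comm z' z] at h1 h2
  linarith

theorem gp_left_le (x x' y z : X) : gp x y z ≤ gp x' y z + dist x x' := by
  unfold gp
  have h1 := dist_triangle x x' z
  have h2 := dist_triangle x' x y
  rw [dist_comm x' x] at h2
  linarith

theorem gp_right_le (x y y' z : X) : gp x y z ≤ gp x y' z + dist y y' := by
  rw [gp_comm x y, gp_comm x y']
  exact gp_left_le y y' x z

theorem gp_smul {G : Type*} [Group G] [MulAction G X] [IsIsometricSMul G X] (g : G) (x y z : X) :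
    gp (g • x) (g • y) (g • z) = gp x y z := by
  unfold gp
  simp [dist_smul]

/-- d(x,z) in terms of the product based at a point between. -/
theorem dist_eq_gp (x y z : X) : dist x y = dist x z + dist y z - 2 * gp x y z := by
  unfold gp
  ring

/-- The four point inequality used as an upper bound. -/
theorem Hyp.le (h : Hyp X δ) {x y z w : X} {c : ℝ} (h1 : gp x z w ≤ c) (h2 : c + δ < gp y z w) :
    gp x y w ≤ c + δ := by
  have := h x y z w
  rcases min_le_iff.1 (le_refl (min (gp x y w) (gp y z w))) with h3 | h3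
  · by_contra h4
    push Not at h4
    have : c < min (gp x y w) (gp y z w) - δ := by
      rw [lt_sub_iff_add_lt]
      exact lt_min h4 h2
    linarith
  · by_contra h4
    push Not at h4
    have : c < min (gp x y w) (gp y z w) - δ := by
      rw [lt_sub_iff_add_lt]
      exact lt_min h4 h2
    linarith

/-- The four point inequality for sums of distances. -/
theorem Hyp.four (h : Hyp X δ) (x y z w : X) :
    dist x y + dist z w ≤ max (dist x z + dist y w) (dist x w + dist y z) + 2 * δ := by
  have h1 := h x z y w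
  unfold gp at h1
  rw [dist_comm z y] at h1
  rcases min_choice ((dist x w + dist z w - dist x z) / 2) ((dist z w + dist y w - dist y z) / 2)
    with h2 | h2
  · rw [h2] at h1
    have := le_max_left (dist x z + dist y w) (dist x w + dist y z)
    linarith
  · rw [h2] at h1
    have := le_max_right (dist x z + dist y w) (dist x w + dist y z)
    linarith

theorem Hyp.nonneg (h : Hyp X δ) (x : X) : 0 ≤ δ := by
  have := h x x x x
  simp [gp] at this
  exact this

/-- One step of a rooted chain. -/
def RStep (o : X) (c D : ℝ) (y z : X) : Prop := gp o z y ≤ c ∧ D ≤ dist y z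

theorem chain_head (h : Hyp X δ) {o : X} {c D : ℝ} (hD : 2 * c + 4 * δ < D) (hδ : 0 ≤ δ)
    {y' z : X} (hc : ReflTransGen (RStep o c D) y' z) :
    ∀ p y : X, RStep o c D y y' → gp p y' y ≤ c + δ → gp p z y ≤ c + 2 * δ := by
  induction hc using ReflTransGen.head_induction_on with
  | refl =>
    intro p y _ h2
    linarith
  | head hs hbc ih =>
    rename_i a b
    intro p y h1 h2
    have hc0 : 0 ≤ c := le_trans (gp_nonneg _ _ _) h1.1
    have e1 : gp o y a + gp o a y = dist y a := gp_add o y a
    have e2 : gp y b a ≤ c + δ := by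
      rw [gp_comm]
      apply h.le (z := o) (y := y) (x := b)
      · rw [gp_comm]; exact hs.1
      · rw [gp_comm]
        have := h1.1
        have := h1.2
        linarith
    have e3 := ih y a hs e2
    have e4 : gp z a y + gp z y a = dist a y := gp_add z a y
    have e5 : dist a y = dist y a := dist_comm _ _
    have e6 : gp z y a = gp y z a := gp_comm _ _ _
    have e7 : gp p z y ≤ (c + δ) + δ := by
      apply h.le h2
      have := h1.2
      linarith
    linarith

end geom

section shadow

variable {X : Type*} [PseudoMetricSpace X] {δ C : ℝ} {o : X}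

/-- Chain shadow of p seen from o. -/
def CS (o : X) (C : ℝ) (p z : X) : Prop :=
  ∃ x₁, gp o x₁ p ≤ C ∧ 20 * C ≤ dist o x₁ ∧ ReflTransGen (RStep o (4 * C) (20 * C)) x₁ z

theorem cs_base (hC : 0 < C) {p z : X} (h1 : gp o z p ≤ C) (h2 : 100 * C ≤ dist o p) :
    CS o C p z := by
  refine ⟨z, h1, ?_, ReflTransGen.refl⟩
  have h3 := dist_eq_gp o z p
  have h4 : 0 ≤ dist z p := dist_nonneg
  linarith

theorem cs_ext {p y z : X} (h : CS o C p y) (h1 : gp o z y ≤ 4 * C) (h2 : 20 * C ≤ dist y z) :
    CS o C p z := by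
  obtain ⟨x, hx1, hx2, hx3⟩ := h
  exact ⟨x, hx1, hx2, hx3.tail ⟨h1, h2⟩⟩

theorem cs_gp (h : Hyp X δ) (hδ : 0 ≤ δ) (hδC : δ ≤ C) (hC : 0 < C) {p z : X}
    (hz : CS o C p z) : gp o z p ≤ 15 * C := by
  obtain ⟨x, hx1, hx2, hx3⟩ := hz
  have key : gp o z x ≤ 4 * C + 2 * δ := by
    rcases ReflTransGen.cases_head hx3 with h1 | ⟨x2, h1, h2⟩
    · subst h1
      rw [gp_self_base']
      linarith
    · exact chain_head h (by linarith) hδ h2 o x h1 (by have := h1.1; linarith)
  by_cases h1 : C + δ < gp x z p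
  · have := h.le (x := o) (y := z) (z := x) (w := p) hx1 (by rw [gp_comm]; exact h1)
    linarith
  · push Not at h1
    have e1 : gp z x p + gp z p x = dist x p := gp_add z x p
    have e2 : gp z x p = gp x z p := gp_comm _ _ _
    have e3 : gp o z p ≤ gp o z x + dist p x := gp_base_le _ _ _ _
    have e4 : dist p x = dist x p := dist_comm _ _
    have e5 : gp o x p + gp o p x = dist x p := gp_add o x p
    by_cases h2 : 4 * C + 2 * δ + δ < gp o p x
    · have e6 : gp z p x ≤ 4 * C + 2 * δ + δ := by
        apply h.le (x := z) (y := p) (z := o) (w := x)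
        · rw [gp_comm]; exact key
        · rw [gp_comm]; exact h2
      linarith
    · push Not at h2
      linarith

theorem cs_dist (h : Hyp X δ) (hδ : 0 ≤ δ) (hδC : δ ≤ C) (hC : 0 < C) {p z : X}
    (hz : CS o C p z) (hp : 100 * C ≤ dist o p) : 70 * C ≤ dist o z := by
  have h1 := cs_gp h hδ hδC hC hz
  have h2 := dist_eq_gp o z p
  have h3 : 0 ≤ dist z p := dist_nonneg
  linarith

theorem cs_back (h : Hyp X δ) (hδ : 0 ≤ δ) (hδC : δ ≤ C) (hC : 0 < C) {p z q : X}
    (hz : CS o C p z) (hp : 100 * C ≤ dist o p) (hq : gp q p o ≤ C) : gp q z o ≤ 2 * C := by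
  have h1 := cs_gp h hδ hδC hC hz
  have h2 : gp z p o + gp z o p = dist p o := gp_add z p o
  have h3 : gp z o p = gp o z p := gp_comm _ _ _
  have h4 : dist p o = dist o p := dist_comm _ _
  have h5 := h.le (x := q) (y := z) (z := p) (w := o) hq (by linarith)
  linarith

end shadow

section act

variable {X : Type*} [PseudoMetricSpace X] {δ C : ℝ} {o : X}
variable {G : Type*} [Group G] [MulAction G X] [IsIsometricSMul G X]

theorem gp_inv_smul (g : G) (x y z : X) : gp x (g • y) (g • z) = gp (g⁻¹ • x) y z := by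
  have := gp_smul (X := X) g (g⁻¹ • x) y z
  rw [smul_inv_smul] at this
  exact this

theorem cs_pop (h : Hyp X δ) (hδC : δ ≤ C) (hC : 0 < C) {p ζ : X} {ρ a : G}
    (h1 : CS o C p (ρ • o)) (h2 : gp (ρ⁻¹ • o) (a • o) o ≤ 3 * C)
    (h3 : gp (a⁻¹ • o) ζ o ≤ 2 * C) (h4 : 100 * C ≤ dist o (a • o)) :
    CS o C p (ρ • a • ζ) := by
  have e1 : gp (a • ζ) (a • o) o + gp (a • ζ) o (a • o) = dist (a • o) o :=
    gp_add (a • ζ) (a • o) o
  have e2 : gp (a • ζ) o (a • o) = gp (a⁻¹ • o) ζ o := by
    rw [gp_comm, gp_inv_smul]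
  have e3 : dist (a • o) o = dist o (a • o) := dist_comm _ _
  have e4 : 98 * C ≤ gp (a • ζ) (a • o) o := by linarith
  have e5 : gp (ρ⁻¹ • o) (a • ζ) o ≤ 3 * C + δ := by
    apply h.le (z := a • o) h2
    linarith
  apply cs_ext h1
  · have := gp_inv_smul ρ o (a • ζ) o
    rw [this]
    linarith
  · rw [dist_smul]
    have := gp_le_left (a • ζ) (a • o) o
    rw [dist_comm] at this
    linarith

theorem dist_inv_smul (g : G) : dist o (g⁻¹ • o) = dist o (g • o) := by
  rw [← dist_smul g o (g⁻¹ • o), smul_inv_smul, dist_comm]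

theorem jn_len (g k : G) : dist o ((g * k) • o) =
    dist o (g • o) + dist o (k • o) - 2 * gp (g⁻¹ • o) (k • o) o := by
  have h1 := dist_eq_gp (g⁻¹ • o) (k • o) o
  have h2 : dist (g⁻¹ • o) (k • o) = dist o ((g * k) • o) := by
    rw [← dist_smul g, smul_inv_smul, mul_smul]
  have h3 : dist (g⁻¹ • o) o = dist o (g • o) := by
    rw [dist_comm, dist_inv_smul]
  have h4 : dist (k • o) o = dist o (k • o) := dist_comm _ _
  linarith

theorem jn_mul_right (h : Hyp X δ) {c c' : ℝ} {g k l : G} (h1 : gp (g⁻¹ • o) (k • o) o ≤ c)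
    (h2 : gp (k⁻¹ • o) (l • o) o ≤ c') (h3 : c + c' + δ < dist o (k • o)) :
    gp (g⁻¹ • o) ((k * l) • o) o ≤ c + δ := by
  apply h.le (z := k • o) h1
  have e1 : gp ((k * l) • o) (k • o) o + gp ((k * l) • o) o (k • o) = dist (k • o) o :=
    gp_add _ _ _
  have e2 : gp ((k * l) • o) o (k • o) = gp (k⁻¹ • o) (l • o) o := by
    rw [gp_comm, mul_smul, gp_inv_smul]
  have e3 : dist (k • o) o = dist o (k • o) := dist_comm _ _
  linarith

theorem jn_mul_left (h : Hyp X δ) {c c' : ℝ} {f g k : G} (h1 : gp (g⁻¹ • o) (k • o) o ≤ c)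
    (h2 : gp (f⁻¹ • o) (g • o) o ≤ c') (h3 : c + c' + δ < dist o (g • o)) :
    gp ((f * g)⁻¹ • o) (k • o) o ≤ c + δ := by
  have e1 := jn_mul_right (o := o) (c := c) (c' := c') (g := k⁻¹) (k := g⁻¹) (l := f⁻¹) h
    (by rw [inv_inv, gp_comm]; exact h1) (by rw [inv_inv, gp_comm]; exact h2)
    (by rw [dist_inv_smul]; exact h3)
  rw [inv_inv, gp_comm, ← mul_inv_rev] at e1
  exact e1

end act

end Pool.Agent.H88.WPD
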