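import Pool.Agent.H88.WPD.Basic

/-!
Stacks of frames and the counting induction.
-/

namespace Pool.Agent.H88.WPD

open scoped ENNReal

/-- A frame: the free letters A, the shielding letter b, the rest e. -/
structure Frame (G : Type*) where
  A : Finset G
  b : G
  e : G

section comb

variable {X : Type*} [PseudoMetricSpace X]
variable {G : Type*} [Group G] [MulAction G X]

/-- The element between the top vertex and the current point. -/
def rho (c : G) : List (Frame G) → G
  | [] => c
  | F :: _ => F.b * F.e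

/-- Valid stacks (top frame first). -/
def Valid (S : Finset G) (C : ℝ) (o : X) (c : G) : List (Frame G) → Prop
  | [] => True
  | F :: σ => Valid S C o c σ ∧ F.A ⊆ S ∧ F.b ∈ S ∧ CS o C (F.b • o) ((F.b * F.e) • o) ∧
      ∀ a ∈ F.A, gp ((rho c σ)⁻¹ • o) (a • o) o ≤ C ∧ gp (a⁻¹ • o) (F.b • o) o ≤ C

/-- Sum over all choices of the free letters. -/
noncomputable def Sm : List (Frame G) → (G → ℝ≥0∞) → G → G → ℝ≥0∞
  | [], φ, c, t => φ (c * t)
  | F :: σ, φ, c, t => ∑ a ∈ F.A, Sm σ φ c (a * (F.b * (F.e * t)))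

/-- Sum over all choices of the remaining blocks. -/
noncomputable def ev (S : Finset G) (φ : G → ℝ≥0∞) : List G → G → ℝ≥0∞
  | [], g => φ g
  | u :: l, g => ∑ b ∈ S, ∑ a ∈ S, ev S φ l (g * (a * (b * u)))

theorem Sm_shift (σ : List (Frame G)) (ψ : G → ℝ≥0∞) (x : G) :
    ∀ c t, Sm σ (fun g => ψ (g * x)) c t = Sm σ ψ c (t * x) := by
  induction σ with
  | nil => intro c t; simp [Sm, mul_assoc]
  | cons F σ ih =>
    intro c t
    simp only [Sm]
    refine Finset.sum_congr rfl fun a _ => ?_
    rw [ih]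
    simp [mul_assoc]

theorem Sm_sum {ι : Type*} (s : Finset ι) (σ : List (Frame G)) (ψ : ι → G → ℝ≥0∞) :
    ∀ c t, Sm σ (fun g => ∑ i ∈ s, ψ i g) c t = ∑ i ∈ s, Sm σ (ψ i) c t := by
  induction σ with
  | nil => intro c t; simp [Sm]
  | cons F σ ih =>
    intro c t
    simp only [Sm]
    rw [Finset.sum_comm]
    refine Finset.sum_congr rfl fun a _ => ?_
    rw [ih]

theorem sum_le_bad {A : Finset G} {p : G → Prop} [DecidablePred p] {k : ℕ} {f : G → ℝ≥0∞}
    {x y : ℝ≥0∞} (h : (A.filter p).card ≤ k) (h1 : ∀ a ∈ A, ¬ p a → f a ≤ x)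
    (h2 : ∀ a ∈ A, p a → f a ≤ y) : ∑ a ∈ A, f a ≤ A.card * x + k * y := by
  rw [← Finset.sum_filter_add_sum_filter_not A p f, add_comm]
  apply add_le_add
  · calc ∑ a ∈ A.filter (fun a => ¬ p a), f a ≤ ∑ a ∈ A.filter (fun a => ¬ p a), x := by
          apply Finset.sum_le_sum
          intro a ha
          rw [Finset.mem_filter] at ha
          exact h1 a ha.1 ha.2
      _ = (A.filter (fun a => ¬ p a)).card * x := by simp
      _ ≤ A.card * x := by
          gcongr
          exact Finset.filter_subset _ _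
  · calc ∑ a ∈ A.filter p, f a ≤ ∑ a ∈ A.filter p, y := by
          apply Finset.sum_le_sum
          intro a ha
          rw [Finset.mem_filter] at ha
          exact h2 a ha.1 ha.2
      _ = (A.filter p).card * y := by simp
      _ ≤ k * y := by gcongr

/-- The Schottky property used. -/
structure Sch (S : Finset G) (C : ℝ) (o : X) : Prop where
  card : S.card = 40
  fwd : ∀ y : X, ∀ a ∈ S, ∀ a' ∈ S, C < gp y (a • o) o → C < gp y (a' • o) o → a = a'
  bwd : ∀ y : X, ∀ a ∈ S, ∀ a' ∈ S, C < gp y (a⁻¹ • o) o → C < gp y (a'⁻¹ • o) o → a = a'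
  len : ∀ a ∈ S, 100 * C ≤ dist o (a • o)

theorem card_filter_le_one {A : Finset G} {p : G → Prop} [DecidablePred p]
    (h : ∀ a ∈ A, ∀ a' ∈ A, p a → p a' → a = a') : (A.filter p).card ≤ 1 := by
  rw [Finset.card_le_one]
  intro a ha b hb
  rw [Finset.mem_filter] at ha hb
  exact h a ha.1 b hb.1 ha.2 hb.2

variable [IsIsometricSMul G X] {S : Finset G} {C δ : ℝ} {o : X}

theorem case_one {ψ : G → ℝ≥0∞} {M : ℝ≥0∞}
    (hB : ∀ c σ, Valid S C o c σ → Sm σ ψ c 1 ≤ M * 20 ^ σ.length)
    {c t : G} {F : Frame G} {σ : List (Frame G)} (hv : Valid S C o c (F :: σ))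
    (hcs : CS o C (F.b • o) ((F.b * (F.e * t)) • o)) :
    Sm (F :: σ) ψ c t ≤ M * 20 ^ (σ.length + 1) := by
  have h1 : Sm (F :: σ) ψ c t = Sm (⟨F.A, F.b, F.e * t⟩ :: σ) ψ c 1 := by
    simp [Sm]
  rw [h1]
  have h2 := hB c (⟨F.A, F.b, F.e * t⟩ :: σ) ⟨hv.1, hv.2.1, hv.2.2.1, hcs, hv.2.2.2.2⟩
  simpa using h2

theorem claimC (h : Hyp X δ) (hδC : δ ≤ C) (hC : 0 < C) (hS : Sch S C o)
    {ψ : G → ℝ≥0∞} {M : ℝ≥0∞}
    (hB : ∀ c σ, Valid S C o c σ → Sm σ ψ c 1 ≤ M * 20 ^ σ.length) :
    ∀ σ c, Valid S C o c σ → ∀ t, Sm σ ψ c t ≤ 3 * (M * 20 ^ σ.length) := by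
  classical
  intro σ
  induction σ with
  | nil =>
    intro c _ t
    have h1 := hB (c * t) [] trivial
    simp only [Sm, mul_one, List.length_nil, pow_zero] at h1 ⊢
    calc ψ (c * t) ≤ M := h1
      _ = 1 * M := (one_mul M).symm
      _ ≤ 3 * M := by gcongr; norm_num
  | cons F σ ih =>
    intro c hv t
    have hA : F.A.card ≤ 40 := by
      rw [← hS.card]
      exact Finset.card_le_card hv.2.1
    by_cases hcs : CS o C (F.b • o) ((F.b * (F.e * t)) • o)
    · have h1 := case_one hB hv hcs
      calc Sm (F :: σ) ψ c t ≤ M * 20 ^ (σ.length + 1) := h1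
        _ = 1 * (M * 20 ^ (σ.length + 1)) := (one_mul _).symm
        _ ≤ 3 * (M * 20 ^ (σ.length + 1)) := by gcongr; norm_num
    · have hgood : ∀ a ∈ F.A, ¬ (C < gp ((F.b * (F.e * t)) • o) (a⁻¹ • o) o) →
          Sm σ ψ c (a * (F.b * (F.e * t))) ≤ M * 20 ^ σ.length := by
        intro a ha hgp
        push Not at hgp
        cases σ with
        | nil =>
          have h1 := hB (c * (a * (F.b * (F.e * t)))) [] trivial
          simpa [Sm] using h1
        | cons F2 σ2 =>
          have hv2 := hv.1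
          have h1 : CS o C (F2.b • o) ((F2.b * (F2.e * (a * (F.b * (F.e * t))))) • o) := by
            have h2 := cs_pop (ρ := F2.b * F2.e) (a := a) (ζ := (F.b * (F.e * t)) • o) h hδC hC
              hv2.2.2.2.1 (by
                have := (hv.2.2.2.2 a ha).1
                simp only [rho] at this
                linarith) (by rw [gp_comm]; linarith) (hS.len a (hv.2.1 ha))
            simpa [mul_smul] using h2
          have h3 := case_one hB hv2 h1
          simpa using h3
      have h4 : ∑ a ∈ F.A, Sm σ ψ c (a * (F.b * (F.e * t))) ≤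
          F.A.card * (M * 20 ^ σ.length) + (1 : ℕ) * (3 * (M * 20 ^ σ.length)) := by
        apply sum_le_bad (p := fun a => C < gp ((F.b * (F.e * t)) • o) (a⁻¹ • o) o)
        · apply card_filter_le_one
          intro a ha a' ha' h5 h6
          exact hS.bwd _ a (hv.2.1 ha) a' (hv.2.1 ha') h5 h6
        · exact hgood
        · intro a _ _
          exact ih c hv.1 _
      calc Sm (F :: σ) ψ c t = ∑ a ∈ F.A, Sm σ ψ c (a * (F.b * (F.e * t))) := rfl
        _ ≤ F.A.card * (M * 20 ^ σ.length) + (1 : ℕ) * (3 * (M * 20 ^ σ.length)) := h4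
        _ ≤ (40 : ℕ) * (M * 20 ^ σ.length) + (1 : ℕ) * (3 * (M * 20 ^ σ.length)) := by gcongr
        _ = 43 * (M * 20 ^ σ.length) := by push_cast; ring
        _ ≤ 60 * (M * 20 ^ σ.length) := by gcongr; norm_num
        _ = 3 * (M * 20 ^ (F :: σ).length) := by
          rw [List.length_cons, pow_succ]; ring

theorem claimB (h : Hyp X δ) (hδC : δ ≤ C) (hC : 0 < C) (hS : Sch S C o)
    {φ : G → ℝ≥0∞} {K : ℝ≥0∞}
    (hL : ∀ c σ, Valid S C o c σ → Sm σ φ c 1 ≤ K * 20 ^ σ.length) :
    ∀ l c σ, Valid S C o c σ →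
      Sm σ (ev S φ l) c 1 ≤ (K * 1160 ^ l.length) * 20 ^ σ.length := by
  classical
  intro l
  induction l with
  | nil =>
    intro c σ hv
    have : ev S φ [] = φ := by funext g; rfl
    rw [this]
    simpa using hL c σ hv
  | cons u l ih =>
    intro c σ hv
    set ψ := ev S φ l with hψ
    set M := K * 1160 ^ l.length with hM
    have e1 : Sm σ (ev S φ (u :: l)) c 1 = ∑ b ∈ S, ∑ a ∈ S, Sm σ ψ c (a * (b * u)) := by
      have : ev S φ (u :: l) = fun g => ∑ b ∈ S, ∑ a ∈ S, ψ (g * (a * (b * u))) := by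
        funext g; rfl
      rw [this, Sm_sum]
      refine Finset.sum_congr rfl fun b _ => ?_
      rw [Sm_sum]
      refine Finset.sum_congr rfl fun a _ => ?_
      rw [Sm_shift, one_mul]
    have hCl := claimC h hδC hC hS ih σ c hv
    have hb : ∀ b ∈ S, ¬ (C < gp (u • o) (b⁻¹ • o) o) →
        ∑ a ∈ S, Sm σ ψ c (a * (b * u)) ≤ 26 * (M * 20 ^ σ.length) := by
      intro b hbS hgp
      push Not at hgp
      set P : G → Prop := fun a =>
        gp ((rho c σ)⁻¹ • o) (a • o) o ≤ C ∧ gp (a⁻¹ • o) (b • o) o ≤ C with hP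
      rw [← Finset.sum_filter_add_sum_filter_not S P]
      have h1 : ∑ a ∈ S.filter P, Sm σ ψ c (a * (b * u)) ≤ M * 20 ^ (σ.length + 1) := by
        have h2 := ih c (⟨S.filter P, b, u⟩ :: σ) ⟨hv, Finset.filter_subset _ _, hbS, by
          apply cs_base hC
          · simp only [mul_smul]
            rw [gp_inv_smul, gp_comm]
            exact hgp
          · exact hS.len b hbS, by
            intro a ha
            exact (Finset.mem_filter.1 ha).2⟩
        simpa [Sm] using h2
      have h3 : ∑ a ∈ S.filter (fun a => ¬ P a), Sm σ ψ c (a * (b * u)) ≤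
          (2 : ℕ) * (3 * (M * 20 ^ σ.length)) := by
        have hc2 : (S.filter (fun a => ¬ P a)).card ≤ 2 := by
          have hsub : S.filter (fun a => ¬ P a) ⊆
              S.filter (fun a => C < gp ((rho c σ)⁻¹ • o) (a • o) o) ∪
              S.filter (fun a => C < gp (b • o) (a⁻¹ • o) o) := by
            intro a ha
            rw [Finset.mem_filter] at ha
            rw [Finset.mem_union, Finset.mem_filter, Finset.mem_filter]
            by_cases h5 : C < gp ((rho c σ)⁻¹ • o) (a • o) o
            · exact Or.inl ⟨ha.1, h5⟩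
            · right
              refine ⟨ha.1, ?_⟩
              by_contra h6
              push Not at h5 h6
              exact ha.2 ⟨h5, by rw [gp_comm]; exact h6⟩
          calc _ ≤ _ := Finset.card_le_card hsub
            _ ≤ _ := Finset.card_union_le _ _
            _ ≤ 1 + 1 := by
              apply add_le_add
              · apply card_filter_le_one
                intro a ha a' ha' h5 h6
                exact hS.fwd _ a ha a' ha' h5 h6
              · apply card_filter_le_one
                intro a ha a' ha' h5 h6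
                exact hS.bwd _ a ha a' ha' h5 h6
        calc ∑ a ∈ S.filter (fun a => ¬ P a), Sm σ ψ c (a * (b * u))
            ≤ ∑ a ∈ S.filter (fun a => ¬ P a), 3 * (M * 20 ^ σ.length) := by
              apply Finset.sum_le_sum
              intro a _
              exact hCl _
          _ = (S.filter (fun a => ¬ P a)).card * (3 * (M * 20 ^ σ.length)) := by simp
          _ ≤ (2 : ℕ) * (3 * (M * 20 ^ σ.length)) := by gcongr
      calc _ ≤ M * 20 ^ (σ.length + 1) + (2 : ℕ) * (3 * (M * 20 ^ σ.length)) :=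
            add_le_add h1 h3
        _ = 26 * (M * 20 ^ σ.length) := by push_cast; ring
    have h7 : ∑ b ∈ S, ∑ a ∈ S, Sm σ ψ c (a * (b * u)) ≤
        S.card * (26 * (M * 20 ^ σ.length)) + (1 : ℕ) * (120 * (M * 20 ^ σ.length)) := by
      apply sum_le_bad (p := fun b => C < gp (u • o) (b⁻¹ • o) o)
      · apply card_filter_le_one
        intro a ha a' ha' h5 h6
        exact hS.bwd _ a ha a' ha' h5 h6
      · exact hb
      · intro b _ _
        calc ∑ a ∈ S, Sm σ ψ c (a * (b * u)) ≤ ∑ a ∈ S, 3 * (M * 20 ^ σ.length) := by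
              apply Finset.sum_le_sum
              intro a _
              exact hCl _
          _ = 120 * (M * 20 ^ σ.length) := by
              rw [Finset.sum_const, hS.card, nsmul_eq_mul]
              push_cast
              ring
    rw [e1]
    calc _ ≤ _ := h7
      _ = (K * 1160 ^ (u :: l).length) * 20 ^ σ.length := by
        rw [hS.card, hM, List.length_cons, pow_succ]
        push_cast
        ring

end comb

end Pool.Agent.H88.WPD
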