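import Pool.Agent.H88.WPD.Walk
import Pool.Agent.H88.WPD.Leaf

/-!
The counting induction with a length budget.
-/

namespace Pool.Agent.H88.WPD

open scoped ENNReal

section combB

variable {X : Type*} [PseudoMetricSpace X]
variable {G : Type*} [Group G] [MulAction G X]

/-- Total length of a stack. -/
noncomputable def TT (o : X) (A : ℝ) (c : G) : List (Frame G) → ℝ
  | [] => dist o (c • o)
  | F :: σ => TT o A c σ + (2 * A + dist o (F.e • o))

/-- Total length of the remaining blocks. -/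
noncomputable def LL (o : X) (A : ℝ) : List G → ℝ
  | [] => 0
  | u :: l => LL o A l + (2 * A + dist o (u • o))

variable [IsIsometricSMul G X] {S : Finset G} {C δ A : ℝ} {o : X}

theorem len_mul (o : X) (g k : G) : dist o ((g * k) • o) ≤ dist o (g • o) + dist o (k • o) := by
  have := dist_triangle o (g • o) ((g * k) • o)
  rw [mul_smul, dist_smul] at this
  rw [mul_smul]
  exact this

theorem len_four (hA : ∀ a ∈ S, dist o (a • o) ≤ A) {a b : G} (ha : a ∈ S) (hb : b ∈ S)
    (e t : G) : dist o ((a * (b * (e * t))) • o) ≤ 2 * A + dist o (e • o) + dist o (t • o) := by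
  have h1 := len_mul o a (b * (e * t))
  have h2 := len_mul o b (e * t)
  have h3 := len_mul o e t
  have h4 := hA a ha
  have h5 := hA b hb
  linarith

theorem case_oneB {ψ : G → ℝ≥0∞} {M : ℝ≥0∞} {Λ : ℝ}
    (hB : ∀ c σ, Valid S C o c σ → TT o A c σ ≤ Λ → Sm σ ψ c 1 ≤ M * 20 ^ σ.length)
    {c t : G} {F : Frame G} {σ : List (Frame G)} (hv : Valid S C o c (F :: σ))
    (hcs : CS o C (F.b • o) ((F.b * (F.e * t)) • o))
    (hT : TT o A c (F :: σ) + dist o (t • o) ≤ Λ) :
    Sm (F :: σ) ψ c t ≤ M * 20 ^ (σ.length + 1) := by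
  have h1 : Sm (F :: σ) ψ c t = Sm (⟨F.A, F.b, F.e * t⟩ :: σ) ψ c 1 := by
    simp [Sm]
  rw [h1]
  have h2 := hB c (⟨F.A, F.b, F.e * t⟩ :: σ) ⟨hv.1, hv.2.1, hv.2.2.1, hcs, hv.2.2.2.2⟩ (by
    simp only [TT] at hT ⊢
    have := len_mul o F.e t
    linarith)
  simpa using h2

theorem claimCB (h : Hyp X δ) (hδC : δ ≤ C) (hC : 0 < C) (hS : Sch S C o)
    (hA : ∀ a ∈ S, dist o (a • o) ≤ A) {ψ : G → ℝ≥0∞} {M : ℝ≥0∞} {Λ : ℝ}
    (hB : ∀ c σ, Valid S C o c σ → TT o A c σ ≤ Λ → Sm σ ψ c 1 ≤ M * 20 ^ σ.length) :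
    ∀ σ c, Valid S C o c σ → ∀ t, TT o A c σ + dist o (t • o) ≤ Λ →
      Sm σ ψ c t ≤ 3 * (M * 20 ^ σ.length) := by
  classical
  intro σ
  induction σ with
  | nil =>
    intro c _ t hT
    have h1 := hB (c * t) [] trivial (by
      simp only [TT] at hT ⊢
      have := len_mul o c t
      linarith)
    simp only [Sm, mul_one, List.length_nil, pow_zero] at h1 ⊢
    calc ψ (c * t) ≤ M := h1
      _ = 1 * M := (one_mul M).symm
      _ ≤ 3 * M := by gcongr; norm_num
  | cons F σ ih =>
    intro c hv t hT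
    have hAc : F.A.card ≤ 40 := by
      rw [← hS.card]
      exact Finset.card_le_card hv.2.1
    by_cases hcs : CS o C (F.b • o) ((F.b * (F.e * t)) • o)
    · have h1 := case_oneB hB hv hcs hT
      calc Sm (F :: σ) ψ c t ≤ M * 20 ^ (σ.length + 1) := h1
        _ = 1 * (M * 20 ^ (σ.length + 1)) := (one_mul _).symm
        _ ≤ 3 * (M * 20 ^ (σ.length + 1)) := by gcongr; norm_num
    · have hlen : ∀ a ∈ F.A, TT o A c σ + dist o ((a * (F.b * (F.e * t))) • o) ≤ Λ := by
        intro a ha
        have h1 := len_four hA (hv.2.1 ha) hv.2.2.1 F.e t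
        simp only [TT] at hT
        linarith
      have hgood : ∀ a ∈ F.A, ¬ (C < gp ((F.b * (F.e * t)) • o) (a⁻¹ • o) o) →
          Sm σ ψ c (a * (F.b * (F.e * t))) ≤ M * 20 ^ σ.length := by
        intro a ha hgp
        push Not at hgp
        cases σ with
        | nil =>
          have h1 := hB (c * (a * (F.b * (F.e * t)))) [] trivial (by
            have h2 := hlen a ha
            simp only [TT] at h2 ⊢
            have := len_mul o c (a * (F.b * (F.e * t)))
            linarith)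
          simpa [Sm] using h1
        | cons F2 σ2 =>
          have hv2 := hv.1
          have h1 : CS o C (F2.b • o) ((F2.b * (F2.e * (a * (F.b * (F.e * t))))) • o) := by
            have h2 := cs_pop (ρ := F2.b * F2.e) (a := a) (ζ := (F.b * (F.e * t)) • o) h hδC hC
              hv2.2.2.2.1 (by
                have := (hv.2.2.2.2 a ha).1
                simp only [rho] at this
                linarith) (by rw [gp_comm]; linarith) (hS.len a (hv.2.1 ha))
            simpa [mul_smul] using h2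
          have h3 := case_oneB hB hv2 h1 (hlen a ha)
          simpa using h3
      have h4 : ∑ a ∈ F.A, Sm σ ψ c (a * (F.b * (F.e * t))) ≤
          F.A.card * (M * 20 ^ σ.length) + (1 : ℕ) * (3 * (M * 20 ^ σ.length)) := by
        apply sum_le_bad (p := fun a => C < gp ((F.b * (F.e * t)) • o) (a⁻¹ • o) o)
        · apply card_filter_le_one
          intro a ha a' ha' h5 h6
          exact hS.bwd _ a (hv.2.1 ha) a' (hv.2.1 ha') h5 h6
        · exact hgood
        · intro a ha _
          exact ih c hv.1 _ (hlen a ha)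
      calc Sm (F :: σ) ψ c t = ∑ a ∈ F.A, Sm σ ψ c (a * (F.b * (F.e * t))) := rfl
        _ ≤ F.A.card * (M * 20 ^ σ.length) + (1 : ℕ) * (3 * (M * 20 ^ σ.length)) := h4
        _ ≤ (40 : ℕ) * (M * 20 ^ σ.length) + (1 : ℕ) * (3 * (M * 20 ^ σ.length)) := by gcongr
        _ = 43 * (M * 20 ^ σ.length) := by push_cast; ring
        _ ≤ 60 * (M * 20 ^ σ.length) := by gcongr; norm_num
        _ = 3 * (M * 20 ^ (F :: σ).length) := by
          rw [List.length_cons, pow_succ]; ring

theorem claimBB (h : Hyp X δ) (hδC : δ ≤ C) (hC : 0 < C) (hS : Sch S C o)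
    (hA : ∀ a ∈ S, dist o (a • o) ≤ A) {φ : G → ℝ≥0∞} {K : ℝ≥0∞} {Λ : ℝ}
    (hL : ∀ c σ, Valid S C o c σ → TT o A c σ ≤ Λ → Sm σ φ c 1 ≤ K * 20 ^ σ.length) :
    ∀ l c σ, Valid S C o c σ → TT o A c σ + LL o A l ≤ Λ →
      Sm σ (ev S φ l) c 1 ≤ (K * 1160 ^ l.length) * 20 ^ σ.length := by
  classical
  intro l
  induction l with
  | nil =>
    intro c σ hv hT
    have : ev S φ [] = φ := by funext g; rfl
    rw [this]
    simp only [LL, add_zero] at hT
    simpa using hL c σ hv hT
  | cons u l ih =>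
    intro c σ hv hT
    set ψ := ev S φ l with hψ
    set M := K * 1160 ^ l.length with hM
    simp only [LL] at hT
    have e1 : Sm σ (ev S φ (u :: l)) c 1 = ∑ b ∈ S, ∑ a ∈ S, Sm σ ψ c (a * (b * u)) := by
      have : ev S φ (u :: l) = fun g => ∑ b ∈ S, ∑ a ∈ S, ψ (g * (a * (b * u))) := by
        funext g; rfl
      rw [this, Sm_sum]
      refine Finset.sum_congr rfl fun b _ => ?_
      rw [Sm_sum]
      refine Finset.sum_congr rfl fun a _ => ?_
      rw [Sm_shift, one_mul]
    have hIH : ∀ c σ, Valid S C o c σ → TT o A c σ ≤ Λ - LL o A l →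
        Sm σ ψ c 1 ≤ M * 20 ^ σ.length := fun c σ hv hT => ih c σ hv (by linarith)
    have hlab : ∀ a ∈ S, ∀ b ∈ S, TT o A c σ + dist o ((a * (b * u)) • o) ≤ Λ - LL o A l := by
      intro a ha b hb
      have h1 := len_mul o a (b * u)
      have h2 := len_mul o b u
      have h4 := hA a ha
      have h5 := hA b hb
      linarith
    have hCl : ∀ a ∈ S, ∀ b ∈ S, Sm σ ψ c (a * (b * u)) ≤ 3 * (M * 20 ^ σ.length) :=
      fun a ha b hb => claimCB h hδC hC hS hA hIH σ c hv _ (hlab a ha b hb)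
    have hb : ∀ b ∈ S, ¬ (C < gp (u • o) (b⁻¹ • o) o) →
        ∑ a ∈ S, Sm σ ψ c (a * (b * u)) ≤ 26 * (M * 20 ^ σ.length) := by
      intro b hbS hgp
      push Not at hgp
      set P : G → Prop := fun a =>
        gp ((rho c σ)⁻¹ • o) (a • o) o ≤ C ∧ gp (a⁻¹ • o) (b • o) o ≤ C with hP
      rw [← Finset.sum_filter_add_sum_filter_not S P]
      have h1 : ∑ a ∈ S.filter P, Sm σ ψ c (a * (b * u)) ≤ M * 20 ^ (σ.length + 1) := by
        have h2 := hIH c (⟨S.filter P, b, u⟩ :: σ) ⟨hv, Finset.filter_subset _ _, hbS, by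
          apply cs_base hC
          · simp only [mul_smul]
            rw [gp_inv_smul, gp_comm]
            exact hgp
          · exact hS.len b hbS, by
            intro a ha
            exact (Finset.mem_filter.1 ha).2⟩ (by
              simp only [TT]
              linarith)
        simpa [Sm] using h2
      have h3 : ∑ a ∈ S.filter (fun a => ¬ P a), Sm σ ψ c (a * (b * u)) ≤
          (2 : ℕ) * (3 * (M * 20 ^ σ.length)) := by
        have hc2 : (S.filter (fun a => ¬ P a)).card ≤ 2 := by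
          have hsub : S.filter (fun a => ¬ P a) ⊆
              S.filter (fun a => C < gp ((rho c σ)⁻¹ • o) (a • o) o) ∪
              S.filter (fun a => C < gp (b • o) (a⁻¹ • o) o) := by
            intro a ha
            rw [Finset.mem_filter] at ha
            rw [Finset.mem_union, Finset.mem_filter, Finset.mem_filter]
            by_cases h5 : C < gp ((rho c σ)⁻¹ • o) (a • o) o
            · exact Or.inl ⟨ha.1, h5⟩
            · right
              refine ⟨ha.1, ?_⟩
              by_contra h6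
              push Not at h5 h6
              exact ha.2 ⟨h5, by rw [gp_comm]; exact h6⟩
          calc _ ≤ _ := Finset.card_le_card hsub
            _ ≤ _ := Finset.card_union_le _ _
            _ ≤ 1 + 1 := by
              apply add_le_add
              · apply card_filter_le_one
                intro a ha a' ha' h5 h6
                exact hS.fwd _ a ha a' ha' h5 h6
              · apply card_filter_le_one
                intro a ha a' ha' h5 h6
                exact hS.bwd _ a ha a' ha' h5 h6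
        calc ∑ a ∈ S.filter (fun a => ¬ P a), Sm σ ψ c (a * (b * u))
            ≤ ∑ a ∈ S.filter (fun a => ¬ P a), 3 * (M * 20 ^ σ.length) := by
              apply Finset.sum_le_sum
              intro a ha
              exact hCl a (Finset.mem_filter.1 ha).1 b hbS
          _ = (S.filter (fun a => ¬ P a)).card * (3 * (M * 20 ^ σ.length)) := by simp
          _ ≤ (2 : ℕ) * (3 * (M * 20 ^ σ.length)) := by gcongr
      calc _ ≤ M * 20 ^ (σ.length + 1) + (2 : ℕ) * (3 * (M * 20 ^ σ.length)) :=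
            add_le_add h1 h3
        _ = 26 * (M * 20 ^ σ.length) := by push_cast; ring
    have h7 : ∑ b ∈ S, ∑ a ∈ S, Sm σ ψ c (a * (b * u)) ≤
        S.card * (26 * (M * 20 ^ σ.length)) + (1 : ℕ) * (120 * (M * 20 ^ σ.length)) := by
      apply sum_le_bad (p := fun b => C < gp (u • o) (b⁻¹ • o) o)
      · apply card_filter_le_one
        intro a ha a' ha' h5 h6
        exact hS.bwd _ a ha a' ha' h5 h6
      · exact hb
      · intro b hbS _
        calc ∑ a ∈ S, Sm σ ψ c (a * (b * u)) ≤ ∑ a ∈ S, 3 * (M * 20 ^ σ.length) := by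
              apply Finset.sum_le_sum
              intro a ha
              exact hCl a ha b hbS
          _ = 120 * (M * 20 ^ σ.length) := by
              rw [Finset.sum_const, hS.card, nsmul_eq_mul]
              push_cast
              ring
    rw [e1]
    calc _ ≤ _ := h7
      _ = (K * 1160 ^ (u :: l).length) * 20 ^ σ.length := by
        rw [hS.card, hM, List.length_cons, pow_succ]
        push_cast
        ring

end combB

section walkB

variable {X : Type*} [PseudoMetricSpace X]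
variable {G : Type*} [Group G] [MulAction G X] [IsIsometricSMul G X]
variable {S : Finset G} {o : X} {A : ℝ}

/-- The sup functional with a length budget. -/
def BdB (S : Finset G) (o : X) (A : ℝ) (Λ : ℝ) (κ : ℝ≥0∞) (ψ : G → ℝ≥0∞) : Prop :=
  ∀ l g, dist o (g • o) + LL o A l ≤ Λ → ev S ψ l g ≤ κ * 1160 ^ l.length

theorem BdB.mono {Λ Λ' : ℝ} {κ : ℝ≥0∞} {ψ : G → ℝ≥0∞} (h : BdB S o A Λ κ ψ) (hΛ : Λ' ≤ Λ) :
    BdB S o A Λ' κ ψ := fun l g hT => h l g (hT.trans hΛ)

theorem ev_shiftB (ψ : G → ℝ≥0∞) (x : G) : ∀ (l : List G) (u : G), ∃ l' : List G,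
    l'.length = (u :: l).length ∧ LL o A l' ≤ LL o A (u :: l) + dist o (x • o) ∧
      ∀ g, ev S (fun g => ψ (g * x)) (u :: l) g = ev S ψ l' g := by
  intro l
  induction l with
  | nil =>
    intro u
    refine ⟨[u * x], by simp, ?_, ?_⟩
    · simp only [LL]
      have := len_mul o u x
      linarith
    · intro g
      simp [ev, mul_assoc]
  | cons v l ih =>
    intro u
    obtain ⟨l', h1, h2, h3⟩ := ih v
    refine ⟨u :: l', by simp [h1], ?_, ?_⟩
    · simp only [LL] at h2 ⊢
      linarith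
    · intro g
      have e1 : ev S (fun g => ψ (g * x)) (u :: v :: l) g = ∑ b ∈ S, ∑ a ∈ S,
        ev S (fun g => ψ (g * x)) (v :: l) (g * (a * (b * u))) := rfl
      rw [e1]
      simp_rw [h3]
      rfl

theorem BdB.shift {Λ : ℝ} {κ : ℝ≥0∞} {ψ : G → ℝ≥0∞} (h : BdB S o A Λ κ ψ) (x : G) {ρ : ℝ}
    (hx : dist o (x • o) ≤ ρ) : BdB S o A (Λ - ρ) κ (fun g => ψ (g * x)) := by
  intro l g hT
  cases l with
  | nil =>
    have := h [] (g * x) (by
      simp only [LL] at hT ⊢
      have := len_mul o g x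
      linarith)
    simpa [ev] using this
  | cons u l =>
    obtain ⟨l', h1, h2, h3⟩ := ev_shiftB (S := S) (o := o) (A := A) ψ x l u
    rw [h3, ← h1]
    exact h l' g (by linarith)

omit [IsIsometricSMul G X] in
theorem LL_append (l : List G) : LL o A (l ++ [1]) = LL o A l + 2 * A := by
  induction l with
  | nil => simp [LL]
  | cons u l ih =>
    simp only [List.cons_append, LL]
    rw [ih]
    ring

omit [IsIsometricSMul G X] in
theorem BdB.U {Λ : ℝ} {κ : ℝ≥0∞} {ψ : G → ℝ≥0∞} (h : BdB S o A Λ κ ψ) :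
    BdB S o A (Λ - 2 * A) (1160 * κ) (fun g => ∑ b ∈ S, ∑ a ∈ S, ψ (g * (a * b))) := by
  intro l g hT
  rw [ev_append]
  refine (h (l ++ [1]) g (by rw [LL_append]; linarith)).trans (le_of_eq ?_)
  rw [List.length_append, List.length_singleton, pow_succ]
  ring

omit [IsIsometricSMul G X] in
theorem BdB.tsum {ι : Type*} {w : ι → ℝ≥0∞} {ψ : ι → G → ℝ≥0∞} {Λ : ℝ} {κ : ℝ≥0∞}
    (h : ∀ i, w i ≠ 0 → BdB S o A Λ κ (ψ i)) :
    BdB S o A Λ ((∑' i, w i) * κ) (fun g => ∑' i, w i * ψ i g) := by
  intro l g hT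
  rw [ev_tsum, mul_assoc, ← ENNReal.tsum_mul_right]
  refine ENNReal.tsum_le_tsum fun i => ?_
  by_cases hi : w i = 0
  · simp [hi]
  · gcongr
    exact h i hi l g hT

omit [IsIsometricSMul G X] in
theorem BdB.add {Λ : ℝ} {κ κ' : ℝ≥0∞} {ψ ψ' : G → ℝ≥0∞} (h : BdB S o A Λ κ ψ)
    (h' : BdB S o A Λ κ' ψ') : BdB S o A Λ (κ + κ') (fun g => ψ g + ψ' g) := by
  intro l g hT
  rw [ev_add, add_mul]
  exact add_le_add (h l g hT) (h' l g hT)

omit [IsIsometricSMul G X] in
theorem BdB.mul {Λ : ℝ} {κ : ℝ≥0∞} {ψ : G → ℝ≥0∞} (w : ℝ≥0∞) (h : BdB S o A Λ κ ψ) :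
    BdB S o A Λ (w * κ) (fun g => w * ψ g) := by
  intro l g hT
  rw [ev_mul, mul_assoc]
  gcongr
  exact h l g hT

open Classical in
/-- One block of the walk. -/
theorem BdB.block {μ : PMF G} {L : ℕ} {β κ : ℝ≥0∞} {ψ : G → ℝ≥0∞} (hcard : S.card = 40)
    (hβ : ∀ x, β * ∑ b ∈ S, ∑ a ∈ S, (if a * b = x then 1 else 0) ≤ walk μ L x)
    (hβt : β ≠ ⊤) {Λ ρ : ℝ} (hρ : ∀ x, walk μ L x ≠ 0 → dist o (x • o) ≤ ρ)
    (hAρ : 2 * A ≤ ρ) (h : BdB S o A Λ κ ψ) :
    BdB S o A (Λ - ρ) ((1160 * β + (1 - 1600 * β)) * κ) (Ex (walk μ L) ψ) := by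
  classical
  set N : G → ℝ≥0∞ := fun x => ∑ b ∈ S, ∑ a ∈ S, (if a * b = x then 1 else 0) with hN
  set ν : G → ℝ≥0∞ := fun x => walk μ L x - β * N x with hν
  have e1 : ∀ x, walk μ L x = β * N x + ν x := by
    intro x
    rw [hν]
    exact (add_tsub_cancel_of_le (hβ x)).symm
  have hNsum : ∀ f : G → ℝ≥0∞, ∑' x, N x * f x = ∑ b ∈ S, ∑ a ∈ S, f (a * b) := by
    intro f
    simp only [hN]
    simp_rw [Finset.sum_mul]
    rw [Summable.tsum_finsetSum (fun _ _ => ENNReal.summable)]
    refine Finset.sum_congr rfl fun b _ => ?_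
    rw [Summable.tsum_finsetSum (fun _ _ => ENNReal.summable)]
    refine Finset.sum_congr rfl fun a _ => ?_
    rw [tsum_eq_single (a * b)]
    · simp
    · intro y hy
      rw [if_neg (fun h => hy h.symm), zero_mul]
  have hN1 : ∑' x, N x = 1600 := by
    have := hNsum (fun _ => 1)
    simp only [mul_one, Finset.sum_const, hcard] at this
    rw [this]
    norm_num
  have hνsum : ∑' x, ν x = 1 - 1600 * β := by
    have h1 : ∑' x, walk μ L x = 1 := (walk μ L).tsum_coe
    simp_rw [e1] at h1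
    rw [ENNReal.tsum_add, ENNReal.tsum_mul_left, hN1, mul_comm β] at h1
    rw [← h1]
    rw [ENNReal.add_sub_cancel_left (ENNReal.mul_ne_top (by norm_num) hβt)]
  have e2 : Ex (walk μ L) ψ = fun g =>
      β * (∑ b ∈ S, ∑ a ∈ S, ψ (g * (a * b))) + ∑' x, ν x * ψ (g * x) := by
    funext g
    unfold Ex
    simp_rw [e1, add_mul]
    rw [ENNReal.tsum_add]
    congr 1
    simp_rw [mul_assoc]
    rw [ENNReal.tsum_mul_left, hNsum]
  rw [e2]
  have h3 : BdB S o A (Λ - ρ) (β * (1160 * κ))
      (fun g => β * (∑ b ∈ S, ∑ a ∈ S, ψ (g * (a * b)))) :=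
    BdB.mul β ((BdB.U h).mono (by linarith))
  have h4 : BdB S o A (Λ - ρ) ((∑' x, ν x) * κ) (fun g => ∑' x, ν x * ψ (g * x)) := by
    apply BdB.tsum
    intro x hx
    apply h.shift x
    apply hρ
    intro h0
    apply hx
    rw [hν]
    simp only
    rw [h0]
    exact zero_tsub _
  have h5 := BdB.add h3 h4
  rw [hνsum] at h5
  have e3 : β * (1160 * κ) + (1 - 1600 * β) * κ = (1160 * β + (1 - 1600 * β)) * κ := by ring
  rw [e3] at h5
  exact h5

/-- Lengths of the walk. -/
theorem walk_len {μ : PMF G} {R : ℝ} (hR : ∀ g ∈ μ.support, dist o (g • o) ≤ R) :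
    ∀ (n : ℕ) (x : G), walk μ n x ≠ 0 → dist o (x • o) ≤ R * n := by
  intro n
  induction n with
  | zero =>
    intro x hx
    have h1 : x = 1 := by
      by_contra h2
      apply hx
      simp [walk, h2]
    subst h1
    simp
  | succ n ih =>
    intro x hx
    rw [walk_add_apply] at hx
    rw [Ne, ENNReal.tsum_eq_zero, not_forall] at hx
    obtain ⟨y, hy⟩ := hx
    have hy1 : walk μ n y ≠ 0 := left_ne_zero_of_mul hy
    have hy2 : walk μ 1 (y⁻¹ * x) ≠ 0 := right_ne_zero_of_mul hy
    have h1 : walk μ 1 = μ := by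
      simp only [walk, PMF.pure_bind, one_mul]
      exact PMF.map_id μ
    rw [h1] at hy2
    have h2 := hR _ ((PMF.mem_support_iff μ _).2 hy2)
    have h3 := ih y hy1
    have h4 := len_mul o y (y⁻¹ * x)
    rw [mul_inv_cancel_left] at h4
    push_cast
    linarith

theorem exp_decayB {μ : PMF G} {L : ℕ} (hL : 0 < L) (hcard : S.card = 40)
    (hpos : ∀ a ∈ S, walk μ L a ≠ 0) {R : ℝ} (hR : ∀ g ∈ μ.support, dist o (g • o) ≤ R) :
    ∃ B c : ℝ, 0 < B ∧ 0 < c ∧ c < 1 ∧ ∀ (n : ℕ) (κ : ℝ≥0∞) (φ : G → ℝ≥0∞),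
      BdB S o (R * L) (R * n) κ φ →
      ∑' x, walk μ n x * φ x ≤ κ * ENNReal.ofReal (B * c ^ n) := by
  classical
  -- a common lower bound
  obtain ⟨α, hα0, hα1, hα⟩ : ∃ α : ℝ≥0∞, α ≠ 0 ∧ α ≤ 1 ∧ ∀ a ∈ S, α ≤ walk μ L a := by
    have hne : S.Nonempty := by
      rw [← Finset.card_pos, hcard]; norm_num
    obtain ⟨a0, ha0, hmin⟩ := Finset.exists_min_image S (fun a => walk μ L a) hne
    exact ⟨walk μ L a0, hpos a0 ha0, PMF.coe_le_one _ _, hmin⟩
  have hαt : α ≠ ⊤ := ne_top_of_le_ne_top ENNReal.one_ne_top hα1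
  set β : ℝ≥0∞ := α * α with hβdef
  have hβ0 : β ≠ 0 := mul_ne_zero hα0 hα0
  have hβt : β ≠ ⊤ := ENNReal.mul_ne_top hαt hαt
  have hβ : ∀ x, β * ∑ b ∈ S, ∑ a ∈ S, (if a * b = x then 1 else 0) ≤ walk μ (L + L) x := by
    intro x
    rw [walk_add_apply, Finset.sum_comm, Finset.mul_sum]
    calc ∑ a ∈ S, β * ∑ b ∈ S, (if a * b = x then 1 else 0)
        ≤ ∑ a ∈ S, walk μ L a * walk μ L (a⁻¹ * x) := by
          apply Finset.sum_le_sum
          intro a ha
          by_cases hax : a⁻¹ * x ∈ S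
          · have h1 : ∑ b ∈ S, (if a * b = x then (1 : ℝ≥0∞) else 0) = 1 := by
              rw [Finset.sum_eq_single (a⁻¹ * x)]
              · simp
              · intro b _ hb
                rw [if_neg]
                intro h2
                apply hb
                rw [← h2]; group
              · intro h2; exact absurd hax h2
            rw [h1, mul_one, hβdef]
            exact mul_le_mul' (hα a ha) (hα _ hax)
          · have h1 : ∑ b ∈ S, (if a * b = x then (1 : ℝ≥0∞) else 0) = 0 := by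
              apply Finset.sum_eq_zero
              intro b hb
              rw [if_neg]
              intro h2
              apply hax
              rw [← h2]
              simpa using hb
            rw [h1, mul_zero]
            simp
      _ ≤ ∑' y, walk μ L y * walk μ L (y⁻¹ * x) := ENNReal.sum_le_tsum _
  set lam : ℝ≥0∞ := 1160 * β + (1 - 1600 * β) with hlam
  have hβle : 1600 * β ≤ 1 := by
    have h1 : ∑' x, β * ∑ b ∈ S, ∑ a ∈ S, (if a * b = x then (1 : ℝ≥0∞) else 0) ≤
        ∑' x, walk μ (L + L) x := ENNReal.tsum_le_tsum hβ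
    rw [(walk μ (L + L)).tsum_coe, ENNReal.tsum_mul_left,
      Summable.tsum_finsetSum (fun _ _ => ENNReal.summable)] at h1
    have h2 : ∀ b ∈ S, ∑' x, ∑ a ∈ S, (if a * b = x then (1 : ℝ≥0∞) else 0) = 40 := by
      intro b _
      rw [Summable.tsum_finsetSum (fun _ _ => ENNReal.summable)]
      have h3 : ∀ a ∈ S, ∑' x, (if a * b = x then (1 : ℝ≥0∞) else 0) = 1 := by
        intro a _
        rw [tsum_eq_single (a * b)]
        · simp
        · intro y hy
          rw [if_neg (fun h => hy h.symm)]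
      rw [Finset.sum_congr rfl h3]
      simp [hcard]
    rw [Finset.sum_congr rfl h2] at h1
    simp only [Finset.sum_const, hcard, nsmul_eq_mul] at h1
    calc 1600 * β = β * ((40 : ℕ) * 40) := by push_cast; ring
      _ ≤ 1 := h1
  have hlam1 : lam < 1 := by
    have h1 : (1600 : ℝ≥0∞) * β + (1 - 1600 * β) = 1 := add_tsub_cancel_of_le hβle
    have h2 : lam < 1600 * β + (1 - 1600 * β) := by
      rw [hlam]
      apply ENNReal.add_lt_add_right
      · exact ne_top_of_le_ne_top ENNReal.one_ne_top tsub_le_self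
      · exact ENNReal.mul_lt_mul_left hβ0 hβt (by norm_num)
    rwa [h1] at h2
  have hlam0 : lam ≠ 0 := by
    rw [hlam]
    intro h0
    have := (add_eq_zero.1 h0).1
    rcases mul_eq_zero.1 this with h1 | h1
    · norm_num at h1
    · exact hβ0 h1
  have hlamt : lam ≠ ⊤ := ne_top_of_lt hlam1
  set q : ℝ := lam.toReal with hq
  have hq0 : 0 < q := ENNReal.toReal_pos hlam0 hlamt
  have hq1 : q < 1 := by
    have := (ENNReal.toReal_lt_toReal hlamt ENNReal.one_ne_top).2 hlam1
    simpa using this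
  set k : ℕ := L + L with hk
  have hkpos : 0 < k := by omega
  set c : ℝ := q ^ ((1 : ℝ) / k) with hc
  have hc0 : 0 < c := Real.rpow_pos_of_pos hq0 _
  have hkR : (0 : ℝ) < k := by exact_mod_cast hkpos
  have hc1 : c < 1 := Real.rpow_lt_one hq0.le hq1 (by positivity)
  have hck : c ^ k = q := by
    rw [hc, ← Real.rpow_natCast, ← Real.rpow_mul hq0.le]
    rw [one_div, inv_mul_cancel₀ hkR.ne', Real.rpow_one]
  refine ⟨1 / q, c, by positivity, hc0, hc1, ?_⟩
  intro n κ φ h
  -- iterate
  have hbd : ∀ m r : ℕ, BdB S o (R * L) (R * n - R * (k * m + r : ℕ)) (κ * lam ^ m)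
      (Ex (walk μ (k * m + r)) φ) := by
    intro m
    induction m with
    | zero =>
      intro r
      have h1 : BdB S o (R * L) (R * n - R * r) ((∑' x, walk μ r x) * κ)
          (fun g => ∑' x, walk μ r x * φ (g * x)) :=
        BdB.tsum fun x hx => h.shift x (walk_len hR r x hx)
      rw [(walk μ r).tsum_coe, one_mul] at h1
      rw [mul_zero, zero_add, pow_zero, mul_one]
      exact h1
    | succ m ih =>
      intro r
      have h1 := BdB.block (μ := μ) (L := k) (ρ := R * k) hcard hβ hβt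
        (fun x hx => walk_len hR k x hx) (by rw [hk]; push_cast; linarith) (ih r)
      have h2 : Ex (walk μ (k * (m + 1) + r)) φ =
          Ex (walk μ k) (Ex (walk μ (k * m + r)) φ) := by
        funext g
        rw [← Ex_walk_add]
        congr 2
        ring
      rw [h2]
      have h3 : κ * lam ^ (m + 1) = lam * (κ * lam ^ m) := by rw [pow_succ]; ring
      rw [h3]
      refine h1.mono (le_of_eq ?_)
      push_cast
      ring
  have h1 := hbd (n / k) (n % k) [] 1 (by
    rw [Nat.div_add_mod]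
    simp [LL])
  rw [Nat.div_add_mod] at h1
  simp only [ev, Ex, one_mul, List.length_nil, pow_zero, mul_one] at h1
  refine h1.trans ?_
  gcongr
  have h2 : lam ^ (n / k) = ENNReal.ofReal (q ^ (n / k)) := by
    rw [ENNReal.ofReal_pow hq0.le, hq, ENNReal.ofReal_toReal hlamt]
  rw [h2]
  apply ENNReal.ofReal_le_ofReal
  have h3 : q * q ^ (n / k) ≤ c ^ n := by
    rw [← hck, ← pow_mul, ← pow_add]
    apply pow_le_pow_of_le_one hc0.le hc1.le
    have := Nat.lt_div_mul_add (a := n) hkpos
    have h4 : n / k * k = k * (n / k) := by ring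
    omega
  have h5 : 1 / q * c ^ n ≥ 1 / q * (q * q ^ (n / k)) := by gcongr
  have h6 : 1 / q * (q * q ^ (n / k)) = q ^ (n / k) := by field_simp
  linarith

end walkB

end Pool.Agent.H88.WPD
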