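import Pool.Agent.H88.WPD.Basic

/-!
Loxodromic isometries, boundary points, WPD elements, coarse stabilisers.
-/

namespace Pool.Agent.H88.WPD

section defs

variable (X : Type*) [PseudoMetricSpace X] {G : Type*} [Group G] [MulAction G X]

/-- g is loxodromic on X: positive stable translation length. -/
def Lox (g : G) : Prop := ∃ x : X, ∃ c : ℝ, 0 < c ∧ ∀ n : ℕ, c * n ≤ dist x (g ^ n • x)

variable {X}

/-- The Gromov products of u_i and v_j tend to infinity: for sequences converging to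
infinity, they converge to the same point of the Gromov boundary. -/
def Asy (u v : ℕ → X) : Prop :=
  ∀ (o : X) (R : ℝ), ∃ N : ℕ, ∀ i, N ≤ i → ∀ j, N ≤ j → R ≤ gp (u i) (v j) o

variable (X)

/-- f and g are independent loxodromic elements: no point of the Gromov boundary (the class
of a sequence u converging to infinity) is fixed by both. -/
def Indep (f g : G) : Prop := Lox X f ∧ Lox X g ∧
  ∀ u : ℕ → X, Asy u u → ¬ (Asy (fun n => f • u n) u ∧ Asy (fun n => g • u n) u)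

variable {X}

/-- The elements moving both x and y by at most K. -/
def Stab (G : Type*) [Group G] [MulAction G X] (K : ℝ) (x y : X) : Set G :=
  {g | dist x (g • x) ≤ K ∧ dist y (g • y) ≤ K}

variable (X)

/-- WPD elements. -/
def WPD (g : G) : Prop := Lox X g ∧
  ∀ (x : X) (K : ℝ), 0 ≤ K → ∃ N : ℕ, 0 < N ∧ (Stab G K x (g ^ N • x)).Finite

end defs

section asy

variable {X : Type*} [PseudoMetricSpace X] {δ : ℝ}

theorem Asy.symm {u v : ℕ → X} (h : Asy u v) : Asy v u := by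
  intro o R
  obtain ⟨N, hN⟩ := h o R
  exact ⟨N, fun i hi j hj => by rw [gp_comm]; exact hN j hj i hi⟩

theorem Asy.trans (hX : Hyp X δ) {u v w : ℕ → X} (h1 : Asy u v) (h2 : Asy v w) : Asy u w := by
  intro o R
  obtain ⟨N1, hN1⟩ := h1 o (R + δ)
  obtain ⟨N2, hN2⟩ := h2 o (R + δ)
  refine ⟨max N1 N2, fun i hi j hj => ?_⟩
  have e1 := hN1 i (le_of_max_le_left hi) (max N1 N2) (le_max_left _ _)
  have e2 := hN2 (max N1 N2) (le_max_right _ _) j (le_of_max_le_right hj)
  have e3 := hX (u i) (v (max N1 N2)) (w j) o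
  have e4 : R + δ ≤ min (gp (u i) (v (max N1 N2)) o) (gp (v (max N1 N2)) (w j) o) :=
    le_min e1 e2
  linarith

theorem Asy.smul {G : Type*} [Group G] [MulAction G X] [IsIsometricSMul G X] {u v : ℕ → X}
    (h : Asy u v) (g : G) : Asy (fun n => g • u n) (fun n => g • v n) := by
  intro o R
  obtain ⟨N, hN⟩ := h (g⁻¹ • o) R
  refine ⟨N, fun i hi j hj => ?_⟩
  have := hN i hi j hj
  rw [← gp_smul (X := X) g, smul_inv_smul] at this
  exact this

theorem Asy.of_base (o : X) {u v : ℕ → X}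
    (h : ∀ R : ℝ, ∃ N : ℕ, ∀ i, N ≤ i → ∀ j, N ≤ j → R ≤ gp (u i) (v j) o) : Asy u v := by
  intro o' R
  obtain ⟨N, hN⟩ := h (R + dist o o')
  refine ⟨N, fun i hi j hj => ?_⟩
  have e1 := hN i hi j hj
  have e2 := gp_base_le (u i) (v j) o o'
  linarith

theorem bdd_of_not_asy (hX : Hyp X δ) {u v : ℕ → X} (hu : Asy u u) (hv : Asy v v)
    (h : ¬ Asy u v) (o : X) : ∃ (R : ℝ) (N : ℕ), ∀ i, N ≤ i → ∀ j, N ≤ j →
      gp (u i) (v j) o ≤ R := by
  have h1 : ¬ ∀ R : ℝ, ∃ N : ℕ, ∀ i, N ≤ i → ∀ j, N ≤ j → R ≤ gp (u i) (v j) o :=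
    fun h2 => h (Asy.of_base o h2)
  push Not at h1
  obtain ⟨R, hR⟩ := h1
  obtain ⟨N1, hN1⟩ := hu o (R + 3 * |δ| + 1)
  obtain ⟨N2, hN2⟩ := hv o (R + 3 * |δ| + 1)
  refine ⟨R + 2 * |δ|, max N1 N2, fun i hi j hj => ?_⟩
  obtain ⟨i', hi', j', hj', h3⟩ := hR (max N1 N2)
  by_contra h4
  push Not at h4
  have e0 : δ ≤ |δ| := le_abs_self δ
  have e0' : 0 ≤ |δ| := abs_nonneg δ
  have e1 := hN1 i' (le_of_max_le_left hi') i (le_of_max_le_left hi)
  have e2 := hN2 j (le_of_max_le_right hj) j' (le_of_max_le_right hj')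
  have e3 := hX (u i') (u i) (v j) o
  have e4 := hX (u i') (v j) (v j') o
  have e5 : R + 2 * |δ| ≤ min (gp (u i') (u i) o) (gp (u i) (v j) o) :=
    le_min (by linarith) h4.le
  have e6 : R + |δ| ≤ min (gp (u i') (v j) o) (gp (v j) (v j') o) :=
    le_min (by linarith) (by linarith)
  linarith

end asy

section chain

variable {X : Type*} [PseudoMetricSpace X] {δ : ℝ}

/-- A good infinite chain. -/
structure Chain (x : ℕ → X) (c D : ℝ) : Prop where
  g : ∀ i, gp (x i) (x (i + 2)) (x (i + 1)) ≤ c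
  d : ∀ i, D ≤ dist (x i) (x (i + 1))

theorem Chain.fwd (hX : Hyp X δ) {x : ℕ → X} {c D : ℝ} (h : Chain x c D) (hδ : 0 ≤ δ)
    (hD : 2 * c + 4 * δ < D) : ∀ n i : ℕ, gp (x i) (x (i + 2 + n)) (x (i + 1)) ≤ c + δ := by
  intro n
  induction n with
  | zero =>
    intro i
    have := h.g i
    simpa using (by linarith : gp (x i) (x (i + 2)) (x (i + 1)) ≤ c + δ)
  | succ n ih =>
    intro i
    have h1 := ih (i + 1)
    have e0 : i + 1 + 2 + n = i + 2 + (n + 1) := by ring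
    rw [e0] at h1
    apply hX.le (h.g i)
    have h2 : gp (x (i + 2 + (n + 1))) (x (i + 2)) (x (i + 1)) +
        gp (x (i + 2 + (n + 1))) (x (i + 1)) (x (i + 2)) = dist (x (i + 2)) (x (i + 1)) :=
      gp_add _ _ _
    have h3 := h.d (i + 1)
    have h4 : dist (x (i + 2)) (x (i + 1)) = dist (x (i + 1)) (x (i + 1 + 1)) := dist_comm _ _
    have h5 : gp (x (i + 2 + (n + 1))) (x (i + 1)) (x (i + 2)) =
        gp (x (i + 1)) (x (i + 2 + (n + 1))) (x (i + 1 + 1)) := gp_comm _ _ _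
    linarith

theorem Chain.bwd (hX : Hyp X δ) {x : ℕ → X} {c D : ℝ} (h : Chain x c D) (hδ : 0 ≤ δ)
    (hD : 2 * c + 4 * δ < D) : ∀ n i : ℕ, gp (x i) (x (i + 2 + n)) (x (i + 1 + n)) ≤ c + δ := by
  intro n
  induction n with
  | zero =>
    intro i
    have := h.g i
    simpa using (by linarith : gp (x i) (x (i + 2)) (x (i + 1)) ≤ c + δ)
  | succ n ih =>
    intro i
    have h1 := ih i
    have h2 := h.g (i + 1 + n)
    have e1 : i + 1 + n + 2 = i + 2 + (n + 1) := by ring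
    have e2 : i + 1 + n + 1 = i + 1 + (n + 1) := by ring
    rw [e1, e2] at h2
    rw [gp_comm]
    apply hX.le (z := x (i + 1 + n)) (by rw [gp_comm]; exact h2)
    have e3 : i + 2 + n = i + 1 + (n + 1) := by ring
    rw [e3] at h1
    have h3 : gp (x i) (x (i + 1 + n)) (x (i + 1 + (n + 1))) +
        gp (x i) (x (i + 1 + (n + 1))) (x (i + 1 + n)) =
        dist (x (i + 1 + n)) (x (i + 1 + (n + 1))) := gp_add _ _ _
    have h4 := h.d (i + 1 + n)
    rw [e2] at h4
    linarith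

theorem Chain.two (hX : Hyp X δ) {x : ℕ → X} {c D : ℝ} (h : Chain x c D) (hδ : 0 ≤ δ)
    (hD : 2 * c + 4 * δ < D) (i m n : ℕ) :
    gp (x i) (x (i + m + n)) (x (i + m)) ≤ c + 2 * δ := by
  have hc : 0 ≤ c := le_trans (gp_nonneg _ _ _) (h.g 0)
  rcases Nat.eq_zero_or_pos m with hm | hm
  · subst hm
    rw [add_zero, gp_self_base]
    linarith
  rcases Nat.eq_zero_or_pos n with hn | hn
  · subst hn
    rw [add_zero, gp_self_base']
    linarith
  obtain ⟨m', rfl⟩ : ∃ m', m = m' + 1 := ⟨m - 1, by omega⟩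
  obtain ⟨n', rfl⟩ : ∃ n', n = n' + 1 := ⟨n - 1, by omega⟩
  rcases Nat.eq_zero_or_pos n' with hn' | hn'
  · subst hn'
    have := Chain.bwd hX h hδ hD m' i
    have e1 : i + 2 + m' = i + (m' + 1) + (0 + 1) := by ring
    have e2 : i + 1 + m' = i + (m' + 1) := by ring
    rw [e1, e2] at this
    linarith
  obtain ⟨n'', rfl⟩ : ∃ n'', n' = n'' + 1 := ⟨n' - 1, by omega⟩
  have h1 := Chain.bwd hX h hδ hD m' i
  have e1 : i + 2 + m' = i + (m' + 1) + 1 := by ring
  have e2 : i + 1 + m' = i + (m' + 1) := by ring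
  rw [e1, e2] at h1
  have h2 := Chain.fwd hX h hδ hD n'' (i + (m' + 1))
  have e3 : i + (m' + 1) + 2 + n'' = i + (m' + 1) + (n'' + 1 + 1) := by ring
  rw [e3] at h2
  have h3 := hX.le (y := x (i + (m' + 1) + (n'' + 1 + 1))) h1 (by
    have h4 : gp (x (i + (m' + 1) + (n'' + 1 + 1))) (x (i + (m' + 1) + 1)) (x (i + (m' + 1))) +
      gp (x (i + (m' + 1) + (n'' + 1 + 1))) (x (i + (m' + 1))) (x (i + (m' + 1) + 1)) =
      dist (x (i + (m' + 1) + 1)) (x (i + (m' + 1))) := gp_add _ _ _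
    have h5 := h.d (i + (m' + 1))
    have h6 : dist (x (i + (m' + 1) + 1)) (x (i + (m' + 1))) =
      dist (x (i + (m' + 1))) (x (i + (m' + 1) + 1)) := dist_comm _ _
    have h7 : gp (x (i + (m' + 1) + (n'' + 1 + 1))) (x (i + (m' + 1))) (x (i + (m' + 1) + 1)) =
      gp (x (i + (m' + 1))) (x (i + (m' + 1) + (n'' + 1 + 1))) (x (i + (m' + 1) + 1)) :=
      gp_comm _ _ _
    linarith)
  linarith

theorem Chain.grow (hX : Hyp X δ) {x : ℕ → X} {c D : ℝ} (h : Chain x c D) (hδ : 0 ≤ δ)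
    (hD : 2 * c + 4 * δ < D) (i : ℕ) : ∀ n : ℕ,
      (D - 2 * c - 2 * δ) * n ≤ dist (x i) (x (i + n)) := by
  intro n
  induction n with
  | zero => simp
  | succ n ih =>
    have hc : 0 ≤ c := le_trans (gp_nonneg _ _ _) (h.g 0)
    rcases Nat.eq_zero_or_pos n with hn | hn
    · subst hn
      have := h.d i
      push_cast
      simp only [zero_add, mul_one]
      linarith
    obtain ⟨n', rfl⟩ : ∃ n', n = n' + 1 := ⟨n - 1, by omega⟩
    have h1 := Chain.bwd hX h hδ hD n' i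
    have e1 : i + 2 + n' = i + (n' + 1 + 1) := by ring
    have e2 : i + 1 + n' = i + (n' + 1) := by ring
    rw [e1, e2] at h1
    have h2 := dist_eq_gp (x i) (x (i + (n' + 1 + 1))) (x (i + (n' + 1)))
    have h3 := h.d (i + (n' + 1))
    have e3 : i + (n' + 1) + 1 = i + (n' + 1 + 1) := by ring
    rw [e3] at h3
    have h4 : dist (x (i + (n' + 1 + 1))) (x (i + (n' + 1))) =
      dist (x (i + (n' + 1))) (x (i + (n' + 1 + 1))) := dist_comm _ _
    push_cast at ih ⊢
    nlinarith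

end chain

end Pool.Agent.H88.WPD
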