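import Pool.Agent.H88.WPD.Adm
import Pool.Agent.H40.WPD.Blocks
import Pool.Agent.H40.WPD.Misc
import Pool.Agent.H40.WPD.Free
import Pool.Agent.H55.WPD.Overlap
import Pool.Agent.H40.WPD.Count
import Pool.Agent.H55.WPD.Cen

/-!
The deterministic part: a product of good blocks has a free normal closure.
-/

namespace Pool.Agent.H88.WPD

section data

variable {X : Type*} [PseudoMetricSpace X] {H : Type*} [Group H] [MulAction H X]

/-- z = (a, c, t) is a decomposition w = c a t of a good word. -/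
def MG (S : Finset H) (C : ℝ) (o : X) (r : ℝ) (w : H) (z : H × H × H) : Prop :=
  z.1 ∈ S ∧ w = z.2.1 * (z.1 * z.2.2) ∧ gp (z.2.1⁻¹ • o) (z.1 • o) o ≤ 3 * C ∧
    gp (z.1⁻¹ • o) (z.2.2 • o) o ≤ 3 * C ∧ r ≤ dist o (z.2.1 • o) ∧ r ≤ dist o (z.2.2 • o)

open Classical in
/-- The chosen decomposition. -/
noncomputable def mg (S : Finset H) (C : ℝ) (o : X) (r : ℝ) (w : H) : H × H × H :=
  if h : ∃ z, MG S C o r w z then Classical.choose h else (1, 1, 1)

theorem mg_spec {S : Finset H} {C : ℝ} {o : X} {r : ℝ} {w : H} (h : MidGood S C o r w) :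
    MG S C o r w (mg S C o r w) := by
  have h1 : ∃ z, MG S C o r w z := by
    obtain ⟨a, ha, c, t, h1⟩ := h
    exact ⟨(a, c, t), ha, h1⟩
  unfold mg
  rw [dif_pos h1]
  exact Classical.choose_spec h1

/-- The cyclic complement of the block k. -/
def QQ (x : ℕ → H) (J k : ℕ) : H := pre (fun i => x (k + 1 + i)) (J - 1 - k) * pre x k

/-- The block before k. -/
def kp (J k : ℕ) : ℕ := if k = 0 then J - 1 else k - 1

/-- The bad event of the block k: an element matches the rest of the axis with the block. -/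
def FF (G : Type*) [Group G] [MulAction G X] (S : Finset H) (C : ℝ) (o : X) (r e c₃ : ℝ)
    (n₀ : ℕ) (x : ℕ → H) (J k : ℕ) : Prop :=
  MidGood S C o r (x (kp J k)) ∧
  ∃ h ∈ {h : G | gp ((QQ x J k)⁻¹ • o) o
      (h • (x (kp J k))⁻¹ • (mg S C o r (x (kp J k))).2.1 • o) ≤ c₃ ∧
    gp ((QQ x J k)⁻¹ • o) o (h • (x (kp J k))⁻¹ • (mg S C o r (x (kp J k))).2.1 •
      (mg S C o r (x (kp J k))).1 • o) ≤ c₃},
    e < gp (x k • o) (h⁻¹ • o) o ∨ e < gp (x k • o) (h⁻¹ • (QQ x J k)⁻¹ • o) o ∨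
      ∃ m : ℕ, m ≤ n₀ ∧ e < gp (x k • o)
        ((h ^ m)⁻¹ • (x (kp J k))⁻¹ • (mg S C o r (x (kp J k))).2.1 • o) o

end data

section pre

variable {G : Type*} [Group G]

theorem pre_add (x : ℕ → G) (m : ℕ) : ∀ n : ℕ,
    pre x (m + n) = pre x m * pre (fun i => x (m + i)) n := by
  intro n
  induction n with
  | zero => simp [pre]
  | succ n ih =>
    change pre x (m + n) * x (m + n) = pre x m * (pre (fun i => x (m + i)) n * x (m + n))
    rw [ih, mul_assoc]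

theorem pre_split (x : ℕ → G) {J k : ℕ} (hk : k < J) :
    pre x J = pre x k * (x k * pre (fun i => x (k + 1 + i)) (J - 1 - k)) := by
  have e1 : J = (k + 1) + (J - 1 - k) := by omega
  nth_rewrite 1 [e1]
  rw [pre_add]
  have e2 : pre x (k + 1) = pre x k * x k := rfl
  rw [e2, mul_assoc]

theorem pre_coe {Γ : Subgroup G} (x : ℕ → Γ) (J : ℕ) :
    ((pre x J : Γ) : G) = pre (fun k => (x k : G)) J := by
  induction J with
  | zero => rfl
  | succ J ih =>
    have e1 : pre x (J + 1) = pre x J * x J := rfl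
    have e2 : pre (fun k => (x k : G)) (J + 1) = pre (fun k => (x k : G)) J * x J := rfl
    rw [e1, e2, Subgroup.coe_mul, ih]

theorem QQ_coe {Γ : Subgroup G} (x : ℕ → Γ) (J k : ℕ) :
    ((QQ x J k : Γ) : G) = QQ (fun k => (x k : G)) J k := by
  unfold QQ
  rw [Subgroup.coe_mul, pre_coe, pre_coe]

/-- The rotation of the period. -/
theorem UU_conj (x : ℕ → G) {J : ℕ} (hJ : 0 < J) (j : ℤ) :
    (UU x J j)⁻¹ * pre x J * UU x J j = x (ix J j) * QQ x J (ix J j) := by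
  have hk := ix_lt hJ j
  have e1 : UU x J j = (pre x J) ^ (j / (J : ℤ)) * pre x (ix J j) := rfl
  rw [e1, mul_inv_rev]
  have e2 : (pre x (ix J j))⁻¹ * ((pre x J) ^ (j / (J : ℤ)))⁻¹ * pre x J *
      ((pre x J) ^ (j / (J : ℤ)) * pre x (ix J j)) =
      (pre x (ix J j))⁻¹ * pre x J * pre x (ix J j) := by
    have : ((pre x J) ^ (j / (J : ℤ)))⁻¹ * pre x J * (pre x J) ^ (j / (J : ℤ)) = pre x J := by
      group
    calc _ = (pre x (ix J j))⁻¹ * (((pre x J) ^ (j / (J : ℤ)))⁻¹ * pre x J *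
          (pre x J) ^ (j / (J : ℤ))) * pre x (ix J j) := by group
      _ = _ := by rw [this]
  rw [e2, pre_split x hk, QQ]
  group

theorem ix_pred {J : ℕ} (hJ : 0 < J) (j : ℤ) : ix J (j - 1) = kp J (ix J j) := by
  have h0 := ix_lt hJ (j - 1)
  have e1 : j - 1 + 1 = j := by ring
  unfold kp
  rcases Nat.lt_or_ge (ix J (j - 1) + 1) J with h | h
  · have h1 := (ix_succ_lt hJ (j - 1) h).1
    rw [e1] at h1
    rw [if_neg (by omega)]
    omega
  · have h' : ix J (j - 1) + 1 = J := by omega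
    have h1 := (ix_succ_eq hJ (j - 1) h').1
    rw [e1] at h1
    rw [if_pos h1]
    omega

theorem UU_mem {Γ : Subgroup G} {x : ℕ → G} (hx : ∀ k, x k ∈ Γ) (J : ℕ) (j : ℤ) :
    UU x J j ∈ Γ := by
  have h1 : ∀ k, pre x k ∈ Γ := by
    intro k
    induction k with
    | zero => exact Γ.one_mem
    | succ k ih => exact Γ.mul_mem ih (hx k)
  exact Γ.mul_mem (Γ.zpow_mem (h1 J) _) (h1 _)

end pre

section det

variable {X : Type*} [PseudoMetricSpace X] {δ C : ℝ} {o : X}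
variable {G : Type*} [Group G] [MulAction G X] [IsIsometricSMul G X]

theorem axis_zpow {w : G} {J : ℕ} {Y Y' Z : ℤ → X} {c e ℓ ℓ₂ ℓp : ℝ}
    (hA : AxisData w J Y Y' Z c e ℓ ℓ₂ ℓp) : ∀ (n : ℕ) (i : ℤ),
      w ^ n • Y i = Y (i + n * J) ∧ (w ^ n)⁻¹ • Y i = Y (i - n * J) := by
  have h1 : ∀ (n : ℕ) (i : ℤ), w ^ n • Y i = Y (i + n * J) := by
    intro n
    induction n with
    | zero => intro i; simp
    | succ n ih =>
      intro i
      rw [pow_succ, mul_smul, hA.wY, ih]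
      congr 1
      push_cast
      ring
  intro n i
  refine ⟨h1 n i, ?_⟩
  rw [inv_smul_eq_iff, h1]
  congr 1
  ring

theorem axis_growth (hX : Hyp X δ) {w : G} {J : ℕ} {Y Y' Z : ℤ → X} {c e ℓ ℓ₂ ℓp : ℝ}
    (hA : AxisData w J Y Y' Z c e ℓ ℓ₂ ℓp) (i : ℤ) : ∀ n : ℕ,
      n * (ℓ₂ - 2 * c) ≤ dist (Y i) (Y (i + n)) := by
  intro n
  induction n with
  | zero => simp
  | succ n ih =>
    have h1 := hA.YY i (i + n) (i + n + 1) (by omega) (by omega)
    have h2 := dist_eq_gp (Y i) (Y (i + n + 1)) (Y (i + n))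
    have h3 := hA.dY (i + n)
    rw [dist_comm (Y (i + n + 1))] at h2
    have e1 : i + ((n + 1 : ℕ) : ℤ) = i + n + 1 := by push_cast; ring
    rw [e1]
    push_cast
    linarith

theorem det_free (hX : Hyp X δ) (hgeo : Geod X) {Γ : Subgroup G} {S : Finset Γ}
    (hδC : δ ≤ C) (hC : 0 < C) (hS : Sch S C o) {J : ℕ} {x : ℕ → Γ}
    {e₀ ℓ ℓ₁ ℓm θ K₁ K₂ c₃ L : ℝ} {q n₀ : ℕ}
    (hE : ∀ a ∈ S, Stab G K₂ o (a • o) ⊆ FixLim X Γ)
    (h1 : ∀ k, k < J → MidGood S C o ℓ₁ (x k)) (h2 : ∀ k, k < J → ℓ ≤ dist o (x k • o))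
    (h3 : ∀ k, k < J → dist o (x k • o) ≤ ℓm)
    (h4 : ∀ k, k + 1 < J → gp ((x k)⁻¹ • o) (x (k + 1) • o) o ≤ e₀)
    (h5 : gp ((x (J - 1))⁻¹ • o) (x 0 • o) o ≤ e₀)
    (h6 : ∀ k, k < J → ¬ FF G S C o ℓ₁ (2 * e₀) c₃ n₀ x J k)
    (h7 : WPD X ((pre x J : Γ) : G))
    (he : 10000 * (10 * C) ≤ 2 * e₀) (hℓ : 1000 * (2 * e₀) ≤ ℓ) (hℓ₁ : 1000 * (2 * e₀) ≤ ℓ₁ / 2)
    (hq0 : 0 < q) (hq : 10 * (2 * (ℓm + 8 * C)) ≤ q * (ℓ₁ / 2)) (hJ : 1000 * q ^ 2 ≤ J)
    (hθ : 1000 * q ^ 2 * (2 * (ℓm + 8 * C)) ≤ θ)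
    (hK₁ : 1000000 * (10 * C) * (2 * (ℓm + 8 * C)) ≤ K₁ * ℓ) (hK₂ : K₁ + 1000 * (10 * C) ≤ K₂)
    (hn : 100 * (2 * (ℓm + 8 * C)) ≤ K₁ * n₀) (hc₃ : 1000 * (10 * C) ≤ c₃)
    (hL : 1000 * (θ + 10 * C + δ + 1) ≤ L) (hJL : L ≤ J * (ℓ₁ / 4)) :
    IsFreeGroup (Subgroup.normalClosure {((pre x J : Γ) : G) ^ charIndex X hX Γ}) := by
  have hδ : 0 ≤ δ := hX.nonneg o
  rcases Nat.eq_zero_or_pos (charIndex X hX Γ) with hk0 | hk0
  · rw [hk0, pow_zero]
    exact free_normalClosure_one G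
  have hq1 : 1 ≤ q := hq0
  have hJ1 : 1 < J := by nlinarith [Nat.pow_le_pow_left hq1 2]
  have hJ0 : 0 < J := by omega
  set ℓp : ℝ := 2 * (ℓm + 8 * C) with hℓp
  -- the data of the blocks
  set a : ℕ → Γ := fun k => (mg S C o ℓ₁ (x k)).1 with ha
  set b : ℕ → Γ := fun k => (mg S C o ℓ₁ (x k)).2.1 with hb
  set t : ℕ → Γ := fun k => (mg S C o ℓ₁ (x k)).2.2 with ht
  have hmg : ∀ k, k < J → a k ∈ S ∧ x k = b k * (a k * t k) ∧
      gp ((b k)⁻¹ • o) (a k • o) o ≤ 3 * C ∧ gp ((a k)⁻¹ • o) (t k • o) o ≤ 3 * C ∧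
      ℓ₁ ≤ dist o (b k • o) ∧ ℓ₁ ≤ dist o (t k • o) := fun k hk => mg_spec (h1 k hk)
  set xg : ℕ → G := fun k => (x k : G) with hxg
  set w : G := ((pre x J : Γ) : G) with hw
  have hwp : w = pre xg J := pre_coe x J
  have hup : ∀ k, k < J → dist o ((b k) • o) + dist o ((a k * t k) • o) ≤ ℓm + 8 * C := by
    intro k hk
    obtain ⟨g1, g2, g3, g4, g5, g6⟩ := hmg k hk
    have e1 : gp ((b k)⁻¹ • o) ((a k * t k) • o) o ≤ 3 * C + δ :=
      jn_mul_right hX g3 g4 (by have := hS.len _ g1; linarith)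
    have e2 := jn_len (o := o) (b k) (a k * t k)
    rw [← g2] at e2
    have e3 := h3 k hk
    linarith
  have hA := axis_of_blocks (ℓ := ℓ) (ℓ₁ := ℓ₁) (ℓp := ℓm + 8 * C) (e₀ := e₀) hX hδC hC (o := o)
    hJ1 xg (fun k => (a k : G)) (fun k => (b k : G)) (fun k => (t k : G))
    (fun k hk => by
      have := congrArg (Subtype.val) (hmg k hk).2.1
      simpa [hxg] using this)
    (fun k hk => by
      have := (hmg k hk).2.2.1
      refine le_trans (le_of_eq ?_) (this.trans (by linarith))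
      rfl)
    (fun k hk => by
      have := (hmg k hk).2.2.2.1
      refine le_trans (le_of_eq ?_) (this.trans (by linarith))
      rfl)
    (fun k hk => hS.len _ (hmg k hk).1)
    (fun k hk => (hmg k hk).2.2.2.2.1) (fun k hk => (hmg k hk).2.2.2.2.2)
    (fun k hk => h2 k hk)
    (fun k hk => by
      have e1 := hup k hk
      have e2 : 0 ≤ dist o ((a k * t k) • o) := dist_nonneg
      have e3 : dist o ((b k : G) • o) = dist o (b k • o) := rfl
      rw [e3]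
      linarith)
    (fun k hk => by
      have e1 := hup k hk
      have e2 : 0 ≤ dist o (b k • o) := dist_nonneg
      have e3 : dist o (((a k : G) * (t k : G)) • o) = dist o ((a k * t k) • o) := rfl
      rw [e3]
      linarith)
    (by linarith) (by linarith) (fun k hk => h4 k hk) h5
  rw [← hwp] at hA
  set Y : ℤ → X := fun i => UU xg J i • (b (ix J i) : G) • o with hY
  set Y' : ℤ → X := fun i => UU xg J i • (b (ix J i) : G) • (a (ix J i) : G) • o with hY'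
  set Z : ℤ → X := fun i => UU xg J i • o with hZ
  have hix : ∀ i : ℤ, ix J i < J := ix_lt hJ0
  have hxk : ∀ k, k < J → xg k = (b k : G) * ((a k : G) * (t k : G)) := by
    intro k hk
    have := congrArg (Subtype.val) (hmg k hk).2.1
    simpa [hxg] using this
  have hYZ : ∀ i : ℤ, gp (Y i) (Z (i + 1)) (Y' i) ≤ 2 * e₀ := by
    intro i
    have e1 : Z (i + 1) = UU xg J i • (b (ix J i) : G) • (a (ix J i) : G) •
        (t (ix J i) : G) • o := by
      simp only [hZ]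
      rw [UU_succ xg hJ0, hxk _ (hix i)]
      simp only [mul_smul]
    rw [e1]
    simp only [hY, hY']
    rw [gp_smul, gp_smul, gp_inv_smul]
    have e2 := (hmg _ (hix i)).2.2.2.1
    have e3 : gp ((a (ix J i) : G)⁻¹ • o) ((t (ix J i) : G) • o) o =
        gp ((a (ix J i))⁻¹ • o) (t (ix J i) • o) o := rfl
    rw [e3]
    linarith
  have hmemx : ∀ k, xg k ∈ Γ := fun k => (x k).2
  -- the conditions of overlap
  have hF : ∀ (j : ℤ) (h : G), gp (Z (j + 1 - J)) (Z j) (h • Y (j - 1)) ≤ c₃ →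
      gp (Z (j + 1 - J)) (Z j) (h • Y' (j - 1)) ≤ c₃ →
      gp (Z (j + 1)) (h⁻¹ • Z j) (Z j) ≤ 2 * e₀ ∧
      gp (Z (j + 1)) (h⁻¹ • Z (j + 1 - J)) (Z j) ≤ 2 * e₀ ∧
      ∀ m : ℕ, m ≤ n₀ → gp (Z (j + 1)) ((h ^ m)⁻¹ • Y (j - 1)) (Z j) ≤ 2 * e₀ := by
    intro j h
    set U := UU xg J j with hU
    set k := ix J j with hk
    have hkJ : k < J := hix j
    have hkp : ix J (j - 1) = kp J k := ix_pred hJ0 j
    set h' : G := U⁻¹ * h * U with hh'
    have hhU : h = U * h' * U⁻¹ := by rw [hh']; group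
    have z1 : Z (j + 1) = U • x k • o := by
      simp only [hZ]
      rw [UU_succ xg hJ0, mul_smul]
      rfl
    have z2 : Z (j + 1 - J) = U • (QQ x J k)⁻¹ • o := by
      have e1 := UU_add xg hJ0 (j + 1 - J)
      have e2 : j + 1 - (J : ℤ) + J = j + 1 := by ring
      rw [e2, UU_succ xg hJ0] at e1
      have e3 := UU_conj xg hJ0 j
      rw [← hU, ← hk] at e3
      have e4 : UU xg J (j + 1 - J) = U * (QQ xg J k)⁻¹ := by
        have e5 : UU xg J (j + 1 - J) = (pre xg J)⁻¹ * (U * xg k) := by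
          rw [eq_inv_mul_iff_mul_eq]
          exact e1.symm
        rw [e5]
        have e6 : pre xg J = U * (xg k * QQ xg J k) * U⁻¹ := by
          rw [← e3]
          group
        rw [e6]
        group
      simp only [hZ]
      rw [e4, mul_smul, ← QQ_coe]
      rfl
    have y1 : ∀ v : X, UU xg J (j - 1) • v = U • (x (kp J k))⁻¹ • v := by
      intro v
      have e1 := UU_succ xg hJ0 (j - 1)
      have e2 : j - 1 + 1 = j := by ring
      rw [e2, hkp] at e1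
      have e3 : UU xg J (j - 1) = U * (xg (kp J k))⁻¹ := by
        rw [hU, e1]
        group
      rw [e3, mul_smul]
      rfl
    have y2 : Y (j - 1) = U • (x (kp J k))⁻¹ • b (kp J k) • o := by
      simp only [hY]
      rw [y1, hkp]
      rfl
    have y3 : Y' (j - 1) = U • (x (kp J k))⁻¹ • b (kp J k) • a (kp J k) • o := by
      simp only [hY']
      rw [y1, hkp]
      rfl
    have hs : ∀ v : X, h • U • v = U • h' • v := by
      intro v
      rw [hh', mul_smul, mul_smul, smul_inv_smul]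
    have hs' : ∀ v : X, h⁻¹ • U • v = U • h'⁻¹ • v := by
      intro v
      rw [inv_smul_eq_iff, hs, smul_inv_smul]
    have hsm : ∀ (m : ℕ) (v : X), h ^ m • U • v = U • h' ^ m • v := by
      intro m
      induction m with
      | zero => intro v; simp
      | succ m ih =>
        intro v
        rw [pow_succ h m, mul_smul (h ^ m) h, hs, ih, pow_succ h' m, mul_smul (h' ^ m) h' v]
    have hsm' : ∀ (m : ℕ) (v : X), (h ^ m)⁻¹ • U • v = U • (h' ^ m)⁻¹ • v := by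
      intro m v
      rw [inv_smul_eq_iff, hsm, smul_inv_smul]
    have zj : Z j = U • o := rfl
    intro hy hy'
    rw [z2, zj, y2, hs, gp_smul] at hy
    rw [z2, zj, y3, hs, gp_smul] at hy'
    have hnF := h6 k hkJ
    have hkpJ : kp J k < J := by
      unfold kp
      split_ifs <;> omega
    have hnF' : ∀ hb : G, hb ∈ {h : G | gp ((QQ x J k)⁻¹ • o) o
        (h • (x (kp J k))⁻¹ • (mg S C o ℓ₁ (x (kp J k))).2.1 • o) ≤ c₃ ∧
        gp ((QQ x J k)⁻¹ • o) o (h • (x (kp J k))⁻¹ • (mg S C o ℓ₁ (x (kp J k))).2.1 •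
          (mg S C o ℓ₁ (x (kp J k))).1 • o) ≤ c₃} →
        ¬ (2 * e₀ < gp (x k • o) (hb⁻¹ • o) o ∨
          2 * e₀ < gp (x k • o) (hb⁻¹ • (QQ x J k)⁻¹ • o) o ∨
          ∃ m : ℕ, m ≤ n₀ ∧ 2 * e₀ < gp (x k • o)
            ((hb ^ m)⁻¹ • (x (kp J k))⁻¹ • (mg S C o ℓ₁ (x (kp J k))).2.1 • o) o) := by
      intro hb hmem hor
      exact hnF ⟨h1 _ hkpJ, hb, hmem, hor⟩
    have hc := hnF' h' ⟨hy, hy'⟩
    push Not at hc
    obtain ⟨c1, c2, c3⟩ := hc
    refine ⟨?_, ?_, ?_⟩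
    · rw [z1, zj, hs', gp_smul]
      exact c1
    · rw [z1, zj, z2, hs', gp_smul]
      exact c2
    · intro m hm
      rw [z1, zj, y2, hsm', gp_smul]
      exact c3 m hm
  have hE' : ∀ (j : ℤ) (h : G), dist (Y j) (h • Y j) ≤ K₂ → dist (Y' j) (h • Y' j) ≤ K₂ →
      h ∈ FixLim X Γ := by
    intro j h hy hy'
    obtain ⟨u, hu⟩ : ∃ u : G, u = UU xg J j * (b (ix J j) : G) := ⟨_, rfl⟩
    have huΓ : u ∈ Γ := by
      rw [hu]
      exact Γ.mul_mem (UU_mem hmemx J j) (b (ix J j)).2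
    have e1 : Y j = u • o := by rw [hu, mul_smul]
    have e2 : Y' j = u • (a (ix J j) : G) • o := by rw [hu, mul_smul]
    have key : u⁻¹ * h * u ∈ Stab G K₂ o (a (ix J j) • o) := by
      constructor
      · have e3 : dist o ((u⁻¹ * h * u) • o) = dist (u • o) (h • u • o) := by
          rw [← dist_smul u o, mul_smul, mul_smul, smul_inv_smul]
        rw [e3, ← e1]
        exact hy
      · have e3 : dist (a (ix J j) • o) ((u⁻¹ * h * u) • a (ix J j) • o) =
            dist (u • (a (ix J j) : G) • o) (h • u • (a (ix J j) : G) • o) := by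
          rw [← dist_smul u (a (ix J j) • o), mul_smul, mul_smul, smul_inv_smul]
          rfl
        rw [e3, ← e2]
        exact hy'
    have h8 := conj_mem_fixLim huΓ (hE _ (hmg _ (hix j)).1 key)
    have e4 : u * (u⁻¹ * h * u) * u⁻¹ = h := by group
    rwa [e4] at h8
  have hℓℓp : ℓ ≤ ℓp := by
    have e1 := h2 0 hJ0
    have e2 := h3 0 hJ0
    have e3 : 0 ≤ dist o (x 0 • o) := dist_nonneg
    rw [hℓp]
    linarith
  have hov := Pool.Agent.H55.WPD.overlap hX hA hYZ (by positivity : 0 < 10 * C) (by linarith : δ ≤ 10 * C) he hℓ hℓ₁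
    hℓℓp hq0 hq hJ hθ hK₁ hK₂ hn hc₃ hF hE'
  set kk := charIndex X hX Γ with hkk
  have hℓp0 : 0 ≤ ℓp := by
    have e2 := h3 0 hJ0
    have e3 : 0 ≤ dist o (x 0 • o) := dist_nonneg
    rw [hℓp]
    linarith
  have hθ0 : 0 ≤ θ := le_trans (by positivity) hθ
  have hzp := axis_zpow hA
  apply free_of_small hX (fun p q => hgeo.conn p q) (Y 0) (w ^ kk) (10 * C) θ L (by positivity) hθ0
  · intro m n
    rw [← pow_mul, ← pow_mul, (hzp (kk * m) 0).2, (hzp (kk * n) 0).1]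
    apply hA.YY
    · have : (0 : ℤ) ≤ ((kk * m : ℕ) : ℤ) * (J : ℤ) := by positivity
      linarith
    · have : (0 : ℤ) ≤ ((kk * n : ℕ) : ℤ) * (J : ℤ) := by positivity
      linarith
  · intro n hn'
    rw [← pow_mul, (hzp (kk * n) 0).1]
    have e1 := axis_growth hX hA 0 (kk * n * J)
    have e2 : (0 : ℤ) + ((kk * n * J : ℕ) : ℤ) = 0 + ((kk * n : ℕ) : ℤ) * (J : ℤ) := by
      push_cast; ring
    rw [e2] at e1
    refine le_trans ?_ e1
    have e3 : (1 : ℝ) ≤ ((kk * n : ℕ) : ℝ) := by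
      have : 0 < kk * n := Nat.mul_pos hk0 hn'
      exact_mod_cast this
    have e4 : ℓ₁ / 4 ≤ ℓ₁ / 2 - 2 * (10 * C) := by linarith
    have e5 : 0 ≤ ℓ₁ / 4 := by linarith
    calc L ≤ J * (ℓ₁ / 4) := hJL
      _ ≤ (((kk * n : ℕ) : ℝ) * J) * (ℓ₁ / 2 - 2 * (10 * C)) := by
        have e6 : (J : ℝ) ≤ ((kk * n : ℕ) : ℝ) * J := by
          have : (0 : ℝ) ≤ J := Nat.cast_nonneg J
          nlinarith
        calc J * (ℓ₁ / 4) ≤ (((kk * n : ℕ) : ℝ) * J) * (ℓ₁ / 4) := by gcongr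
          _ ≤ _ := by gcongr
      _ = _ := by push_cast; ring
  · exact hL
  · intro g hg n
    by_contra hcon
    push Not at hcon
    apply hg
    rw [← pow_mul] at hcon
    obtain ⟨s, hs⟩ := hov g (kk * n) hcon
    have hwΓ : w ∈ Γ := (pre x J : Γ).2
    have hcomm : w ^ kk * (w ^ s * g⁻¹) * (w ^ kk)⁻¹ = w ^ s * g⁻¹ :=
      pow_charIndex_comm hX hwΓ (e := w ^ s * g⁻¹) hs
    have e1 : w ^ kk * (w ^ s * g⁻¹) = (w ^ s * g⁻¹) * w ^ kk := mul_inv_eq_iff_eq_mul.1 hcomm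
    have e2 : w ^ kk * w ^ s = w ^ s * w ^ kk := by
      rw [← zpow_natCast, ← zpow_add, ← zpow_add, add_comm]
    have e3 : w ^ s * (w ^ kk * g⁻¹) = w ^ s * (g⁻¹ * w ^ kk) := by
      rw [← mul_assoc, ← e2, mul_assoc, e1, mul_assoc]
    have e4 : w ^ kk * g⁻¹ = g⁻¹ * w ^ kk := mul_left_cancel e3
    rw [mul_assoc, e4, ← mul_assoc, mul_inv_cancel, one_mul]
  · exact cen_of_wpd hX (WPD.pow hX h7 hk0)

end det

end Pool.Agent.H88.WPD
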