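import Pool.Agent.H88.WPD.Loxo

/-!
The pointwise stabiliser of the limit set, the characteristic index.
-/

namespace Pool.Agent.H88.WPD

section emu

variable (X : Type*) [PseudoMetricSpace X] {G : Type*} [Group G] [MulAction G X]

/-- The elements of G fixing every point of the limit set of Γ: for every sequence γ_n x in a
Γ-orbit converging to a point of the Gromov boundary, g γ_n x converges to the same point. -/
def FixLim (Γ : Subgroup G) : Set G :=
  {g | ∀ (γ : ℕ → G) (x : X), (∀ n, γ n ∈ Γ) →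
    Asy (fun n => γ n • x) (fun n => γ n • x) →
    Asy (fun n => g • γ n • x) (fun n => γ n • x)}

variable {X}

theorem fixLim_of_bdd {Γ : Subgroup G} {g : G} {x : X} {K : ℝ} [IsIsometricSMul G X]
    (h : ∀ γ ∈ Γ, dist (γ • x) (g • γ • x) ≤ K) : g ∈ FixLim X Γ := by
  intro γ y hγ hy o R
  obtain ⟨N, hN⟩ := hy o (R + (K + 2 * dist x y))
  refine ⟨N, fun i hi j hj => ?_⟩
  have h1 := hN i hi j hj
  have h2 := gp_left_le (γ i • y) (g • γ i • y) (γ j • y) o
  have h3 : dist (γ i • y) (g • γ i • y) ≤ dist (γ i • y) (γ i • x) +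
    dist (γ i • x) (g • γ i • x) + dist (g • γ i • x) (g • γ i • y) := dist_triangle4 _ _ _ _
  rw [dist_smul, dist_smul, dist_smul, dist_comm y x] at h3
  have h4 := h (γ i) (hγ i)
  linarith

variable [IsIsometricSMul G X] {δ : ℝ}

variable (X) in
/-- The subgroup of the elements fixing the limit set pointwise. -/
def EE (hX : Hyp X δ) (Γ : Subgroup G) : Subgroup G where
  carrier := FixLim X Γ
  one_mem' := by
    intro γ x _ h
    simpa using h
  mul_mem' := by
    intro a b ha hb γ x hγ h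
    have h1 := (hb γ x hγ h).smul a
    have h2 := ha γ x hγ h
    have h3 := h1.trans hX h2
    simpa [mul_smul] using h3
  inv_mem' := by
    intro a ha γ x hγ h
    have h1 := (ha γ x hγ h).smul a⁻¹
    simp only [inv_smul_smul] at h1
    exact h1.symm

theorem mem_EE (hX : Hyp X δ) {Γ : Subgroup G} {g : G} : g ∈ EE X hX Γ ↔ g ∈ FixLim X Γ :=
  Iff.rfl

theorem conj_mem_fixLim {Γ : Subgroup G} {c g : G} (hc : c ∈ Γ) (hg : g ∈ FixLim X Γ) :
    c * g * c⁻¹ ∈ FixLim X Γ := by
  intro γ x hγ h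
  have h1 : Asy (fun n => (c⁻¹ * γ n) • x) (fun n => (c⁻¹ * γ n) • x) := by
    have := h.smul c⁻¹
    simpa [mul_smul] using this
  have h2 := hg (fun n => c⁻¹ * γ n) x (fun n => Γ.mul_mem (Γ.inv_mem hc) (hγ n)) h1
  have h3 := h2.smul c
  simpa [mul_smul] using h3

theorem le_normalizer (hX : Hyp X δ) (Γ : Subgroup G) :
    Γ ≤ Subgroup.normalizer (EE X hX Γ : Set G) := by
  intro c hc
  rw [Subgroup.mem_normalizer_iff]
  intro g
  constructor
  · intro hg
    exact conj_mem_fixLim hc hg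
  · intro hg
    have := conj_mem_fixLim (Γ.inv_mem hc) hg
    have e1 : c⁻¹ * (c * g * c⁻¹) * c⁻¹⁻¹ = g := by group
    rw [e1] at this
    exact this

variable (X) in
/-- The conjugation homomorphism of Γ to the automorphism group of the pointwise stabiliser of
its limit set. -/
def conjHom (hX : Hyp X δ) (Γ : Subgroup G) : Γ →* MulAut (EE X hX Γ) :=
  (EE X hX Γ).normalizerMonoidHom.comp (Subgroup.inclusion (le_normalizer hX Γ))

variable (X) in
/-- The characteristic index of Γ. -/
noncomputable def charIndex (hX : Hyp X δ) (Γ : Subgroup G) : ℕ :=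
  Nat.card (conjHom X hX Γ).range

theorem pow_charIndex_comm (hX : Hyp X δ) {Γ : Subgroup G} {w e : G} (hw : w ∈ Γ)
    (he : e ∈ EE X hX Γ) : w ^ charIndex X hX Γ * e * (w ^ charIndex X hX Γ)⁻¹ = e := by
  have h1 : (⟨conjHom X hX Γ ⟨w, hw⟩, ⟨⟨w, hw⟩, rfl⟩⟩ : (conjHom X hX Γ).range) ^
      Nat.card (conjHom X hX Γ).range = 1 := pow_card_eq_one'
  have h2 : (conjHom X hX Γ ⟨w, hw⟩) ^ charIndex X hX Γ = 1 := by
    have := congrArg Subtype.val h1
    simpa [charIndex] using this
  rw [← map_pow] at h2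
  have h3 := congrArg (fun f : MulAut (EE X hX Γ) => ((f ⟨e, he⟩ : EE X hX Γ) : G)) h2
  simpa [conjHom] using h3

end emu

end Pool.Agent.H88.WPD
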