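import Pool.Agent.H88.WPD.Emu

/-!
The pointwise stabiliser of the limit set is finite, the characteristic index is positive.
-/

namespace Pool.Agent.H88.WPD

section center

variable {X : Type*} [PseudoMetricSpace X] {δ : ℝ}

theorem center_close (hX : Hyp X δ) {p p' a b c : X} {D : ℝ}
    (h1 : gp a b p ≤ D) (h2 : gp a c p ≤ D) (h3 : gp b c p ≤ D)
    (h1' : gp a b p' ≤ D) (h2' : gp a c p' ≤ D) (h3' : gp b c p' ≤ D) :
    dist p' p ≤ 2 * (D + δ) := by
  have m1 := hX a p' b p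
  have m2 := hX a p' c p
  have m3 := hX b p' c p
  have m1' := hX a p b p'
  have m2' := hX a p c p'
  have m3' := hX b p c p'
  rw [gp_comm p' b] at m1
  rw [gp_comm p' c] at m2 m3
  rw [gp_comm p b] at m1'
  rw [gp_comm p c] at m2' m3'
  have ea : gp a p' p + gp a p p' = dist p' p := gp_add _ _ _
  have eb : gp b p' p + gp b p p' = dist p' p := gp_add _ _ _
  have ec : gp c p' p + gp c p p' = dist p' p := gp_add _ _ _
  have n1 : min (gp a p' p) (gp b p' p) ≤ D + δ := by linarith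
  have n2 : min (gp a p' p) (gp c p' p) ≤ D + δ := by linarith
  have n3 : min (gp b p' p) (gp c p' p) ≤ D + δ := by linarith
  have n1' : min (gp a p p') (gp b p p') ≤ D + δ := by linarith
  have n2' : min (gp a p p') (gp c p p') ≤ D + δ := by linarith
  have n3' : min (gp b p p') (gp c p p') ≤ D + δ := by linarith
  rcases min_le_iff.1 n1 with h | h <;> rcases min_le_iff.1 n2 with h4 | h4 <;>
    rcases min_le_iff.1 n3 with h5 | h5 <;> rcases min_le_iff.1 n1' with h6 | h6 <;>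
    rcases min_le_iff.1 n2' with h7 | h7 <;> rcases min_le_iff.1 n3' with h8 | h8 <;> linarith

end center

section fin

variable {X : Type*} [PseudoMetricSpace X] {δ : ℝ}
variable {G : Type*} [Group G] [MulAction G X] [IsIsometricSMul G X]

theorem fixLim_move (hX : Hyp X δ) {Γ : Subgroup G} {f g : G} (hf : f ∈ Γ) (hg : g ∈ Γ)
    (hI : Indep X f g) (o : X) : ∃ K : ℝ, 0 ≤ K ∧ ∀ e ∈ FixLim X Γ, dist o (e • o) ≤ K := by
  have hδ : 0 ≤ δ := hX.nonneg o
  obtain ⟨lf, lg, hind⟩ := hI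
  have hu : Asy (fun n => f ^ n • o) (fun n => f ^ n • o) := lox_asy hX lf o
  have hv : Asy (fun n => f⁻¹ ^ n • o) (fun n => f⁻¹ ^ n • o) := lox_asy hX lf.inv o
  have hw : Asy (fun n => g ^ n • o) (fun n => g ^ n • o) := lox_asy hX lg o
  obtain ⟨D₁, hD₁, hd₁⟩ := lox_data hX lf o
  have huw : ¬ Asy (fun n => f ^ n • o) (fun n => g ^ n • o) := by
    intro h
    refine hind _ hu ⟨lox_fix hX lf o, ?_⟩
    exact ((h.smul g).trans hX (lox_fix hX lg o)).trans hX h.symm
  have hvw : ¬ Asy (fun n => f⁻¹ ^ n • o) (fun n => g ^ n • o) := by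
    intro h
    refine hind _ hv ⟨asy_inv_fix (lox_fix hX lf.inv o), ?_⟩
    exact ((h.smul g).trans hX (lox_fix hX lg o)).trans hX h.symm
  obtain ⟨D₂, N₂, hd₂⟩ := bdd_of_not_asy hX hu hw huw o
  obtain ⟨D₃, N₃, hd₃⟩ := bdd_of_not_asy hX hv hw hvw o
  set D : ℝ := D₁ + |D₂| + |D₃| with hD
  have b2 := le_abs_self D₂
  have b3 := le_abs_self D₃
  have b2' := abs_nonneg D₂
  have b3' := abs_nonneg D₃
  refine ⟨2 * (D + 2 * δ + δ), by positivity, fun e he => ?_⟩
  obtain ⟨n₁, hn₁⟩ := he (fun n => f ^ n) o (fun n => Γ.pow_mem hf n) hu o (D + 3 * δ + 1)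
  obtain ⟨n₂, hn₂⟩ := he (fun n => f⁻¹ ^ n) o (fun n => Γ.pow_mem (Γ.inv_mem hf) n) hv o
    (D + 3 * δ + 1)
  obtain ⟨n₃, hn₃⟩ := he (fun n => g ^ n) o (fun n => Γ.pow_mem hg n) hw o (D + 3 * δ + 1)
  set n := n₁ + n₂ + n₃ + N₂ + N₃ with hn
  have key : ∀ a b : X, gp a b o ≤ D → D + 3 * δ + 1 ≤ gp (e • a) a o →
      D + 3 * δ + 1 ≤ gp (e • b) b o → gp (e • a) (e • b) o ≤ D + 2 * δ := by
    intro a b h1 h2 h3
    have m1 := hX a (e • b) b o
    have m2 := hX a (e • a) (e • b) o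
    rw [gp_comm a (e • a)] at m2
    have k1 : gp a (e • b) o ≤ D + δ := by
      have : min (gp a (e • b) o) (gp (e • b) b o) ≤ D + δ := by linarith
      rcases min_le_iff.1 this with h | h
      · exact h
      · linarith
    have : min (gp (e • a) a o) (gp (e • a) (e • b) o) ≤ D + 2 * δ := by linarith
    rcases min_le_iff.1 this with h | h
    · linarith
    · exact h
  have u1 : gp (f ^ n • o) (f⁻¹ ^ n • o) o ≤ D := by
    have := hd₁ n n
    rw [gp_comm, inv_pow]
    linarith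
  have u2 : gp (f ^ n • o) (g ^ n • o) o ≤ D := by
    have := hd₂ n (by omega) n (by omega)
    linarith
  have u3 : gp (f⁻¹ ^ n • o) (g ^ n • o) o ≤ D := by
    have := hd₃ n (by omega) n (by omega)
    linarith
  have v1 := hn₁ n (by omega) n (by omega)
  have v2 := hn₂ n (by omega) n (by omega)
  have v3 := hn₃ n (by omega) n (by omega)
  rw [dist_comm]
  apply center_close hX (a := e • f ^ n • o) (b := e • f⁻¹ ^ n • o) (c := e • g ^ n • o)
  · exact key _ _ u1 v1 v2
  · exact key _ _ u2 v1 v3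
  · exact key _ _ u3 v2 v3
  · rw [gp_smul]
    linarith
  · rw [gp_smul]
    linarith
  · rw [gp_smul]
    linarith

/-- The pointwise stabiliser of the limit set is finite. -/
theorem fixLim_finite (hX : Hyp X δ) {Γ : Subgroup G} {f g h : G} (hf : f ∈ Γ) (hg : g ∈ Γ)
    (hI : Indep X f g) (hh : h ∈ Γ) (hw : WPD X h) : (FixLim X Γ).Finite := by
  obtain ⟨⟨o, _⟩, _⟩ := id hw
  obtain ⟨K, hK0, hK⟩ := fixLim_move hX hf hg hI o
  obtain ⟨N, _, hN⟩ := hw.2 o K hK0
  refine hN.subset fun e he => ⟨hK e he, ?_⟩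
  have h1 := conj_mem_fixLim (Γ.inv_mem (Γ.pow_mem hh N)) he
  have h2 := hK _ h1
  rw [inv_inv] at h2
  have e1 : dist o (((h ^ N)⁻¹ * e * h ^ N) • o) = dist (h ^ N • o) (e • h ^ N • o) := by
    rw [← dist_smul (h ^ N) o, mul_smul, mul_smul, smul_inv_smul]
  rwa [e1] at h2

/-- The characteristic index is positive. -/
theorem charIndex_pos (hX : Hyp X δ) {Γ : Subgroup G} (h : (FixLim X Γ).Finite) :
    0 < charIndex X hX Γ := by
  have h1 : Finite (EE X hX Γ) := h
  have h2 : Finite (MulAut (EE X hX Γ)) :=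
    Finite.of_injective (fun f : MulAut (EE X hX Γ) => (f : EE X hX Γ → EE X hX Γ))
      (fun a b hab => MulEquiv.ext fun x => congrFun hab x)
  exact Nat.card_pos

end fin

end Pool.Agent.H88.WPD
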