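import Pool.Agent.H88.WPD.Det

/-!
Part (c): the probability estimate.
-/

namespace Pool.Agent.H88.WPD

open scoped ENNReal

section eb

variable {H : Type*} [Group H]

theorem EB_add (p : ℕ → PMF H) (J : ℕ) (Φ Ψ : (ℕ → H) → ℝ≥0∞) :
    EB p J (fun x => Φ x + Ψ x) = EB p J Φ + EB p J Ψ := by
  induction J generalizing Φ Ψ with
  | zero => rfl
  | succ J ih =>
    simp only [EB]
    rw [← ENNReal.tsum_add]
    refine tsum_congr fun y => ?_
    rw [ih, mul_add]

theorem eb_one (p : ℕ → PMF H) {J k : ℕ} (hk : k < J) {κ : ℝ≥0∞} (φ : H → ℝ≥0∞)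
    (h : ∑' y, p k y * φ y ≤ κ) : EB p J (fun x => φ (x k)) ≤ κ := by
  apply EB_le p J hk
  intro x _
  simpa [Function.update_self] using h

theorem kp_ne {J k : ℕ} (hJ : 1 < J) (hk : k < J) : kp J k ≠ k ∧ kp J k < J := by
  unfold kp
  split_ifs <;> omega

theorem QQ_update (x : ℕ → H) {J k : ℕ} (hk : k < J) (y : H) :
    QQ (Function.update x k y) J k = QQ x J k := by
  unfold QQ
  rw [pre_congr (x' := fun i => x (k + 1 + i)) (fun i _ => Function.update_of_ne (by omega) _ _),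
    pre_congr (x := Function.update x k y) (x' := x)
      (fun i hi => Function.update_of_ne (by omega) _ _)]

variable {X : Type*} [PseudoMetricSpace X] [MulAction H X] {o : X}

open Classical in
theorem eb_two (p : ℕ → PMF H) {J k : ℕ} (hJ : 1 < J) (hk : k < J) {κ : ℝ≥0∞} {e₀ : ℝ}
    (h : ∀ ζ : X, ∑' y, p k y * (if e₀ < gp (y • o) ζ o then 1 else 0) ≤ κ) :
    EB p J (fun x => if e₀ < gp ((x (kp J k))⁻¹ • o) (x k • o) o then 1 else 0) ≤ κ := by
  apply EB_le p J hk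
  intro x _
  refine le_trans (le_of_eq ?_) (h ((x (kp J k))⁻¹ • o))
  refine tsum_congr fun y => ?_
  rw [Function.update_self, Function.update_of_ne (kp_ne hJ hk).1, gp_comm]

variable [IsIsometricSMul H X]

theorem pre_len {x : ℕ → H} {M : ℝ} {m : ℕ} (h : ∀ i, i < m → dist o (x i • o) ≤ M) :
    dist o (pre x m • o) ≤ m * M := by
  induction m with
  | zero => simp [pre]
  | succ m ih =>
    have h1 := ih fun i hi => h i (by omega)
    have h2 := h m (by omega)
    have h3 : dist o (pre x (m + 1) • o) ≤ dist o (pre x m • o) + dist o (x m • o) :=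
      len_mul o (pre x m) (x m)
    push_cast
    linarith

end eb

section ff

variable {X : Type*} [PseudoMetricSpace X] {δ C : ℝ} {o : X}
variable {G : Type*} [Group G] [MulAction G X] [IsIsometricSMul G X]

theorem stab_conj (g : G) (K : ℝ) (u v : X) :
    Stab G K (g • u) (g • v) ⊆ (fun s => g * s * g⁻¹) '' Stab G K u v := by
  intro s hs
  refine ⟨g⁻¹ * s * g, ⟨?_, ?_⟩, by group⟩
  · have e1 : dist u ((g⁻¹ * s * g) • u) = dist (g • u) (s • g • u) := by
      rw [← dist_smul g u, mul_smul, mul_smul, smul_inv_smul]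
    rw [e1]
    exact hs.1
  · have e1 : dist v ((g⁻¹ * s * g) • v) = dist (g • v) (s • g • v) := by
      rw [← dist_smul g v, mul_smul, mul_smul, smul_inv_smul]
    rw [e1]
    exact hs.2

open Classical in
theorem eb_FF (hX : Hyp X δ) {Γ : Subgroup G} {S : Finset Γ} (p : ℕ → PMF Γ) {J k : ℕ}
    (hJ : 1 < J) (hk : k < J) {κ : ℝ≥0∞} {r e c₃ ℓm : ℝ} {n₀ E₀ : ℕ} (hc₃ : 0 ≤ c₃)
    (hℓm : 0 ≤ ℓm)
    (hlen : ∀ i, i < J → ∀ y, p i y ≠ 0 → dist o (y • o) ≤ ℓm)
    (hfin : ∀ a ∈ S, (Stab G (2 * c₃ + 2 * δ + 1) o (a • o)).Finite)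
    (hcard : ∀ a ∈ S, (Stab G (2 * c₃ + 2 * δ + 1) o (a • o)).ncard ≤ E₀)
    (h : ∀ ζ : X, ∑' y, p k y * (if e < gp (y • o) ζ o then 1 else 0) ≤ κ) :
    EB p J (fun x => if FF G S C o r e c₃ n₀ x J k then 1 else 0) ≤
      (E₀ * (⌊J * ℓm + 2 * c₃⌋₊ + 1) ^ 2 * (n₀ + 3) : ℕ) * κ := by
  apply EB_le p J hk
  intro x hx
  obtain ⟨hne, hkpJ⟩ := kp_ne hJ hk
  by_cases hM : MidGood S C o r (x (kp J k))
  swap
  · have h0 : ∀ y, (if FF G S C o r e c₃ n₀ (Function.update x k y) J k then (1 : ℝ≥0∞) else 0) =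
        0 := by
      intro y
      rw [if_neg]
      intro hF
      apply hM
      have := hF.1
      rwa [Function.update_of_ne hne] at this
    simp_rw [h0]
    simp
  set z := mg S C o r (x (kp J k)) with hz
  have hzs : MG S C o r (x (kp J k)) z := mg_spec hM
  obtain ⟨ha, _⟩ := hzs
  set g : G := (((x (kp J k))⁻¹ * z.2.1 : Γ) : G) with hg
  have hu : (x (kp J k))⁻¹ • z.2.1 • o = g • o := by
    rw [← mul_smul]
    rfl
  have hv : (x (kp J k))⁻¹ • z.2.1 • z.1 • o = g • z.1 • o := by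
    rw [← mul_smul]
    rfl
  have hQ : dist o ((QQ x J k)⁻¹ • o) ≤ J * ℓm := by
    rw [show dist o ((QQ x J k)⁻¹ • o) = dist o (QQ x J k • o) by
      rw [dist_comm, ← dist_smul (QQ x J k), smul_inv_smul]]
    unfold QQ
    have h1 := len_mul o (pre (fun i => x (k + 1 + i)) (J - 1 - k)) (pre x k)
    have h2 : dist o (pre (fun i => x (k + 1 + i)) (J - 1 - k) • o) ≤ (J - 1 - k : ℕ) * ℓm :=
      pre_len fun i hi => hlen _ (by omega) _ (hx _ (by omega) (by omega))
    have h3 : dist o (pre x k • o) ≤ (k : ℕ) * ℓm :=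
      pre_len fun i hi => hlen _ (by omega) _ (hx _ (by omega) (by omega))
    have h4 : ((J - 1 - k : ℕ) : ℝ) + (k : ℝ) ≤ (J : ℝ) := by
      have : (J - 1 - k) + k ≤ J := by omega
      exact_mod_cast this
    calc dist o ((pre (fun i => x (k + 1 + i)) (J - 1 - k) * pre x k) • o)
        ≤ (J - 1 - k : ℕ) * ℓm + (k : ℕ) * ℓm := by linarith
      _ = (((J - 1 - k : ℕ) : ℝ) + (k : ℝ)) * ℓm := by ring
      _ ≤ J * ℓm := by gcongr
  have hst : Stab G (2 * c₃ + 2 * δ + 1) (g • o) (g • z.1 • o) ⊆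
      (fun s => g * s * g⁻¹) '' Stab G (2 * c₃ + 2 * δ + 1) o (z.1 • o) := stab_conj g _ _ _
  have hfi := (hfin _ ha).image (fun s => g * s * g⁻¹)
  obtain ⟨hA1, hA2⟩ := match_count (o := o) (z := (QQ x J k)⁻¹ • o) (u := g • o)
    (v := g • z.1 • o) hX hc₃ hQ (hfi.subset hst)
    ((Set.ncard_le_ncard hst hfi).trans ((Set.ncard_image_le (hfin _ ha)).trans (hcard _ ha)))
  refine le_trans ?_ (match_prob (u := g • o) (z := (QQ x J k)⁻¹ • o) h hA1 hA2 (n := n₀))
  refine ENNReal.tsum_le_tsum fun y => ?_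
  gcongr
  by_cases hF : FF G S C o r e c₃ n₀ (Function.update x k y) J k
  · rw [if_pos hF, if_pos]
    obtain ⟨_, hh, hh1, hh2⟩ := hF
    rw [QQ_update x hk, Function.update_of_ne hne, ← hz, hu, hv] at hh1
    rw [QQ_update x hk, Function.update_of_ne hne, Function.update_self, ← hz, hu] at hh2
    exact ⟨hh, hh1, hh2⟩
  · rw [if_neg hF]
    exact zero_le

/-- Part (a), as a sum. -/
theorem partA_sum (hX : Hyp X δ) (μ : PMF G) (hμ : NonElementary X μ)
    (hw : ∃ h ∈ Subsemigroup.closure μ.support, WPD X h) (o : X) [DecidablePred (WPD X (G := G))] :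
    ES (fun n => ∑' x, walk μ n x * (if WPD X x then 0 else 1)) := by
  classical
  obtain ⟨C, hC, hδC, hSch⟩ := schottky_mu hX μ hμ hw o
  obtain ⟨S, L, hL, hS, hpos, hfin⟩ := hSch (32 * C + 1) (by positivity)
  set φ : G → ℝ≥0∞ := fun w => if CycGood S C o w then 0 else 1 with hφ
  have hφ1 : ∀ w, φ w ≤ 1 := by
    intro w
    simp only [hφ]
    split_ifs <;> simp
  have hφ0 : ∀ w, CycGood S C o w → φ w = 0 := by
    intro w hw
    simp only [hφ]
    rw [if_pos hw]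
  have hBd : Bd S 2 φ := bd_of_leaf hX hδC hC hS fun c σ hv =>
    leaf_cyc hX (hX.nonneg o) hδC hC hS hφ1 hφ0 σ.length σ le_rfl hv.val0 c 1
  obtain ⟨B, c, hB, hc, hc1, hdec⟩ := exp_decay hL hS.card hpos hBd
  refine ⟨B, c, hB, hc, hc1, fun n => le_trans ?_ (hdec n)⟩
  refine ENNReal.tsum_le_tsum fun x => ?_
  gcongr
  simp only [hφ]
  by_cases h1 : CycGood S C o x
  · rw [if_pos (h1.wpd hX hδC hC hS hfin)]
    exact zero_le
  · rw [if_neg h1]
    split_ifs <;> simp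

end ff

end Pool.Agent.H88.WPD
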