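import Pool.Agent.H88.WPD.FinC

/-!
Part (c): the union bound.
-/

namespace Pool.Agent.H88.WPD

open scoped ENNReal

/-- The lengths of the blocks. -/
def nn (n J k : ℕ) : ℕ := if k = 0 then n / J + n % J else n / J

theorem nn_sum {n J : ℕ} (hJ : 0 < J) : ∑ k ∈ Finset.range J, nn n J k = n := by
  obtain ⟨J', rfl⟩ : ∃ J', J = J' + 1 := ⟨J - 1, by omega⟩
  rw [Finset.sum_range_succ']
  have h1 : ∀ k, nn n (J' + 1) (k + 1) = n / (J' + 1) := fun k => if_neg (by omega)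
  have h2 : nn n (J' + 1) 0 = n / (J' + 1) + n % (J' + 1) := if_pos rfl
  simp_rw [h1, h2]
  rw [Finset.sum_const, Finset.card_range, smul_eq_mul]
  have := Nat.div_add_mod n (J' + 1)
  nlinarith

theorem nn_ge (n J k : ℕ) : n / J ≤ nn n J k := by
  unfold nn
  split_ifs <;> omega

theorem nn_le {n J : ℕ} (k : ℕ) (hJ : 0 < J) (h : J ≤ n / J) : nn n J k ≤ 2 * (n / J) := by
  unfold nn
  have := Nat.mod_lt n hJ
  split_ifs <;> omega

theorem ofReal_pow_anti {B c : ℝ} (hB : 0 < B) (hc : 0 < c) (hc1 : c < 1) {m n : ℕ} (h : m ≤ n) :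
    ENNReal.ofReal (B * c ^ n) ≤ ENNReal.ofReal (B * c ^ m) := by
  apply ENNReal.ofReal_le_ofReal
  have : c ^ n ≤ c ^ m := pow_le_pow_of_le_one hc.le hc1.le h
  gcongr

section main

variable {X : Type*} [PseudoMetricSpace X] {δ C R : ℝ} {o : X}
variable {G : Type*} [Group G] [MulAction G X] [IsIsometricSMul G X]

open Classical in
theorem partC_core (hX : Hyp X δ) (hgeo : Geod X) {Γ : Subgroup G} {S : Finset Γ} (ν : PMF Γ)
    (hδC : δ ≤ C) (hC : 0 < C) (hS : Sch S C o) (hR0 : 0 < R)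
    (hRν : ∀ g ∈ ν.support, dist o (g • o) ≤ R) {η₁ η₂ : ℝ} (hη₁ : 0 < η₁) (hη₂ : 0 < η₂)
    (hdrift : ES (fun n => ∑' x, walk ν n x * (if η₁ * n ≤ dist o (x • o) then 0 else 1)))
    (hmid : ES (fun n => ∑' x, walk ν n x * (if MidGood S C o (η₂ * n) x then 0 else 1)))
    (hsh : ∀ ε : ℝ, 0 < ε → ∃ B c : ℝ, 0 < B ∧ 0 < c ∧ c < 1 ∧ ∀ (n : ℕ) (ζ : X),
      ∑' x, walk ν n x * (if ε * n < gp (x • o) ζ o then 1 else 0) ≤ ENNReal.ofReal (B * c ^ n))
    (hwpd : ES (fun n => ∑' x : Γ, walk ν n x * (if WPD X (x : G) then 0 else 1)))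
    (hE : ∀ a ∈ S, Stab G (80000000 * C * R / η₁ + 800 * R + 10000 * C) o (a • o) ⊆ FixLim X Γ)
    (hfin : ∀ a ∈ S, (Stab G (2 * (10000 * C) + 2 * δ + 1) o (a • o)).Finite) :
    ES (fun n => ∑' x : Γ, walk ν n x *
      (if IsFreeGroup (Subgroup.normalClosure {(x : G) ^ charIndex X hX Γ}) then 0 else 1)) := by
  have hδ : 0 ≤ δ := hX.nonneg o
  obtain ⟨q, hq⟩ : ∃ q : ℕ, q = ⌈160 * R / η₂⌉₊ + 1 := ⟨_, rfl⟩
  have hq0 : 0 < q := by omega
  have hqR : 160 * R ≤ q * η₂ := by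
    have h1 : 160 * R / η₂ ≤ q := by
      rw [hq]
      push_cast
      have := Nat.le_ceil (160 * R / η₂)
      linarith
    rwa [div_le_iff₀ hη₂] at h1
  obtain ⟨J, hJ⟩ : ∃ J : ℕ, J = ⌈4000 * (8000 * q ^ 2 * R + 1) / η₂⌉₊ + 1000 * q ^ 2 + 2 :=
    ⟨_, rfl⟩
  have hJ1 : 1 < J := by omega
  have hJ0 : 0 < J := by omega
  have hJq : 1000 * q ^ 2 ≤ J := by omega
  have hJη : 4000 * (8000 * q ^ 2 * R + 1) ≤ J * η₂ := by
    have h1 : 4000 * (8000 * q ^ 2 * R + 1) / η₂ ≤ J := by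
      rw [hJ]
      push_cast
      have := Nat.le_ceil (4000 * (8000 * q ^ 2 * R + 1) / η₂)
      have h2 : (0 : ℝ) ≤ 1000 * q ^ 2 := by positivity
      linarith
    rwa [div_le_iff₀ hη₂] at h1
  set ε : ℝ := min η₁ η₂ / 4000 with hε
  have hε0 : 0 < ε := by
    have : 0 < min η₁ η₂ := lt_min hη₁ hη₂
    positivity
  have hε1 : 4000 * ε ≤ η₁ := by
    have : min η₁ η₂ ≤ η₁ := min_le_left _ _
    rw [hε]
    linarith
  have hε2 : 4000 * ε ≤ η₂ := by
    have : min η₁ η₂ ≤ η₂ := min_le_right _ _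
    rw [hε]
    linarith
  set K₁ : ℝ := 80000000 * C * R / η₁ + 800 * R with hK₁
  have hK₁0 : 0 ≤ K₁ := by positivity
  have hK₁η : 80000000 * C * R ≤ K₁ * η₁ := by
    rw [hK₁, add_mul, div_mul_cancel₀ _ hη₁.ne']
    have : 0 ≤ 800 * R * η₁ := by positivity
    linarith
  have hK₁R : 800 * R ≤ K₁ := by
    have : 0 ≤ 80000000 * C * R / η₁ := by positivity
    linarith
  obtain ⟨N₀, hN₀⟩ := exists_nat_gt (100000 * C / (2 * ε) + 4 * C / R + J + 10 * C + δ + 1)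
  obtain ⟨B₁, c₁, hB₁, hc₁, hc₁', hd₁⟩ := hdrift
  obtain ⟨B₂, c₂, hB₂, hc₂, hc₂', hd₂⟩ := hmid
  obtain ⟨B₃, c₃, hB₃, hc₃, hc₃', hd₃⟩ := hsh (ε / 2) (by positivity)
  set E₀ : ℕ := ∑ a ∈ S, (Stab G (2 * (10000 * C) + 2 * δ + 1) o (a • o)).ncard with hE₀
  have hcard : ∀ a ∈ S, (Stab G (2 * (10000 * C) + 2 * δ + 1) o (a • o)).ncard ≤ E₀ :=
    fun a ha => Finset.single_le_sum
      (f := fun a => (Stab G (2 * (10000 * C) + 2 * δ + 1) o (a • o)).ncard)
      (fun _ _ => Nat.zero_le _) ha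
  -- the bounds, as functions of N
  set κ₁ : ℕ → ℝ≥0∞ := fun N => ENNReal.ofReal (B₁ * c₁ ^ N) with hκ₁
  set κ₂ : ℕ → ℝ≥0∞ := fun N => ENNReal.ofReal (B₂ * c₂ ^ N) with hκ₂
  set κ₃ : ℕ → ℝ≥0∞ := fun N => ENNReal.ofReal (B₃ * c₃ ^ N) with hκ₃
  have es₁ : ES κ₁ := ⟨B₁, c₁, hB₁, hc₁, hc₁', fun _ => le_rfl⟩
  have es₂ : ES κ₂ := ⟨B₂, c₂, hB₂, hc₂, hc₂', fun _ => le_rfl⟩
  have es₃ : ES κ₃ := ⟨B₃, c₃, hB₃, hc₃, hc₃', fun _ => le_rfl⟩
  set D : ℝ := E₀ * (J * (2 * R) + 2 * (10000 * C) + 1) ^ 2 * (J + 3) with hD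
  have hD0 : 0 ≤ D := by positivity
  set Ψ : ℕ → ℝ≥0∞ := fun N => ∑ _k ∈ Finset.range J, (κ₂ N + κ₁ N + κ₃ N +
    ENNReal.ofReal (D * ((N : ℝ) + 1) ^ 3) * κ₃ N) with hΨ
  have esΨ : ES Ψ := ES.sum _ fun _ _ => ((es₂.add es₁).add es₃).add (es₃.poly D hD0 3)
  refine ES.of_ev (hwpd.add (esΨ.comp_div hJ0)) (M := 1) ?_ (J * N₀) ?_
  · intro n
    rw [ENNReal.ofReal_one]
    exact walk_sum_le_one ν n fun w => by split_ifs <;> simp
  intro n hn
  set N := n / J with hN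
  have hNN : N₀ ≤ N := by
    rw [hN, Nat.le_div_iff_mul_le hJ0, mul_comm]
    exact hn
  have hNR : (N₀ : ℝ) ≤ N := by exact_mod_cast hNN
  have a1 : 0 ≤ 100000 * C / (2 * ε) := by positivity
  have a2 : 0 ≤ 4 * C / R := by positivity
  have a3 : (0 : ℝ) ≤ J := Nat.cast_nonneg J
  have n1 : 100000 * C ≤ 2 * (ε * N) := by
    have : 100000 * C / (2 * ε) ≤ N := by linarith
    rw [div_le_iff₀ (by positivity)] at this
    linarith
  have n2 : 16 * C ≤ 4 * R * N := by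
    have : 4 * C / R ≤ N := by linarith
    rw [div_le_iff₀ hR0] at this
    linarith
  have n3 : J ≤ N := by
    have : (J : ℝ) ≤ N := by linarith
    exact_mod_cast this
  have n4 : 10 * C + δ + 1 ≤ N := by linarith
  have nN : (N : ℝ) ≤ n := by
    have : N ≤ n := Nat.div_le_self n J
    exact_mod_cast this
  have nN0 : (0 : ℝ) ≤ N := Nat.cast_nonneg N
  have hup : 2 * (2 * R * N + 8 * C) ≤ 8 * R * N := by linarith
  have hge : ∀ k, N ≤ nn n J k := fun k => nn_ge n J k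
  have hle : ∀ k, nn n J k ≤ 2 * N := fun k => nn_le k hJ0 n3
  have hgeR : ∀ k, (N : ℝ) ≤ nn n J k := fun k => by exact_mod_cast hge k
  have hleR : ∀ k, (nn n J k : ℝ) ≤ 2 * N := fun k => by exact_mod_cast hle k
  set p : ℕ → PMF Γ := fun k => walk ν (nn n J k) with hp
  have hlen : ∀ i, i < J → ∀ y, p i y ≠ 0 → dist o (y • o) ≤ 2 * R * N := by
    intro i _ y hy
    refine (walk_len hRν _ y hy).trans ?_
    calc R * (nn n J i : ℕ) ≤ R * (2 * N) := by
          gcongr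
          exact hleR i
      _ = 2 * R * N := by ring
  have hshk : ∀ (k : ℕ) (ζ : X),
      ∑' y, p k y * (if ε * N < gp (y • o) ζ o then 1 else 0) ≤ κ₃ N := by
    intro k ζ
    refine le_trans ?_ ((hd₃ (nn n J k) ζ).trans (ofReal_pow_anti hB₃ hc₃ hc₃' (hge k)))
    refine ENNReal.tsum_le_tsum fun y => ?_
    gcongr
    by_cases h1 : ε * N < gp (y • o) ζ o
    · rw [if_pos h1, if_pos]
      refine lt_of_le_of_lt ?_ h1
      calc ε / 2 * (nn n J k : ℕ) ≤ ε / 2 * (2 * N) := by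
            gcongr
            exact hleR k
        _ = ε * N := by ring
    · rw [if_neg h1]
      exact zero_le
  have hshk' : ∀ (k : ℕ) (ζ : X),
      ∑' y, p k y * (if 2 * (ε * N) < gp (y • o) ζ o then 1 else 0) ≤ κ₃ N := by
    intro k ζ
    refine le_trans ?_ (hshk k ζ)
    refine ENNReal.tsum_le_tsum fun y => ?_
    gcongr
    by_cases h1 : 2 * (ε * N) < gp (y • o) ζ o
    · rw [if_pos h1, if_pos]
      have : 0 ≤ ε * N := by positivity
      linarith
    · rw [if_neg h1]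
      exact zero_le
  -- the expectation over the blocks
  have hEB := EB_walk ν (nn n J) p J (fun _ _ => rfl) (fun x : Γ =>
    (if IsFreeGroup (Subgroup.normalClosure {(x : G) ^ charIndex X hX Γ}) then (0 : ℝ≥0∞) else 1))
  rw [nn_sum hJ0] at hEB
  have hEBw := EB_walk ν (nn n J) p J (fun _ _ => rfl) (fun x : Γ =>
    (if WPD X (x : G) then (0 : ℝ≥0∞) else 1))
  rw [nn_sum hJ0] at hEBw
  rw [← hEB, ← hEBw]
  set A₁ : ℕ → (ℕ → Γ) → ℝ≥0∞ := fun k x =>
    if MidGood S C o (η₂ * (nn n J k : ℕ)) (x k) then 0 else 1 with hA₁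
  set A₂ : ℕ → (ℕ → Γ) → ℝ≥0∞ := fun k x =>
    if η₁ * (nn n J k : ℕ) ≤ dist o (x k • o) then 0 else 1 with hA₂
  set A₃ : ℕ → (ℕ → Γ) → ℝ≥0∞ := fun k x =>
    if ε * N < gp ((x (kp J k))⁻¹ • o) (x k • o) o then 1 else 0 with hA₃
  set A₄ : ℕ → (ℕ → Γ) → ℝ≥0∞ := fun k x =>
    if FF G S C o (η₂ * N) (2 * (ε * N)) (10000 * C) n x J k then 1 else 0 with hA₄
  have hpt : EB p J (fun x => if IsFreeGroup (Subgroup.normalClosure
      {((pre x J : Γ) : G) ^ charIndex X hX Γ}) then (0 : ℝ≥0∞) else 1) ≤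
      EB p J (fun x => (if WPD X ((pre x J : Γ) : G) then (0 : ℝ≥0∞) else 1) +
        ∑ k ∈ Finset.range J, (A₁ k x + A₂ k x + A₃ k x + A₄ k x)) := by
    apply EB_mono
    intro x hx
    by_cases hw : WPD X ((pre x J : Γ) : G)
    swap
    · rw [if_neg hw]
      refine le_trans ?_ le_self_add
      split_ifs <;> simp
    by_cases hall : ∀ k, k < J → MidGood S C o (η₂ * (nn n J k : ℕ)) (x k) ∧
        η₁ * (nn n J k : ℕ) ≤ dist o (x k • o) ∧
        ¬ ε * N < gp ((x (kp J k))⁻¹ • o) (x k • o) o ∧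
        ¬ FF G S C o (η₂ * N) (2 * (ε * N)) (10000 * C) n x J k
    swap
    · push Not at hall
      obtain ⟨k, hk, hbad⟩ := hall
      have h1 : 1 ≤ A₁ k x + A₂ k x + A₃ k x + A₄ k x := by
        by_cases b1 : MidGood S C o (η₂ * (nn n J k : ℕ)) (x k)
        swap
        · have : A₁ k x = 1 := if_neg b1
          rw [this, add_assoc, add_assoc]
          exact le_self_add
        by_cases b2 : η₁ * (nn n J k : ℕ) ≤ dist o (x k • o)
        swap
        · have : A₂ k x = 1 := if_neg b2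
          rw [this, add_assoc, add_assoc]
          exact le_trans le_self_add le_add_self
        by_cases b3 : ε * N < gp ((x (kp J k))⁻¹ • o) (x k • o) o
        · have : A₃ k x = 1 := if_pos b3
          rw [this, add_assoc]
          exact le_trans le_self_add le_add_self
        · have : A₄ k x = 1 := if_pos (hbad b1 b2 (not_lt.1 b3))
          rw [this]
          exact le_add_self
      calc _ ≤ (1 : ℝ≥0∞) := by split_ifs <;> simp
        _ ≤ A₁ k x + A₂ k x + A₃ k x + A₄ k x := h1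
        _ ≤ ∑ k ∈ Finset.range J, (A₁ k x + A₂ k x + A₃ k x + A₄ k x) :=
          Finset.single_le_sum (f := fun k => A₁ k x + A₂ k x + A₃ k x + A₄ k x)
            (fun _ _ => zero_le) (Finset.mem_range.2 hk)
        _ ≤ _ := le_add_self
    rw [if_pos]
    · exact zero_le
    apply det_free (ℓ := η₁ * N) (ℓ₁ := η₂ * N) (ℓm := 2 * R * N) (e₀ := ε * N)
      (θ := 1000 * q ^ 2 * (8 * R * N)) (K₁ := K₁) (K₂ := K₁ + 10000 * C) (c₃ := 10000 * C)
      (L := J * (η₂ * N / 4)) (q := q) (n₀ := n) hX hgeo hδC hC hS hE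
    · intro k hk
      exact (hall k hk).1.mono (mul_le_mul_of_nonneg_left (hgeR k) hη₂.le)
    · intro k hk
      exact (mul_le_mul_of_nonneg_left (hgeR k) hη₁.le).trans (hall k hk).2.1
    · intro k hk
      exact hlen k hk _ (hx k hk)
    · intro k hk
      have := (hall (k + 1) hk).2.2.1
      have e1 : kp J (k + 1) = k := by
        unfold kp
        rw [if_neg (by omega)]
        omega
      rw [e1] at this
      exact not_lt.1 this
    · have := (hall 0 hJ0).2.2.1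
      have e1 : kp J 0 = J - 1 := if_pos rfl
      rw [e1] at this
      exact not_lt.1 this
    · intro k hk
      exact (hall k hk).2.2.2
    · exact hw
    · linarith
    · calc 1000 * (2 * (ε * N)) = 2000 * ε * N := by ring
        _ ≤ η₁ * N := by
          gcongr
          linarith
    · calc 1000 * (2 * (ε * N)) = 4000 * ε * N / 2 := by ring
        _ ≤ η₂ * N / 2 := by gcongr
    · exact hq0
    · calc 10 * (2 * (2 * R * N + 8 * C)) ≤ 160 * R * N / 2 := by linarith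
        _ ≤ q * η₂ * N / 2 := by gcongr
        _ = q * (η₂ * N / 2) := by ring
    · exact hJq
    · exact mul_le_mul_of_nonneg_left hup (by positivity)
    · calc 1000000 * (10 * C) * (2 * (2 * R * N + 8 * C))
          ≤ 1000000 * (10 * C) * (8 * R * N) := mul_le_mul_of_nonneg_left hup (by positivity)
        _ = 80000000 * C * R * N := by ring
        _ ≤ K₁ * η₁ * N := by gcongr
        _ = K₁ * (η₁ * N) := by ring
    · linarith
    · calc 100 * (2 * (2 * R * N + 8 * C)) ≤ 800 * R * N := by linarith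
        _ ≤ K₁ * n := by gcongr
    · linarith
    · calc 1000 * (1000 * q ^ 2 * (8 * R * N) + 10 * C + δ + 1)
          ≤ 1000 * (8000 * q ^ 2 * R + 1) * N := by linarith
        _ = 4000 * (8000 * q ^ 2 * R + 1) * (N / 4) := by ring
        _ ≤ J * η₂ * (N / 4) := by gcongr
        _ = J * (η₂ * N / 4) := by ring
    · exact le_rfl
  refine hpt.trans ?_
  rw [EB_add]
  gcongr
  rw [EB_sum, hΨ]
  refine Finset.sum_le_sum fun k hk => ?_
  have hkJ : k < J := Finset.mem_range.1 hk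
  rw [EB_add, EB_add, EB_add]
  have b1 : EB p J (A₁ k) ≤ κ₂ N :=
    eb_one p hkJ (fun y => if MidGood S C o (η₂ * (nn n J k : ℕ)) y then 0 else 1)
      ((hd₂ (nn n J k)).trans (ofReal_pow_anti hB₂ hc₂ hc₂' (hge k)))
  have b2 : EB p J (A₂ k) ≤ κ₁ N :=
    eb_one p hkJ (fun y => if η₁ * (nn n J k : ℕ) ≤ dist o (y • o) then 0 else 1)
      ((hd₁ (nn n J k)).trans (ofReal_pow_anti hB₁ hc₁ hc₁' (hge k)))
  have b3 : EB p J (A₃ k) ≤ κ₃ N := eb_two p hJ1 hkJ (hshk k)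
  have b4 : EB p J (A₄ k) ≤ ENNReal.ofReal (D * ((N : ℝ) + 1) ^ 3) * κ₃ N := by
    refine (eb_FF hX p hJ1 hkJ (by positivity) (by positivity) hlen hfin hcard
      (hshk' k)).trans ?_
    gcongr
    rw [← ENNReal.ofReal_natCast]
    apply ENNReal.ofReal_le_ofReal
    push_cast
    have f1 : (⌊J * (2 * R * N) + 2 * (10000 * C)⌋₊ : ℝ) ≤ J * (2 * R * N) + 2 * (10000 * C) :=
      Nat.floor_le (by positivity)
    have f2 : (⌊J * (2 * R * N) + 2 * (10000 * C)⌋₊ : ℝ) + 1 ≤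
        (J * (2 * R) + 2 * (10000 * C) + 1) * (N + 1) := by
      have g1 : 0 ≤ (J * (2 * R)) := by positivity
      have g2 : 0 ≤ 2 * (10000 * C) * N := by positivity
      linarith
    have f3 : (n : ℝ) + 3 ≤ (J + 3) * (N + 1) := by
      have g1 : n < J * N + J := by
        have := Nat.div_add_mod n J
        have h2 := Nat.mod_lt n hJ0
        rw [← hN] at this
        omega
      have g2 : (n : ℝ) ≤ J * N + J := by exact_mod_cast g1.le
      linarith
    calc (E₀ : ℝ) * ((⌊J * (2 * R * N) + 2 * (10000 * C)⌋₊ : ℝ) + 1) ^ 2 * (n + 3)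
        ≤ E₀ * ((J * (2 * R) + 2 * (10000 * C) + 1) * (N + 1)) ^ 2 * ((J + 3) * (N + 1)) := by
          gcongr
      _ = D * (N + 1) ^ 3 := by
          rw [hD]
          ring
  exact add_le_add (add_le_add (add_le_add b1 b2) b3) b4

end main

end Pool.Agent.H88.WPD
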