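import Pool.Agent.H88.WPD.FinD
import Pool.Agent.H88.WPD.EmuFin

/-!
Part (c).
-/

namespace Pool.Agent.H88.WPD

open scoped ENNReal

variable {X : Type*} [PseudoMetricSpace X] {δ : ℝ}
variable {G : Type*} [Group G] [MulAction G X] [IsIsometricSMul G X]

omit [IsIsometricSMul G X] in
theorem Stab.mono {K K' : ℝ} (h : K ≤ K') (u v : X) : Stab G K u v ⊆ Stab G K' u v :=
  fun _ hg => ⟨hg.1.trans h, hg.2.trans h⟩

/-- Part (c). -/
theorem partC (hX : Hyp X δ) (hgeo : Geod X) (μ : PMF G) (hμ : NonElementary X μ)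
    (hw : ∃ h ∈ Subsemigroup.closure μ.support, WPD X h) (hrev : Reversible μ)
    (hbd : ∃ (x : X) (R : ℝ), ∀ g ∈ μ.support, dist x (g • x) ≤ R) :
    ∃ B c : ℝ, 0 < B ∧ 0 < c ∧ c < 1 ∧ ∀ n : ℕ, 1 - B * c ^ n ≤ Pr (walk μ n)
      {w | IsFreeGroup (Subgroup.normalClosure
        {w ^ charIndex X hX (Subgroup.closure μ.support)})} := by
  classical
  obtain ⟨o, R₀, hR₀⟩ := hbd
  obtain ⟨R, hR0, hRμ⟩ : ∃ R : ℝ, 0 < R ∧ ∀ g ∈ μ.support, dist o (g • o) ≤ R :=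
    ⟨max R₀ 1, lt_max_of_lt_right one_pos, fun g hg => (hR₀ g hg).trans (le_max_left _ _)⟩
  have hδ : 0 ≤ δ := hX.nonneg o
  set Γ := Subgroup.closure μ.support with hΓ
  have hsub : ∀ g ∈ μ.support, g ∈ Γ := fun g hg => Subgroup.subset_closure hg
  set ν := subPMF μ Γ hsub with hν
  have hRν : ∀ g ∈ ν.support, dist o (g • o) ≤ R := by
    intro g hg
    exact hRμ (g : G) ((PMF.mem_support_iff μ _).2 ((PMF.mem_support_iff ν _).1 hg))
  obtain ⟨C, hC, hδC, hSch⟩ := schottkyE hX μ hμ hw hrev o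
  obtain ⟨S₁, L₁, hL₁, hS₁, hpos₁, _, _, _⟩ := hSch C le_rfl 0 le_rfl
  obtain ⟨η₁, hη₁, B₁, c₁, hB₁, hc₁, hc₁', hmid₁⟩ := mid_decay hX hδC hC hS₁ hL₁ hpos₁ hRμ
  obtain ⟨K, hK⟩ : ∃ K : ℝ, K = max (80000000 * C * R / η₁ + 800 * R + 10000 * C)
    (2 * (10000 * C) + 2 * δ + 1) := ⟨_, rfl⟩
  have hK1 : 80000000 * C * R / η₁ + 800 * R + 10000 * C ≤ K := by
    rw [hK]
    exact le_max_left _ _
  have hK2 : 2 * (10000 * C) + 2 * δ + 1 ≤ K := by
    rw [hK]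
    exact le_max_right _ _
  have hK0 : 0 ≤ K := le_trans (by positivity) hK2
  obtain ⟨S₂, L₂, hL₂, hS₂, hpos₂, hS₂Γ, hE, hfin⟩ := hSch C le_rfl K hK0
  set S : Finset Γ := S₂.subtype (· ∈ Γ) with hS
  have hSS : Sch S C o := sch_sub hS₂ hS₂Γ
  have hpos : ∀ a ∈ S, walk ν L₂ a ≠ 0 := by
    intro a ha
    rw [hν, walk_sub]
    exact hpos₂ _ (Finset.mem_subtype.1 ha)
  obtain ⟨η₂, hη₂, B₂, c₂, hB₂, hc₂, hc₂', hmid₂⟩ := mid_decay hX hδC hC hSS hL₂ hpos hRν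
  have main := partC_core (o := o) hX hgeo ν hδC hC hSS hR0 hRν hη₁ hη₂ ?_
    ⟨B₂, c₂, hB₂, hc₂, hc₂', hmid₂⟩
    (fun ε hε => shadow_decay hX hδC hC hSS hL₂ hpos hR0 hRν hε) ?_
    (fun a ha => (Stab.mono hK1 _ _).trans (hE _ (Finset.mem_subtype.1 ha)))
    (fun a ha => (hfin _ (Finset.mem_subtype.1 ha)).subset (Stab.mono hK2 _ _))
  · obtain ⟨B, c, hB, hc, hc1, hd⟩ := main
    refine ⟨B, c, hB, hc, hc1, fun n => ?_⟩
    apply Pr_ge (φ := fun w : G =>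
      (if IsFreeGroup (Subgroup.normalClosure {w ^ charIndex X hX Γ}) then (0 : ℝ≥0∞) else 1))
      _ _ (by positivity)
    · rw [← walk_sub_tsum μ Γ hsub n]
      exact hd n
    · intro w hw
      exact if_neg hw
  · refine ES.mono ⟨B₁, c₁, hB₁, hc₁, hc₁', hmid₁⟩ fun n => ?_
    have h1 := walk_sub_tsum μ Γ hsub n
      (fun x : G => (if η₁ * n ≤ dist o (x • o) then (0 : ℝ≥0∞) else 1))
    refine le_trans (le_of_eq h1) ?_
    refine ENNReal.tsum_le_tsum fun x => ?_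
    gcongr
    by_cases h2 : MidGood S₁ C o (η₁ * n) x
    · rw [if_pos (h2.len hX hδC hC hS₁)]
      exact zero_le
    · rw [if_neg h2]
      split_ifs <;> simp
  · have h1 := partA_sum hX μ hμ hw o
    refine ES.mono h1 fun n => ?_
    exact le_of_eq (walk_sub_tsum μ Γ hsub n
      (fun x : G => (if WPD X x then (0 : ℝ≥0∞) else 1)))

/-- The stabiliser of the limit set is finite, its characteristic index is positive. -/
theorem emu_fin (hX : Hyp X δ) (μ : PMF G) (hμ : NonElementary X μ)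
    (hw : ∃ h ∈ Subsemigroup.closure μ.support, WPD X h) :
    (FixLim X (Subgroup.closure μ.support)).Finite ∧
      0 < charIndex X hX (Subgroup.closure μ.support) := by
  obtain ⟨f, hf, g, hg, hI⟩ := hμ
  obtain ⟨h, hh, hwpd⟩ := hw
  have h1 := fixLim_finite hX (mem_closure_group hf) (mem_closure_group hg) hI
    (mem_closure_group hh) hwpd
  exact ⟨h1, charIndex_pos hX h1⟩

end Pool.Agent.H88.WPD
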