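import Pool.Agent.H88.WPD.Emu
import Pool.Agent.H88.WPD.Cyc

/-!
Elements of Γ whose coarse stabiliser is contained in the pointwise stabiliser of the limit
set.
-/

namespace Pool.Agent.H88.WPD

open Relation

section kill

variable {X : Type*} [PseudoMetricSpace X] {δ C : ℝ} {o : X}
variable {G : Type*} [Group G] [MulAction G X] [IsIsometricSMul G X]

/-- An element outside E moves some points far out along h a lot. -/
theorem far_point (hX : Hyp X δ) {Γ : Subgroup G} {h : G} (hw : WPD X h) {η : G}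
    (hη : η ∉ FixLim X Γ) (o : X) {K : ℝ} (hK : 0 ≤ K) :
    ∃ γ ∈ Γ, ∀ J : ℕ, ∃ j, J ≤ j ∧ K < dist (h ^ j • γ • o) (η • h ^ j • γ • o) := by
  by_cases hc : ∀ J : ℕ, ∃ j, J ≤ j ∧ K < dist (h ^ j • o) (η • h ^ j • o)
  · exact ⟨1, Γ.one_mem, by simpa using hc⟩
  push Not at hc
  obtain ⟨J₀, hJ₀⟩ := hc
  obtain ⟨M, hM⟩ := stab_large hX hw o K hK
  have hfin := hM M le_rfl
  have hmem : ∀ j : ℕ, (h ^ (J₀ + j))⁻¹ * η * h ^ (J₀ + j) ∈ Stab G K o (h ^ M • o) := by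
    intro j
    constructor
    · have e1 : dist o (((h ^ (J₀ + j))⁻¹ * η * h ^ (J₀ + j)) • o) =
          dist (h ^ (J₀ + j) • o) (η • h ^ (J₀ + j) • o) := by
        rw [← dist_smul (h ^ (J₀ + j)) o, mul_smul, mul_smul, smul_inv_smul]
      rw [e1]
      exact hJ₀ _ (Nat.le_add_right _ _)
    · have e1 : dist (h ^ M • o) (((h ^ (J₀ + j))⁻¹ * η * h ^ (J₀ + j)) • h ^ M • o) =
          dist (h ^ (J₀ + j + M) • o) (η • h ^ (J₀ + j + M) • o) := by
        rw [← dist_smul (h ^ (J₀ + j)) (h ^ M • o), mul_smul, mul_smul, smul_inv_smul,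
          pow_add h (J₀ + j) M, mul_smul]
      rw [e1]
      exact hJ₀ _ (by omega)
  obtain ⟨a, b, hab, heq⟩ := hfin.exists_lt_map_eq_of_forall_mem hmem
  obtain ⟨p, rfl⟩ := Nat.exists_eq_add_of_lt hab
  have hcomm : h ^ (p + 1) * η = η * h ^ (p + 1) := by
    have e1 : J₀ + (a + p + 1) = (p + 1) + (J₀ + a) := by ring
    rw [e1, pow_add h (p + 1) (J₀ + a)] at heq
    have e2 : η = (h ^ (p + 1))⁻¹ * η * h ^ (p + 1) := by
      have h1 : h ^ (J₀ + a) * ((h ^ (J₀ + a))⁻¹ * η * h ^ (J₀ + a)) * (h ^ (J₀ + a))⁻¹ =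
        h ^ (J₀ + a) * ((h ^ (p + 1) * h ^ (J₀ + a))⁻¹ * η * (h ^ (p + 1) * h ^ (J₀ + a))) *
          (h ^ (J₀ + a))⁻¹ := by rw [heq]
      have h2 : h ^ (J₀ + a) * h ^ (p + 1) = h ^ (p + 1) * h ^ (J₀ + a) := by
        rw [← pow_add, ← pow_add, add_comm]
      have h3 : h ^ (J₀ + a) * ((h ^ (J₀ + a))⁻¹ * η * h ^ (J₀ + a)) * (h ^ (J₀ + a))⁻¹ = η := by
        group
      have h4 : h ^ (J₀ + a) * ((h ^ (p + 1) * h ^ (J₀ + a))⁻¹ * η *
          (h ^ (p + 1) * h ^ (J₀ + a))) * (h ^ (J₀ + a))⁻¹ =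
          (h ^ (p + 1))⁻¹ * η * h ^ (p + 1) := by group
      rw [h3, h4] at h1
      exact h1
    calc h ^ (p + 1) * η = h ^ (p + 1) * ((h ^ (p + 1))⁻¹ * η * h ^ (p + 1)) := by rw [← e2]
      _ = η * h ^ (p + 1) := by group
  have hcomm2 : ∀ m : ℕ, h ^ ((p + 1) * m) * η = η * h ^ ((p + 1) * m) := by
    intro m
    rw [pow_mul]
    exact (Commute.pow_left (show Commute (h ^ (p + 1)) η from hcomm) m)
  have h5 : ∃ γ ∈ Γ, K < dist (γ • o) (η • γ • o) := by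
    by_contra hcon
    push Not at hcon
    exact hη (fixLim_of_bdd hcon)
  obtain ⟨γ, hγ, hlt⟩ := h5
  refine ⟨γ, hγ, fun J => ⟨(p + 1) * J, Nat.le_mul_of_pos_left _ (by omega), ?_⟩⟩
  have e1 : η • h ^ ((p + 1) * J) • γ • o = h ^ ((p + 1) * J) • η • γ • o := by
    rw [← mul_smul, ← hcomm2, mul_smul]
  rw [e1, dist_smul]
  exact hlt

omit [IsIsometricSMul G X] in
theorem letter_choice (hX : Hyp X δ) {S : Finset G}
    (hS : Sch S C o) {u : ℕ → X} (hu : Asy u u) (y : X) :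
    ∃ s ∈ S, gp y (s • o) o ≤ C ∧ ∃ J : ℕ, ∀ j, J ≤ j → gp (s⁻¹ • o) (u j) o ≤ C + δ := by
  classical
  by_contra hcon
  push Not at hcon
  have h1 : (S.filter (fun a => C < gp y (a • o) o)).card ≤ 1 := by
    apply card_filter_le_one
    intro a ha a' ha' h5 h6
    exact hS.fwd _ a ha a' ha' h5 h6
  have h2 := Finset.card_filter_add_card_filter_not (s := S) (fun a => C < gp y (a • o) o)
  rw [hS.card] at h2
  have h3 : 1 < (S.filter (fun a => ¬ C < gp y (a • o) o)).card := by omega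
  obtain ⟨s, hs, s', hs', hne⟩ := Finset.one_lt_card.1 h3
  rw [Finset.mem_filter] at hs hs'
  apply hne
  obtain ⟨N, hN⟩ := hu o (C + δ + 1)
  have key : ∀ s ∈ S, ¬ C < gp y (s • o) o → C < gp (u N) (s⁻¹ • o) o := by
    intro s hs h4
    obtain ⟨j, hj, h5⟩ := hcon s hs (not_lt.1 h4) N
    have h6 := hN j hj N le_rfl
    have h7 := hX (s⁻¹ • o) (u j) (u N) o
    have h8 : C + δ < min (gp (s⁻¹ • o) (u j) o) (gp (u j) (u N) o) := lt_min h5 (by linarith)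
    rw [gp_comm]
    linarith
  exact hS.bwd (u N) s hs.1 s' hs'.1 (key s hs.1 hs.2) (key s' hs'.1 hs'.2)

/-- The state of the construction. -/
structure KSt (X : Type*) [PseudoMetricSpace X] {G : Type*} [Group G] [MulAction G X]
    (C : ℝ) (o : X) (Γ : Subgroup G) (h : G) (K T : ℝ) (M : ℕ) (v : G) (R : Set G) : Prop where
  mem : v ∈ Γ
  sub : ∀ z : X, ReflTransGen (RStep o (4 * C) (20 * C)) (v • o) z → Stab G K o z ⊆ R
  dir : ∀ z : X, ReflTransGen (RStep o (4 * C) (20 * C)) (v • o) z → T ≤ gp z (h ^ M • o) o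
  junc : ∃ J : ℕ, ∀ j, J ≤ j → gp (v⁻¹ • o) (h ^ j • o) o ≤ 3 * C

theorem kill_step (hX : Hyp X δ) (hδC : δ ≤ C) (hC : 0 < C) {S : Finset G} (hS : Sch S C o)
    {Γ : Subgroup G} (hSΓ : ∀ a ∈ S, a ∈ Γ) {h : G} (hΓ : h ∈ Γ) (hw : WPD X h) {K T : ℝ}
    (hK : 0 ≤ K) {M : ℕ} {v : G} {R : Set G} (hv : KSt X C o Γ h K T M v R) {g : G}
    (hgE : g ∉ FixLim X Γ) : ∃ v' : G, KSt X C o Γ h K T M v' (R \ {g}) := by
  have hδ : 0 ≤ δ := hX.nonneg o
  have hη : v⁻¹ * g * v ∉ FixLim X Γ := by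
    intro h1
    apply hgE
    have := conj_mem_fixLim hv.mem h1
    have e1 : v * (v⁻¹ * g * v) * v⁻¹ = g := by group
    rwa [e1] at this
  obtain ⟨γ, hγ, hfar⟩ := far_point hX hw hη o (K := K + 14 * C) (by positivity)
  obtain ⟨J₁, hJ₁⟩ := hv.junc
  obtain ⟨J₂, hJ₂⟩ := lox_tend hw.1 o (dist o (γ • o) + 30 * C)
  obtain ⟨j, hj, hjf⟩ := hfar (max J₁ J₂)
  have hj1 := hJ₁ j (le_of_max_le_left hj)
  have hj2 := hJ₂ j (le_of_max_le_right hj)
  set k : G := h ^ j * γ with hk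
  have hko : k • o = h ^ j • γ • o := mul_smul _ _ _
  have d1 : dist (k • o) (h ^ j • o) = dist o (γ • o) := by
    rw [hko, dist_smul, dist_comm]
  have d2 : dist o (h ^ j • o) ≤ dist o (k • o) + dist (k • o) (h ^ j • o) :=
    dist_triangle _ _ _
  have g1 : gp (v⁻¹ • o) (k • o) o ≤ 4 * C := by
    have h1 : gp (v⁻¹ • o) (k • o) o ≤ 3 * C + δ := by
      apply hX.le hj1
      have e1 : gp (k • o) (h ^ j • o) o + gp (k • o) o (h ^ j • o) = dist (h ^ j • o) o :=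
        gp_add _ _ _
      have e2 : gp (k • o) o (h ^ j • o) ≤ dist (k • o) (h ^ j • o) := gp_le_left _ _ _
      have e3 : dist (h ^ j • o) o = dist o (h ^ j • o) := dist_comm _ _
      linarith
    linarith
  obtain ⟨s, hs, hs1, J₃, hJ₃⟩ := letter_choice hX hS (lox_asy hX hw.1 o)
    ((v * k)⁻¹ • o)
  have hls := hS.len s hs
  have st1 : RStep o (4 * C) (20 * C) (v • o) ((v * k) • o) := by
    constructor
    · rw [mul_smul, gp_inv_smul]
      exact g1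
    · rw [mul_smul, dist_smul]
      linarith
  have st2 : RStep o (4 * C) (20 * C) ((v * k) • o) ((v * k * s) • o) := by
    constructor
    · rw [mul_smul (v * k) s, gp_inv_smul]
      linarith
    · rw [mul_smul (v * k) s, dist_smul]
      linarith
  have hchain : ∀ z : X, ReflTransGen (RStep o (4 * C) (20 * C)) ((v * k * s) • o) z →
      ReflTransGen (RStep o (4 * C) (20 * C)) (v • o) z := fun z hz =>
    ReflTransGen.head st1 (ReflTransGen.head st2 hz)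
  refine ⟨v * k * s, ?_, ?_, ?_, ?_⟩
  · exact Γ.mul_mem (Γ.mul_mem hv.mem (Γ.mul_mem (Γ.pow_mem hΓ _) hγ)) (hSΓ s hs)
  · intro z hz g' hg'
    refine ⟨hv.sub z (hchain z hz) hg', ?_⟩
    intro h1
    rw [Set.mem_singleton_iff] at h1
    subst h1
    have h2 : gp o z ((v * k) • o) ≤ 4 * C + 2 * δ :=
      chain_head hX (by linarith) hδ hz o _ st2 (by have := st2.1; linarith)
    have h3 := stab_mid hX hg' h2
    have h4 : dist ((v * k) • o) (g' • (v * k) • o) =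
        dist (h ^ j • γ • o) ((v⁻¹ * g' * v) • h ^ j • γ • o) := by
      rw [← dist_smul v (h ^ j • γ • o)]
      congr 1
      · rw [← hko, mul_smul]
      · rw [← hko]
        simp only [mul_smul, smul_inv_smul]
    rw [h4] at h3
    linarith
  · intro z hz
    exact hv.dir z (hchain z hz)
  · refine ⟨J₃, fun i hi => ?_⟩
    have h1 := jn_mul_left (o := o) (f := v * k) (g := s) (k := h ^ i) hX (hJ₃ i hi) hs1
      (by linarith)
    linarith

theorem kill_start (hX : Hyp X δ) (hδC : δ ≤ C) (hC : 0 < C) {S : Finset G} (hS : Sch S C o)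
    {Γ : Subgroup G} (hSΓ : ∀ a ∈ S, a ∈ Γ) {h : G} (hΓ : h ∈ Γ) (hw : WPD X h) {K T : ℝ}
    (hK : 0 ≤ K) (N₀ : ℕ) : ∃ (M : ℕ) (v : G) (R : Set G), N₀ ≤ M ∧ R.Finite ∧
      KSt X C o Γ h K T M v R := by
  have hδ : 0 ≤ δ := hX.nonneg o
  obtain ⟨M₁, hM₁⟩ := stab_large hX hw o (K + 14 * C) (by positivity)
  obtain ⟨M₂, hM₂⟩ := lox_tend hw.1 o (T + 20 * C)
  obtain ⟨M₃, hM₃⟩ := lox_tend hw.1 o (20 * C)
  set M := N₀ + M₁ + M₂ + M₃ with hM
  have hMl := hM₂ M (by omega)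
  have hMl' := hM₃ M (by omega)
  obtain ⟨s, hs, hs1, J₃, hJ₃⟩ := letter_choice hX hS (lox_asy hX hw.1 o)
    ((h ^ M)⁻¹ • o)
  have hls := hS.len s hs
  have st1 : RStep o (4 * C) (20 * C) (h ^ M • o) ((h ^ M * s) • o) := by
    constructor
    · rw [mul_smul, gp_inv_smul]
      linarith
    · rw [mul_smul, dist_smul]
      linarith
  have hch : ∀ z : X, ReflTransGen (RStep o (4 * C) (20 * C)) ((h ^ M * s) • o) z →
      gp o z (h ^ M • o) ≤ 6 * C := by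
    intro z hz
    have h2 : gp o z (h ^ M • o) ≤ 4 * C + 2 * δ :=
      chain_head hX (by linarith) hδ hz o _ st1 (by have := st1.1; linarith)
    linarith
  refine ⟨M, h ^ M * s, Stab G (K + 14 * C) o (h ^ M • o), by omega, hM₁ M (by omega),
    ?_, ?_, ?_, ?_⟩
  · exact Γ.mul_mem (Γ.pow_mem hΓ _) (hSΓ s hs)
  · intro z hz g hg
    have h3 := stab_mid hX hg (hch z hz)
    exact ⟨by have := hg.1; linarith, by linarith⟩
  · intro z hz
    have e1 : gp z (h ^ M • o) o + gp z o (h ^ M • o) = dist (h ^ M • o) o := gp_add _ _ _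
    have e2 : gp z o (h ^ M • o) = gp o z (h ^ M • o) := gp_comm _ _ _
    have e3 := hch z hz
    have e4 : dist (h ^ M • o) o = dist o (h ^ M • o) := dist_comm _ _
    linarith
  · refine ⟨J₃, fun i hi => ?_⟩
    have h1 := jn_mul_left (o := o) (f := h ^ M) (g := s) (k := h ^ i) hX (hJ₃ i hi) hs1
      (by linarith)
    linarith

theorem kill_ind (hX : Hyp X δ) (hδC : δ ≤ C) (hC : 0 < C) {S : Finset G} (hS : Sch S C o)
    {Γ : Subgroup G} (hSΓ : ∀ a ∈ S, a ∈ Γ) {h : G} (hΓ : h ∈ Γ) (hw : WPD X h) {K T : ℝ}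
    (hK : 0 ≤ K) {M : ℕ} : ∀ (n : ℕ) (v : G) (R : Set G), R.Finite →
      (R \ FixLim X Γ).ncard ≤ n → KSt X C o Γ h K T M v R →
      ∃ (v' : G) (R' : Set G), KSt X C o Γ h K T M v' R' ∧ R' ⊆ FixLim X Γ ∧ R'.Finite := by
  intro n
  induction n with
  | zero =>
    intro v R hRf hn hv
    have hfin : (R \ FixLim X Γ).Finite := hRf.subset Set.sdiff_subset
    refine ⟨v, R, hv, ?_, hRf⟩
    have h1 : (R \ FixLim X Γ).ncard = 0 := by omega
    rw [Set.ncard_eq_zero hfin, Set.sdiff_eq_empty] at h1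
    exact h1
  | succ n ih =>
    intro v R hRf hn hv
    have hfin : (R \ FixLim X Γ).Finite := hRf.subset Set.sdiff_subset
    by_cases hsub : R ⊆ FixLim X Γ
    · exact ⟨v, R, hv, hsub, hRf⟩
    obtain ⟨g, hg, hgE⟩ := Set.not_subset.1 hsub
    obtain ⟨v', hv'⟩ := kill_step hX hδC hC hS hSΓ hΓ hw hK hv hgE
    have e1 : (R \ {g}) \ FixLim X Γ = (R \ FixLim X Γ) \ {g} := by
      ext x
      simp only [Set.mem_sdiff, Set.mem_singleton_iff]
      tauto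
    apply ih v' (R \ {g}) (hRf.subset Set.sdiff_subset) _ hv'
    · rw [e1, Set.ncard_sdiff_singleton_of_mem (show g ∈ R \ FixLim X Γ from ⟨hg, hgE⟩)]
      omega

/-- There are elements of Γ, beginning and ending with high powers of h, whose coarse
stabiliser is contained in the pointwise stabiliser of the limit set. -/
theorem kill (hX : Hyp X δ) (hδC : δ ≤ C) (hC : 0 < C) {S : Finset G} (hS : Sch S C o)
    {Γ : Subgroup G} (hSΓ : ∀ a ∈ S, a ∈ Γ) {h : G} (hΓ : h ∈ Γ) (hw : WPD X h) {K T : ℝ}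
    (hK : 0 ≤ K) (N₀ : ℕ) : ∃ κ ∈ Γ, Stab G K o (κ • o) ⊆ FixLim X Γ ∧
      (Stab G K o (κ • o)).Finite ∧ (∃ m, N₀ ≤ m ∧ T ≤ gp (κ • o) (h ^ m • o) o) ∧
      (∃ m, N₀ ≤ m ∧ T ≤ gp (κ⁻¹ • o) ((h⁻¹) ^ m • o) o) := by
  obtain ⟨M, v, R, hM, hR, hv⟩ := kill_start hX hδC hC hS hSΓ hΓ hw (T := T) hK N₀
  obtain ⟨v', R', hv', hR', hRf'⟩ := kill_ind hX hδC hC hS hSΓ hΓ hw hK _ v R hR le_rfl hv
  obtain ⟨J, hJ⟩ := hv'.junc
  obtain ⟨M₂, hM₂⟩ := lox_tend hw.1 o (T + 20 * C)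
  obtain ⟨M₃, hM₃⟩ := lox_tend hw.1 o (20 * C)
  set M' := N₀ + J + M₂ + M₃ with hM'
  have hl := hM₂ M' (by omega)
  have hl' := hM₃ M' (by omega)
  have hj := hJ M' (by omega)
  have st : ReflTransGen (RStep o (4 * C) (20 * C)) (v' • o) ((v' * h ^ M') • o) := by
    apply ReflTransGen.single
    constructor
    · rw [mul_smul, gp_inv_smul]
      linarith
    · rw [mul_smul, dist_smul]
      linarith
  refine ⟨v' * h ^ M', Γ.mul_mem hv'.mem (Γ.pow_mem hΓ _), ?_, ?_, ⟨M, hM, ?_⟩,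
    ⟨M', by omega, ?_⟩⟩
  · exact (hv'.sub _ st).trans hR'
  · exact hRf'.subset (hv'.sub _ st)
  · exact hv'.dir _ st
  · have e1 : gp ((v' * h ^ M')⁻¹ • o) ((h⁻¹) ^ M' • o) o +
        gp ((v' * h ^ M')⁻¹ • o) o ((h⁻¹) ^ M' • o) = dist ((h⁻¹) ^ M' • o) o := gp_add _ _ _
    have e2 : gp ((v' * h ^ M')⁻¹ • o) o ((h⁻¹) ^ M' • o) = gp (v'⁻¹ • o) (h ^ M' • o) o := by
      rw [← gp_smul (X := X) (h ^ M')]
      congr 1
      · rw [← mul_smul]
        congr 1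
        group
      · rw [← mul_smul]
        have : h ^ M' * (h⁻¹) ^ M' = 1 := by rw [inv_pow, mul_inv_cancel]
        rw [this, one_smul]
    have e3 : dist ((h⁻¹) ^ M' • o) o = dist o (h ^ M' • o) := by
      rw [dist_comm, inv_pow, dist_inv_smul]
    linarith

end kill

end Pool.Agent.H88.WPD
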