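import Pool.Agent.H88.WPD.CombB

/-!
Leaf estimates with a length budget: many pivots, shadows.
-/

namespace Pool.Agent.H88.WPD

open scoped ENNReal

section leaf2

variable {X : Type*} [PseudoMetricSpace X]
variable {G : Type*} [Group G] [MulAction G X]
variable {S : Finset G} {C δ A : ℝ} {o : X}

theorem rho_append (F : Frame G) (c : G) (σ₁ σ₂ : List (Frame G)) :
    rho c (σ₁ ++ (F :: σ₂)) = rho (F.b * F.e) σ₁ := by
  cases σ₁ with
  | nil => rfl
  | cons F1 σ => rfl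

theorem Valid.right {c : G} {σ₂ : List (Frame G)} : ∀ {σ₁ : List (Frame G)},
    Valid S C o c (σ₁ ++ σ₂) → Valid S C o c σ₂ := by
  intro σ₁
  induction σ₁ with
  | nil => intro h; exact h
  | cons F σ ih => intro h; exact ih h.1

theorem Valid.left {c : G} {F : Frame G} {σ₂ : List (Frame G)} : ∀ {σ₁ : List (Frame G)},
    Valid S C o c (σ₁ ++ (F :: σ₂)) → Valid S C o (F.b * F.e) σ₁ := by
  intro σ₁
  induction σ₁ with
  | nil => intro _; trivial
  | cons F1 σ ih =>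
    intro h
    obtain ⟨h1, h2, h3, h4, h5⟩ := h
    refine ⟨ih h1, h2, h3, h4, ?_⟩
    have h6 : rho c (σ.append (F :: σ₂)) = rho (F.b * F.e) σ := rho_append F c σ σ₂
    rw [h6] at h5
    exact h5

theorem Wd_append {σ₂ : List (Frame G)} : ∀ {σ₁ : List (Frame G)} {w : G},
    w ∈ Wd (σ₁ ++ σ₂) → ∃ w₂ ∈ Wd σ₂, ∃ w₁ ∈ Wd σ₁, w = w₂ * w₁ := by
  intro σ₁
  induction σ₁ with
  | nil =>
    intro w hw
    exact ⟨w, hw, 1, rfl, by simp⟩
  | cons F σ ih =>
    intro w hw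
    obtain ⟨w', hw', a, ha, rfl⟩ := hw
    obtain ⟨w₂, h2, w₁, h1, rfl⟩ := ih hw'
    exact ⟨w₂, h2, w₁ * (a * (F.b * F.e)), ⟨w₁, h1, a, ha, rfl⟩, by simp [mul_assoc]⟩

theorem Val0.take {F : Frame G} {σ₂ : List (Frame G)} : ∀ {σ₁ : List (Frame G)},
    Val0 S C o (σ₁ ++ (F :: σ₂)) → Val0 S C o (σ₁ ++ [F]) := by
  intro σ₁
  induction σ₁ with
  | nil =>
    intro h
    exact ⟨trivial, h.2.1, h.2.2.1, h.2.2.2.1, h.2.2.2.2.1, by simp⟩
  | cons F1 σ ih =>
    intro h
    refine ⟨ih h.1, h.2.1, h.2.2.1, h.2.2.2.1, h.2.2.2.2.1, ?_⟩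
    intro F2 hF2 a ha
    apply h.2.2.2.2.2 F2 _ a ha
    cases σ with
    | nil => simpa using hF2
    | cons F3 σ3 => simpa using hF2

variable [IsIsometricSMul G X]

theorem wd_grow (h : Hyp X δ) (hδ : 0 ≤ δ) (hδC : δ ≤ C) (hC : 0 < C) (hS : Sch S C o) :
    ∀ (σ : List (Frame G)) (c : G), Valid S C o c σ → ∀ w ∈ Wd σ,
      100 * C * σ.length ≤ dist o ((c * w) • o) ∧
      ∀ a : G, gp ((rho c σ)⁻¹ • o) (a • o) o ≤ C → gp ((c * w)⁻¹ • o) (a • o) o ≤ 3 * C := by
  intro σ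
  induction σ with
  | nil =>
    intro c _ w hw
    have hw1 : w = 1 := hw
    subst hw1
    rw [mul_one]
    refine ⟨by simp, fun a ha => ?_⟩
    simp only [rho] at ha
    linarith
  | cons F σ ih =>
    intro c hv w hw
    obtain ⟨w', hw', a₀, ha₀, rfl⟩ := hw
    obtain ⟨i1, i2⟩ := ih c hv.1 w' hw'
    have hl := i2 a₀ (hv.2.2.2.2 a₀ ha₀).1
    have hal := hS.len a₀ (hv.2.1 ha₀)
    have hb : gp (a₀⁻¹ • o) ((F.b * F.e) • o) o ≤ 2 * C :=
      cs_back h hδ hδC hC hv.2.2.2.1 (hS.len _ hv.2.2.1) (hv.2.2.2.2 a₀ ha₀).2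
    have hmd : 70 * C ≤ dist o ((F.b * F.e) • o) :=
      cs_dist h hδ hδC hC hv.2.2.2.1 (hS.len _ hv.2.2.1)
    have e1 : gp ((c * w' * a₀)⁻¹ • o) ((F.b * F.e) • o) o ≤ 2 * C + δ :=
      jn_mul_left h hb hl (by linarith)
    have e0 : c * (w' * (a₀ * (F.b * F.e))) = c * w' * a₀ * (F.b * F.e) := by group
    rw [e0]
    constructor
    · have j1 := jn_len (o := o) (c * w') a₀
      have j2 := jn_len (o := o) (c * w' * a₀) (F.b * F.e)
      rw [List.length_cons]
      push_cast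
      linarith
    · intro a ha
      simp only [rho] at ha
      have e2 : gp ((c * w' * a₀ * (F.b * F.e))⁻¹ • o) (a • o) o ≤ C + δ :=
        jn_mul_left h ha e1 (by linarith)
      linarith

/-- w = c a t with a in S, no cancellation, and c, t both longer than r. -/
def MidGood (S : Finset G) (C : ℝ) (o : X) (r : ℝ) (w : G) : Prop :=
  ∃ a ∈ S, ∃ c t : G, w = c * (a * t) ∧ gp (c⁻¹ • o) (a • o) o ≤ 3 * C ∧
    gp (a⁻¹ • o) (t • o) o ≤ 3 * C ∧ r ≤ dist o (c • o) ∧ r ≤ dist o (t • o)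

theorem mid_good (h : Hyp X δ) (hδ : 0 ≤ δ) (hδC : δ ≤ C) (hC : 0 < C) (hS : Sch S C o)
    {p : ℕ} {c : G} {F : Frame G} {σ₁ σ₂ : List (Frame G)} (h1 : p ≤ σ₁.length)
    (h2 : p ≤ σ₂.length) (hv : Valid S C o c (σ₁ ++ (F :: σ₂))) :
    ∀ w ∈ Wd (σ₁ ++ (F :: σ₂)), MidGood S C o (100 * C * p) (c * w) := by
  intro w hw
  obtain ⟨w₂', hw₂', w₁, hw₁, rfl⟩ := Wd_append hw
  obtain ⟨w', hw', a, ha, rfl⟩ := hw₂'
  have hvr := hv.right
  obtain ⟨i1, i2⟩ := wd_grow h hδ hδC hC hS σ₂ c hvr.1 w' hw'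
  obtain ⟨i3, _⟩ := wd_grow h hδ hδC hC hS σ₁ (F.b * F.e) hv.left w₁ hw₁
  obtain ⟨i5, _⟩ := mid h hδ hδC hC hS F σ₁ hv.val0.take w₁ hw₁
  have c1 : (p : ℝ) ≤ σ₁.length := by exact_mod_cast h1
  have c2 : (p : ℝ) ≤ σ₂.length := by exact_mod_cast h2
  refine ⟨a, hvr.2.1 ha, c * w', F.b * F.e * w₁, by group, i2 a (hvr.2.2.2.2 a ha).1, ?_, ?_, ?_⟩
  · have := cs_back h hδ hδC hC i5 (hS.len _ hvr.2.2.1) (hvr.2.2.2.2 a ha).2
    linarith
  · refine le_trans ?_ i1
    gcongr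
  · refine le_trans ?_ i3
    gcongr

omit [IsIsometricSMul G X] in
theorem Sm_le_pow (hS : S.card = 40) {φ : G → ℝ≥0∞} (hφ1 : ∀ w, φ w ≤ 1) :
    ∀ (σ : List (Frame G)) (c t : G), Valid S C o c σ → Sm σ φ c t ≤ 40 ^ σ.length := by
  intro σ
  induction σ with
  | nil =>
    intro c t _
    simpa [Sm] using hφ1 (c * t)
  | cons F σ ih =>
    intro c t hv
    have hAc : F.A.card ≤ 40 := by
      rw [← hS]
      exact Finset.card_le_card hv.2.1
    calc Sm (F :: σ) φ c t ≤ ∑ a ∈ F.A, 40 ^ σ.length :=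
          Finset.sum_le_sum fun a _ => ih c _ hv.1
      _ = F.A.card * 40 ^ σ.length := by simp
      _ ≤ (40 : ℕ) * 40 ^ σ.length := by gcongr
      _ = 40 ^ (F :: σ).length := by
        rw [List.length_cons, pow_succ]
        push_cast
        ring

theorem leaf_mid (h : Hyp X δ) (hδ : 0 ≤ δ) (hδC : δ ≤ C) (hC : 0 < C) (hS : Sch S C o)
    {φ : G → ℝ≥0∞} {p : ℕ} (hφ1 : ∀ w, φ w ≤ 1)
    (hφ : ∀ w, MidGood S C o (100 * C * p) w → φ w = 0) :
    ∀ c σ, Valid S C o c σ → Sm σ φ c 1 ≤ 2 ^ (2 * p) * 20 ^ σ.length := by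
  intro c σ hv
  by_cases hp : 2 * p + 1 ≤ σ.length
  · obtain ⟨F, σ₂, h1⟩ : ∃ F σ₂, σ.drop p = F :: σ₂ := by
      cases h2 : σ.drop p with
      | nil =>
        have := congrArg List.length h2
        simp at this
        omega
      | cons F σ₂ => exact ⟨F, σ₂, rfl⟩
    have h2 : σ = σ.take p ++ (F :: σ₂) := by
      rw [← h1, List.take_append_drop]
    have h3 : (σ.take p).length = p := by
      rw [List.length_take]
      omega
    have h4 : p ≤ σ₂.length := by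
      have := congrArg List.length h1
      simp at this
      omega
    rw [h2] at hv
    have h5 := mid_good h hδ hδC hC hS (p := p) (le_of_eq h3.symm) h4 hv
    rw [← h2] at h5
    rw [Sm_zero (φ := φ) σ c 1 (fun w hw => by rw [mul_one]; exact hφ _ (h5 w hw))]
    simp
  · push Not at hp
    calc Sm σ φ c 1 ≤ 40 ^ σ.length := Sm_le_pow hS.card hφ1 σ c 1 hv
      _ = 2 ^ σ.length * 20 ^ σ.length := by rw [← mul_pow]; norm_num
      _ ≤ 2 ^ (2 * p) * 20 ^ σ.length := by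
        gcongr
        · norm_num
        · omega

omit [IsIsometricSMul G X] [MulAction G X] [PseudoMetricSpace X] in
theorem sum_le_one {B : Finset G} {f : G → ℝ≥0∞} (h1 : ∀ a ∈ B, f a ≤ 1)
    (h2 : ∀ a ∈ B, ∀ a' ∈ B, f a ≠ 0 → f a' ≠ 0 → a = a') : ∑ a ∈ B, f a ≤ 1 := by
  classical
  by_cases h3 : ∃ a ∈ B, f a ≠ 0
  · obtain ⟨a, ha, h4⟩ := h3
    rw [Finset.sum_eq_single a]
    · exact h1 a ha
    · intro b hb hne
      by_contra h5
      exact hne (h2 b hb a ha h5 h4)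
    · intro h5
      exact absurd ha h5
  · push Not at h3
    rw [Finset.sum_eq_zero h3]
    exact zero_le

omit [IsIsometricSMul G X] in
theorem le_TT (hA : 0 ≤ A) (c : G) : ∀ σ : List (Frame G), dist o (c • o) ≤ TT o A c σ := by
  intro σ
  induction σ with
  | nil => simp [TT]
  | cons F σ ih =>
    simp only [TT]
    have : 0 ≤ dist o (F.e • o) := dist_nonneg
    linarith

theorem TT_append (hA : ∀ a ∈ S, dist o (a • o) ≤ A) {c a : G} {F' : Frame G} (ha : a ∈ S)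
    (hb : F'.b ∈ S) : ∀ σ : List (Frame G),
      TT o A (c * (a * (F'.b * F'.e))) σ ≤ TT o A c (σ ++ [F']) := by
  intro σ
  induction σ with
  | nil =>
    simp only [TT, List.nil_append]
    have h1 := len_mul o c (a * (F'.b * F'.e))
    have h2 := len_mul o a (F'.b * F'.e)
    have h3 := len_mul o F'.b F'.e
    have h4 := hA a ha
    have h5 := hA _ hb
    linarith
  | cons F σ ih =>
    simp only [TT, List.cons_append]
    linarith

/-- If all the letters are pivots, at most one choice goes into a deep shadow. -/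
theorem shadow_one (h : Hyp X δ) (hδ : 0 ≤ δ) (hδC : δ ≤ C) (hC : 0 < C) (hS : Sch S C o)
    (hA0 : 0 ≤ A) (hA : ∀ a ∈ S, dist o (a • o) ≤ A) {Λ : ℝ} {ζ : X}
    {φ : G → ℝ≥0∞} (hφ1 : ∀ w, φ w ≤ 1) (hφ : ∀ w, φ w ≠ 0 → Λ + 5 * C < gp (w • o) ζ o) :
    ∀ (n : ℕ) (σ : List (Frame G)), σ.length ≤ n → Val0 S C o σ → ∀ c : G,
      (∀ F τ, σ = F :: τ → TT o A c τ ≤ Λ) → Sm σ φ c 1 ≤ 1 := by
  classical
  intro n
  induction n with
  | zero =>
    intro σ hn _ c _
    have : σ = [] := List.length_eq_zero_iff.1 (by omega)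
    subst this
    simpa [Sm] using hφ1 (c * 1)
  | succ n ih =>
    intro σ hn hv c hT
    rcases List.eq_nil_or_concat σ with h0 | ⟨σ', F', h0⟩
    · subst h0
      simpa [Sm] using hφ1 (c * 1)
    rw [List.concat_eq_append] at h0
    subst h0
    have hF' := Val0.last hv
    have hv' : Val0 S C o σ' := Val0.dropLast hv
    have hc : dist o (c • o) ≤ Λ := by
      cases σ' with
      | nil => exact (le_TT hA0 c _).trans (hT F' [] rfl)
      | cons F τ => exact (le_TT hA0 c _).trans (hT F (τ ++ [F']) rfl)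
    rw [Sm_append]
    apply sum_le_one
    · intro a ha
      apply ih σ' (by
        rw [List.length_append, List.length_singleton] at hn
        omega) hv'
      intro F τ hF
      subst hF
      exact (TT_append hA (hF'.2.1 ha) hF'.2.2.1 τ).trans (hT F (τ ++ [F']) rfl)
    · intro a ha a' ha' h1 h2
      by_contra hne
      have ex : ∀ a ∈ F'.A, Sm σ' φ (c * (a * (F'.b * F'.e))) 1 ≠ 0 →
          ∃ r : G, gp (a⁻¹ • o) (r • o) o ≤ 2 * C ∧ Λ + 5 * C < gp ((c * (a * r)) • o) ζ o := by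
        intro a ha h3
        have h4 : ∃ w ∈ Wd σ', φ (c * (a * (F'.b * F'.e)) * (w * 1)) ≠ 0 := by
          by_contra hcon
          push Not at hcon
          exact h3 (Sm_zero σ' _ _ hcon)
        obtain ⟨w, hw, h5⟩ := h4
        obtain ⟨i1, _⟩ := mid h hδ hδC hC hS F' σ' hv w hw
        refine ⟨F'.b * F'.e * w,
          cs_back h hδ hδC hC i1 (hS.len _ hF'.2.2.1) (hF'.2.2.2.2.1 a ha), ?_⟩
        have h6 := hφ _ h5
        have e1 : c * (a * (F'.b * F'.e)) * (w * 1) = c * (a * (F'.b * F'.e * w)) := by group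
        rw [e1] at h6
        exact h6
      obtain ⟨r, hr1, hr2⟩ := ex a ha h1
      obtain ⟨r', hr1', hr2'⟩ := ex a' ha' h2
      have haS := hF'.2.1 ha
      have haS' := hF'.2.1 ha'
      have hal := hS.len a haS
      have hal' := hS.len a' haS'
      have g0 : gp (a' • o) (a • o) o ≤ C := by
        by_contra hcon
        push Not at hcon
        apply hne
        apply hS.fwd (a' • o) a haS a' haS' hcon
        rw [gp_self_left, dist_comm]
        linarith
      have gr : ∀ b s : G, gp (b⁻¹ • o) (s • o) o ≤ 2 * C →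
          dist o (b • o) - 2 * C ≤ gp ((b * s) • o) (b • o) o := by
        intro b s hbs
        have e1 : gp ((b * s) • o) (b • o) o + gp ((b * s) • o) o (b • o) = dist (b • o) o :=
          gp_add _ _ _
        have e2 : gp ((b * s) • o) o (b • o) = gp (b⁻¹ • o) (s • o) o := by
          rw [gp_comm, mul_smul, gp_inv_smul]
        have e3 : dist (b • o) o = dist o (b • o) := dist_comm _ _
        linarith
      have g1 := gr a r hr1
      have g2 := gr a' r' hr1'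
      have g3 : gp (a' • o) ((a * r) • o) o ≤ C + δ := h.le g0 (by linarith)
      have g4 : gp ((a * r) • o) ((a' * r') • o) o ≤ C + δ + δ :=
        h.le (by rw [gp_comm]; exact g3) (by linarith)
      have g5 := h ((c * (a * r)) • o) ζ ((c * (a' * r')) • o) o
      have g6 : Λ + 5 * C < min (gp ((c * (a * r)) • o) ζ o) (gp ζ ((c * (a' * r')) • o) o) :=
        lt_min hr2 (by rw [gp_comm]; exact hr2')
      have g7 := gp_base_le ((c * (a * r)) • o) ((c * (a' * r')) • o) o (c • o)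
      rw [mul_smul c, mul_smul c, gp_smul] at g7
      rw [mul_smul c, mul_smul c] at g5 g6
      linarith

theorem shadow_two (h : Hyp X δ) (hδ : 0 ≤ δ) (hδC : δ ≤ C) (hC : 0 < C) (hS : Sch S C o)
    (hA0 : 0 ≤ A) (hA : ∀ a ∈ S, dist o (a • o) ≤ A) {Λ : ℝ} {ζ : X}
    {φ : G → ℝ≥0∞} (hφ1 : ∀ w, φ w ≤ 1) (hφ : ∀ w, φ w ≠ 0 → Λ + 5 * C < gp (w • o) ζ o) :
    ∀ (σ : List (Frame G)) (c : G), Valid S C o c σ → TT o A c σ ≤ Λ → ∀ t : G,
      Sm σ φ c t ≤ (40 * σ.length + 1 : ℕ) := by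
  classical
  have one : ∀ (F : Frame G) (σ : List (Frame G)) (c t : G), Valid S C o c (F :: σ) →
      TT o A c σ ≤ Λ → CS o C (F.b • o) ((F.b * (F.e * t)) • o) → Sm (F :: σ) φ c t ≤ 1 := by
    intro F σ c t hv hT hcs
    have h1 : Sm (F :: σ) φ c t = Sm (⟨F.A, F.b, F.e * t⟩ :: σ) φ c 1 := by
      simp [Sm]
    rw [h1]
    have hv' : Valid S C o c (⟨F.A, F.b, F.e * t⟩ :: σ) :=
      ⟨hv.1, hv.2.1, hv.2.2.1, hcs, hv.2.2.2.2⟩
    apply shadow_one h hδ hδC hC hS hA0 hA hφ1 hφ _ _ le_rfl hv'.val0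
    intro F2 τ h2
    rw [List.cons.injEq] at h2
    rw [← h2.2]
    exact hT
  intro σ
  induction σ with
  | nil =>
    intro c _ _ t
    simpa [Sm] using hφ1 (c * t)
  | cons F σ ih =>
    intro c hv hT t
    have hAc : F.A.card ≤ 40 := by
      rw [← hS.card]
      exact Finset.card_le_card hv.2.1
    have hTσ : TT o A c σ ≤ Λ := by
      simp only [TT] at hT
      have : 0 ≤ dist o (F.e • o) := dist_nonneg
      linarith
    by_cases hcs : CS o C (F.b • o) ((F.b * (F.e * t)) • o)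
    · calc Sm (F :: σ) φ c t ≤ 1 := one F σ c t hv hTσ hcs
        _ ≤ (40 * (F :: σ).length + 1 : ℕ) := by
          exact_mod_cast Nat.le_add_left 1 _
    · have h4 : ∑ a ∈ F.A, Sm σ φ c (a * (F.b * (F.e * t))) ≤
          F.A.card * 1 + (1 : ℕ) * ((40 * σ.length + 1 : ℕ) : ℝ≥0∞) := by
        apply sum_le_bad (p := fun a => C < gp ((F.b * (F.e * t)) • o) (a⁻¹ • o) o)
        · apply card_filter_le_one
          intro a ha a' ha' h5 h6
          exact hS.bwd _ a (hv.2.1 ha) a' (hv.2.1 ha') h5 h6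
        · intro a ha hgp
          push Not at hgp
          cases σ with
          | nil => simpa [Sm] using hφ1 _
          | cons F2 σ2 =>
            have hv2 := hv.1
            have h1 : CS o C (F2.b • o) ((F2.b * (F2.e * (a * (F.b * (F.e * t))))) • o) := by
              have h2 := cs_pop (ρ := F2.b * F2.e) (a := a) (ζ := (F.b * (F.e * t)) • o) h hδC hC
                hv2.2.2.2.1 (by
                  have := (hv.2.2.2.2 a ha).1
                  simp only [rho] at this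
                  linarith) (by rw [gp_comm]; linarith) (hS.len a (hv.2.1 ha))
              simpa [mul_smul] using h2
            apply one F2 σ2 c _ hv2 _ h1
            simp only [TT] at hTσ
            have : 0 ≤ dist o (F2.e • o) := dist_nonneg
            linarith
        · intro a ha _
          exact ih c hv.1 hTσ _
      calc Sm (F :: σ) φ c t = ∑ a ∈ F.A, Sm σ φ c (a * (F.b * (F.e * t))) := rfl
        _ ≤ F.A.card * 1 + (1 : ℕ) * ((40 * σ.length + 1 : ℕ) : ℝ≥0∞) := h4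
        _ ≤ (40 : ℕ) * 1 + (1 : ℕ) * ((40 * σ.length + 1 : ℕ) : ℝ≥0∞) := by gcongr
        _ = ((40 * 1 + 1 * (40 * σ.length + 1) : ℕ) : ℝ≥0∞) := by push_cast; ring
        _ = (40 * (F :: σ).length + 1 : ℕ) := by
          congr 1
          rw [List.length_cons]
          ring

theorem leaf_shadow (h : Hyp X δ) (hδ : 0 ≤ δ) (hδC : δ ≤ C) (hC : 0 < C) (hS : Sch S C o)
    (hA0 : 0 ≤ A) (hA : ∀ a ∈ S, dist o (a • o) ≤ A) {Λ : ℝ} {ζ : X}
    {φ : G → ℝ≥0∞} (hφ1 : ∀ w, φ w ≤ 1) (hφ : ∀ w, φ w ≠ 0 → Λ + 5 * C < gp (w • o) ζ o)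
    (V : G) : BdB S o A Λ 41 (fun x => φ (x * V)) := by
  intro l g hT
  have h1 : ∀ c σ, Valid S C o c σ → TT o A c σ ≤ Λ →
      Sm σ (fun x => φ (x * V)) c 1 ≤ 41 * 20 ^ σ.length := by
    intro c σ hv hT
    rw [Sm_shift, one_mul]
    refine (shadow_two h hδ hδC hC hS hA0 hA hφ1 hφ σ c hv hT V).trans ?_
    have h2 : ∀ n : ℕ, 40 * n + 1 ≤ 41 * 20 ^ n := by
      intro n
      induction n with
      | zero => norm_num
      | succ n ih =>
        rw [pow_succ]
        have : 1 ≤ 20 ^ n := Nat.one_le_pow _ _ (by norm_num)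
        omega
    exact_mod_cast h2 σ.length
  have h2 := claimBB h hδC hC hS hA h1 l g [] trivial (by simpa [TT] using hT)
  simpa [Sm] using h2

theorem leaf_midB (h : Hyp X δ) (hδ : 0 ≤ δ) (hδC : δ ≤ C) (hC : 0 < C) (hS : Sch S C o)
    (hA : ∀ a ∈ S, dist o (a • o) ≤ A) {Λ : ℝ}
    {φ : G → ℝ≥0∞} {p : ℕ} (hφ1 : ∀ w, φ w ≤ 1)
    (hφ : ∀ w, MidGood S C o (100 * C * p) w → φ w = 0) :
    BdB S o A Λ (2 ^ (2 * p)) φ := by
  intro l g hT
  have h2 := claimBB h hδC hC hS hA (fun c σ hv _ => leaf_mid h hδ hδC hC hS hφ1 hφ c σ hv)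
    l g [] trivial (by simpa [TT] using hT)
  simpa [Sm] using h2

end leaf2

end Pool.Agent.H88.WPD
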