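import Pool.Agent.H88.WPD.Defs

/-!
Loxodromic isometries of four point hyperbolic spaces.
-/

namespace Pool.Agent.H88.WPD

section lox

variable {X : Type*} [PseudoMetricSpace X] {δ : ℝ}
variable {G : Type*} [Group G] [MulAction G X] [IsIsometricSMul G X]

theorem dist_pow (g : G) (o : X) (p q : ℕ) :
    dist (g ^ p • o) (g ^ (p + q) • o) = dist o (g ^ q • o) := by
  rw [pow_add, mul_smul, dist_smul]

theorem lox_lin {g : G} (h : Lox X g) (o : X) :
    ∃ c : ℝ, 0 < c ∧ ∃ A : ℝ, ∀ n : ℕ, c * n - A ≤ dist o (g ^ n • o) := by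
  obtain ⟨x, c, hc, hx⟩ := h
  refine ⟨c, hc, 2 * dist x o, fun n => ?_⟩
  have h1 := hx n
  have h2 : dist x (g ^ n • x) ≤ dist x o + dist o (g ^ n • o) + dist (g ^ n • o) (g ^ n • x) :=
    dist_triangle4 _ _ _ _
  rw [dist_smul, dist_comm o x] at h2
  linarith

theorem lox_tend {g : G} (h : Lox X g) (o : X) (R : ℝ) :
    ∃ N : ℕ, ∀ n, N ≤ n → R ≤ dist o (g ^ n • o) := by
  obtain ⟨c, hc, A, hA⟩ := lox_lin h o
  obtain ⟨N, hN⟩ := exists_nat_gt ((R + A) / c)
  refine ⟨N, fun n hn => ?_⟩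
  have h1 := hA n
  have h2 : (N : ℝ) ≤ n := by exact_mod_cast hn
  rw [div_lt_iff₀ hc] at hN
  nlinarith

theorem lox_double (hδ : 0 ≤ δ) {g : G} (h : Lox X g) (o : X) :
    ∃ N : ℕ, 0 < N ∧ dist o (g ^ N • o) + 4 * δ < dist o (g ^ (N + N) • o) := by
  by_contra hcon
  push Not at hcon
  obtain ⟨c, hc, A, hA⟩ := lox_lin h o
  have h1 : ∀ k : ℕ, dist o (g ^ (2 ^ k) • o) ≤ dist o (g ^ 1 • o) + 4 * δ * k := by
    intro k
    induction k with
    | zero => simp
    | succ k ih =>
      have := hcon (2 ^ k) (by positivity)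
      have e1 : 2 ^ k + 2 ^ k = 2 ^ (k + 1) := by ring
      rw [e1] at this
      push_cast
      linarith
  set B := dist o (g ^ 1 • o) + |A| + 8 * δ with hB
  have hB0 : 0 ≤ B := by positivity
  obtain ⟨j, hj⟩ := exists_nat_gt (B / c)
  rw [div_lt_iff₀ hc] at hj
  have h2 := h1 (2 * j)
  have h3 := hA (2 ^ (2 * j))
  have h4 : ((j : ℝ) + 1) * (j + 1) ≤ 2 ^ (2 * j) := by
    have h5 : j + 1 ≤ 2 ^ j := Nat.lt_two_pow_self
    have h6 : ((j : ℝ) + 1) ≤ 2 ^ j := by exact_mod_cast h5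
    calc ((j : ℝ) + 1) * (j + 1) ≤ 2 ^ j * 2 ^ j := by gcongr
      _ = 2 ^ (2 * j) := by ring
  have h7 : (((2 : ℕ) ^ (2 * j) : ℕ) : ℝ) = (2 : ℝ) ^ (2 * j) := by push_cast; ring
  rw [h7] at h3
  have h8 : A ≤ |A| := le_abs_self A
  have h9 : c * (((j : ℝ) + 1) * (j + 1)) ≤ c * 2 ^ (2 * j) := by gcongr
  have h10 : c * (((j : ℝ) + 1) * (j + 1)) ≤ B + 8 * δ * j := by
    push_cast at h2
    have : 0 ≤ δ := hδ
    rw [hB]
    nlinarith
  have h11 : B + 8 * δ * j ≤ B * (j + 1) := by
    have : 8 * δ ≤ B := by rw [hB]; have := dist_nonneg (x := o) (y := g ^ 1 • o); have := abs_nonneg A; linarith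
    have hj0 : (0 : ℝ) ≤ j := Nat.cast_nonneg j
    nlinarith
  have h12 : B * (j + 1) < c * (((j : ℝ) + 1) * (j + 1)) := by
    have hj0 : (0 : ℝ) < (j : ℝ) + 1 := by positivity
    have : B < c * (j + 1) := by nlinarith
    nlinarith
  linarith

theorem lox_data (hX : Hyp X δ) {g : G} (h : Lox X g) (o : X) :
    ∃ C : ℝ, 0 ≤ C ∧ ∀ m n : ℕ, gp ((g ^ m)⁻¹ • o) (g ^ n • o) o ≤ C := by
  have hδ : 0 ≤ δ := hX.nonneg o
  obtain ⟨N, hN0, hN⟩ := lox_double hδ h o
  set a : ℝ := dist o (g ^ N • o) with ha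
  set b : ℝ := dist o (g ^ (N + N) • o) with hb
  set c : ℝ := a - b / 2 with hc
  have hchain : Chain (fun i : ℕ => g ^ (N * i) • o) c a := by
    constructor
    · intro i
      unfold gp
      have e1 : dist (g ^ (N * i) • o) (g ^ (N * (i + 1)) • o) = a := by
        have : N * (i + 1) = N * i + N := by ring
        rw [this, dist_pow]
      have e2 : dist (g ^ (N * (i + 2)) • o) (g ^ (N * (i + 1)) • o) = a := by
        have : N * (i + 2) = N * (i + 1) + N := by ring
        rw [this, dist_comm, dist_pow]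
      have e3 : dist (g ^ (N * i) • o) (g ^ (N * (i + 2)) • o) = b := by
        have : N * (i + 2) = N * i + (N + N) := by ring
        rw [this, dist_pow]
      rw [e1, e2, e3, hc]
      linarith
    · intro i
      have : N * (i + 1) = N * i + N := by ring
      rw [this, dist_pow]
  have hD : 2 * c + 4 * δ < a := by rw [hc]; linarith
  set A : ℝ := ∑ r ∈ Finset.range N, dist o (g ^ r • o) with hA
  have hAr : ∀ r, r < N → dist o (g ^ r • o) ≤ A := by
    intro r hr
    exact Finset.single_le_sum (f := fun r => dist o (g ^ r • o)) (fun _ _ => dist_nonneg)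
      (Finset.mem_range.2 hr)
  have hA0 : 0 ≤ A := Finset.sum_nonneg fun _ _ => dist_nonneg
  have hc0 : 0 ≤ c := le_trans (gp_nonneg _ _ _) (hchain.g 0)
  refine ⟨c + 2 * δ + 2 * A, by positivity, fun m n => ?_⟩
  set i := m / N with hi
  set j := n / N with hj
  have hm : m = N * i + m % N := (Nat.div_add_mod m N).symm
  have hn : n = N * j + n % N := (Nat.div_add_mod n N).symm
  have h1 : gp ((g ^ (N * i))⁻¹ • o) (g ^ (N * j) • o) o ≤ c + 2 * δ := by
    have h2 := hchain.two hX hδ hD 0 i j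
    simp only [zero_add, mul_zero, pow_zero, one_smul] at h2
    rw [← gp_smul (X := X) (g ^ (N * i)) ((g ^ (N * i))⁻¹ • o) (g ^ (N * j) • o) o,
      smul_inv_smul, ← mul_smul, ← pow_add]
    rw [mul_add] at h2
    exact h2
  have h3 : dist ((g ^ m)⁻¹ • o) ((g ^ (N * i))⁻¹ • o) ≤ A := by
    have e1 : (g ^ m)⁻¹ = (g ^ (N * i))⁻¹ * (g ^ (m % N))⁻¹ := by
      rw [← mul_inv_rev, ← pow_add, add_comm, ← hm]
    rw [e1, mul_smul, dist_smul, dist_comm, dist_inv_smul]
    exact hAr _ (Nat.mod_lt _ hN0)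
  have h4 : dist (g ^ n • o) (g ^ (N * j) • o) ≤ A := by
    have e1 : g ^ n = g ^ (N * j) * g ^ (n % N) := by rw [← pow_add, ← hn]
    rw [e1, mul_smul, dist_smul, dist_comm]
    exact hAr _ (Nat.mod_lt _ hN0)
  have h5 := gp_left_le ((g ^ m)⁻¹ • o) ((g ^ (N * i))⁻¹ • o) (g ^ n • o) o
  have h6 := gp_right_le ((g ^ (N * i))⁻¹ • o) (g ^ n • o) (g ^ (N * j) • o) o
  linarith

theorem lox_asy (hX : Hyp X δ) {g : G} (h : Lox X g) (o : X) :
    Asy (fun n => g ^ n • o) (fun n => g ^ n • o) := by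
  obtain ⟨C, hC0, hC⟩ := lox_data hX h o
  have key : ∀ i j : ℕ, i ≤ j → dist o (g ^ i • o) - C ≤ gp (g ^ i • o) (g ^ j • o) o := by
    intro i j hij
    obtain ⟨k, rfl⟩ := Nat.exists_eq_add_of_le hij
    have h1 : gp (g ^ (i + k) • o) (g ^ i • o) o + gp (g ^ (i + k) • o) o (g ^ i • o) =
      dist (g ^ i • o) o := gp_add _ _ _
    have h2 : gp (g ^ (i + k) • o) o (g ^ i • o) = gp ((g ^ i)⁻¹ • o) (g ^ k • o) o := by
      rw [gp_comm, pow_add, mul_smul, gp_inv_smul]
    have h3 := hC i k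
    have h4 : dist (g ^ i • o) o = dist o (g ^ i • o) := dist_comm _ _
    have h5 : gp (g ^ (i + k) • o) (g ^ i • o) o = gp (g ^ i • o) (g ^ (i + k) • o) o :=
      gp_comm _ _ _
    linarith
  apply Asy.of_base o
  intro R
  obtain ⟨N, hN⟩ := lox_tend h o (R + C)
  refine ⟨N, fun i hi j hj => ?_⟩
  rcases le_total i j with hij | hij
  · have := key i j hij
    have := hN i hi
    linarith
  · have := key j i hij
    have := hN j hj
    rw [gp_comm]
    linarith

theorem Lox.inv {g : G} (h : Lox X g) : Lox X g⁻¹ := by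
  obtain ⟨x, c, hc, hx⟩ := h
  refine ⟨x, c, hc, fun n => ?_⟩
  rw [inv_pow, dist_inv_smul]
  exact hx n

theorem Lox.conj {g : G} (h : Lox X g) (P : G) : Lox X (P * g * P⁻¹) := by
  obtain ⟨x, c, hc, hx⟩ := h
  refine ⟨P • x, c, hc, fun n => ?_⟩
  have e1 : (P * g * P⁻¹) ^ n = P * g ^ n * P⁻¹ := conj_pow
  rw [e1, ← mul_smul, inv_mul_cancel_right, mul_smul, dist_smul]
  exact hx n

theorem asy_inv_fix {u : ℕ → X} {g : G} (h : Asy (fun n => g⁻¹ • u n) u) :
    Asy (fun n => g • u n) u := by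
  have h1 := h.smul g
  simp only [smul_inv_smul] at h1
  exact h1.symm

theorem asy_shift {u : ℕ → X} (h : Asy u u) : Asy (fun n => u (n + 1)) u := by
  intro o R
  obtain ⟨N, hN⟩ := h o R
  exact ⟨N, fun i hi j hj => hN (i + 1) (by omega) j hj⟩

theorem lox_fix (hX : Hyp X δ) {g : G} (h : Lox X g) (o : X) :
    Asy (fun n => g • g ^ n • o) (fun n => g ^ n • o) := by
  have h1 := asy_shift (lox_asy hX h o)
  have e1 : (fun n : ℕ => g ^ (n + 1) • o) = fun n => g • g ^ n • o := by
    funext n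
    rw [pow_succ', mul_smul]
  rw [e1] at h1
  exact h1

/-- A loxodromic element and its powers fix the same boundary points. -/
theorem not_fix_pow (hX : Hyp X δ) {f : G} (hf : Lox X f) (o : X) {u : ℕ → X} (hu : Asy u u)
    (h : ¬ Asy (fun n => f • u n) u) {k : ℕ} (hk : 0 < k) :
    ¬ Asy (fun n => f ^ k • u n) u := by
  intro H
  apply h
  by_cases hc : Asy u (fun m => (f⁻¹) ^ m • o)
  · have h1 : Asy (fun m => f⁻¹ • (f⁻¹) ^ m • o) (fun m => (f⁻¹) ^ m • o) :=
      lox_fix hX hf.inv o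
    have h2 := asy_inv_fix h1
    exact ((hc.smul f).trans hX h2).trans hX hc.symm
  · obtain ⟨R, N, hRN⟩ := bdd_of_not_asy hX hu (lox_asy hX hf.inv o) hc o
    have hiter : ∀ n : ℕ, Asy (fun i => f ^ (k * n) • u i) u := by
      intro n
      induction n with
      | zero => simpa using hu
      | succ n ih =>
        have h1 := H.smul (f ^ (k * n))
        have e1 : (fun i => f ^ (k * n) • f ^ k • u i) = fun i => f ^ (k * (n + 1)) • u i := by
          funext i
          rw [← mul_smul, ← pow_add]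
          rfl
        rw [e1] at h1
        exact h1.trans hX ih
    have hkey : Asy u (fun n => f ^ n • o) := by
      apply Asy.of_base o
      intro R'
      obtain ⟨N1, hN1⟩ := lox_tend hf o (R' + R + 2 * |δ|)
      obtain ⟨N2, hN2⟩ := lox_asy hX hf o o (R' + |δ|)
      set n0 := N + N1 + N2 with hn0
      have hkn : n0 ≤ k * n0 := Nat.le_mul_of_pos_left _ hk
      obtain ⟨J, hJ⟩ := hiter n0 o (R' + 2 * |δ|)
      refine ⟨max (max J N) (k * n0), fun j hj n' hn' => ?_⟩
      set F := f ^ (k * n0) with hF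
      set i0 := max J N with hi0
      have d0 : δ ≤ |δ| := le_abs_self δ
      have e1 := hJ i0 (le_max_left _ _) j (le_trans (le_max_left J N) (le_of_max_le_left hj))
      have e2 : gp (F • u i0) (F • o) o + gp (F • u i0) o (F • o) = dist (F • o) o :=
        gp_add _ _ _
      have e3 : gp (F • u i0) o (F • o) ≤ R := by
        rw [gp_comm, gp_inv_smul, gp_comm]
        have := hRN i0 (le_max_right _ _) (k * n0) (by omega)
        rw [inv_pow] at this
        exact this
      have e4 := hN1 (k * n0) (by omega)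
      have e5 : dist (F • o) o = dist o (F • o) := dist_comm _ _
      have e6 := hX (u j) (F • u i0) (F • o) o
      have e7 : R' + 2 * |δ| ≤ min (gp (u j) (F • u i0) o) (gp (F • u i0) (F • o) o) := by
        apply le_min
        · rw [gp_comm]; exact e1
        · linarith
      have e8 := hX (u j) (F • o) (f ^ n' • o) o
      have e9 := hN2 (k * n0) (by omega) n' (by
        have := le_of_max_le_right hn'
        omega)
      have e10 : R' + |δ| ≤ min (gp (u j) (F • o) o) (gp (F • o) (f ^ n' • o) o) :=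
        le_min (by linarith) e9
      linarith
    have h2 := (hkey.smul f).trans hX (lox_fix hX hf o)
    exact h2.trans hX hkey.symm

theorem stab_mid (hX : Hyp X δ) {K c : ℝ} {x y p : X} {g : G} (hg : g ∈ Stab G K x y)
    (hp : gp x y p ≤ c) : dist p (g • p) ≤ K + 2 * c + 2 * δ := by
  have h1 := hX.four p (g • p) x y
  have h2 : dist (g • p) y ≤ dist p y + K := by
    have := dist_triangle (g • p) (g • y) y
    rw [dist_smul, dist_comm (g • y) y] at this
    have := hg.2
    linarith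
  have h3 : dist (g • p) x ≤ dist p x + K := by
    have := dist_triangle (g • p) (g • x) x
    rw [dist_smul, dist_comm (g • x) x] at this
    have := hg.1
    linarith
  have h4 := dist_eq_gp x y p
  have h5 : dist x p = dist p x := dist_comm _ _
  have h6 : dist y p = dist p y := dist_comm _ _
  have h7 : max (dist p x + dist (g • p) y) (dist p y + dist (g • p) x) ≤
      dist p x + dist p y + K := max_le (by linarith) (by linarith)
  linarith

theorem stab_large (hX : Hyp X δ) {h : G} (hw : WPD X h) (o : X) (K : ℝ) (hK : 0 ≤ K) :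
    ∃ M : ℕ, ∀ n, M ≤ n → (Stab G K o (h ^ n • o)).Finite := by
  have hδ : 0 ≤ δ := hX.nonneg o
  obtain ⟨C, hC0, hC⟩ := lox_data hX hw.1 o
  obtain ⟨N, _, hN⟩ := hw.2 o (K + 2 * C + 2 * δ) (by positivity)
  refine ⟨N, fun n hn => hN.subset ?_⟩
  obtain ⟨k, rfl⟩ := Nat.exists_eq_add_of_le hn
  intro g hg
  refine ⟨?_, ?_⟩
  · have := hg.1
    linarith
  · apply stab_mid hX hg
    rw [pow_add, mul_smul, gp_inv_smul]
    exact hC N k

end lox

end Pool.Agent.H88.WPD
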