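import Pool.Agent.H88.WPD.Loxo
import Pool.Agent.H88.WPD.Walk

/-!
Construction of the Schottky sets.
-/

namespace Pool.Agent.H88.WPD

open scoped ENNReal

section sch

variable {X : Type*} [PseudoMetricSpace X] {δ : ℝ}
variable {G : Type*} [Group G] [MulAction G X] [IsIsometricSMul G X]

theorem unif {Q : ℕ → ℝ → ℕ → Prop}
    (mono : ∀ i R R' N N', R ≤ R' → N ≤ N' → Q i R N → Q i R' N') :
    ∀ k : ℕ, (∀ i, i < k → ∃ R N, Q i R N) → ∃ R N, 0 ≤ R ∧ ∀ i, i < k → Q i R N := by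
  intro k
  induction k with
  | zero => intro _; exact ⟨0, 0, le_rfl, fun i hi => absurd hi (Nat.not_lt_zero i)⟩
  | succ k ih =>
    intro h
    obtain ⟨R1, N1, h0, h1⟩ := ih fun i hi => h i (by omega)
    obtain ⟨R2, N2, h2⟩ := h k (by omega)
    refine ⟨max R1 R2, max N1 N2, le_trans h0 (le_max_left _ _), fun i hi => ?_⟩
    rcases Nat.lt_succ_iff_lt_or_eq.1 hi with h3 | h3
    · exact mono i _ _ _ _ (le_max_left _ _) (le_max_left _ _) (h1 i h3)
    · subst h3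
      exact mono i _ _ _ _ (le_max_right _ _) (le_max_right _ _) h2

/-- Different powers of f send the attracting point of h to different points. -/
theorem pair_bound (hX : Hyp X δ) {f h : G} (hf : Lox X f) (hh : Lox X h) (o : X)
    (hfh : ¬ Asy (fun n => f • h ^ n • o) (fun n => h ^ n • o)) {l : ℕ} (hl : 0 < l) :
    ∃ (R : ℝ) (N : ℕ), 0 ≤ R ∧ ∀ i, i < 40 → ∀ j, j < 40 → i ≠ j → ∀ m, N ≤ m → ∀ n, N ≤ n →
      gp (f ^ (l * i) • h ^ m • o) (f ^ (l * j) • h ^ n • o) o ≤ R := by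
  have hu := lox_asy hX hh o
  have h1 : ∀ d, 0 < d → ∃ (R : ℝ) (N : ℕ), ∀ m, N ≤ m → ∀ n, N ≤ n →
      gp (h ^ m • o) (f ^ (l * d) • h ^ n • o) o ≤ R := by
    intro d hd
    have h2 := not_fix_pow hX hf o hu hfh (k := l * d) (by positivity)
    exact bdd_of_not_asy hX hu (hu.smul (f ^ (l * d))) (fun h3 => h2 h3.symm) o
  have h2 : ∀ i j, i < j → ∃ (R : ℝ) (N : ℕ), ∀ m, N ≤ m → ∀ n, N ≤ n →
      gp (f ^ (l * i) • h ^ m • o) (f ^ (l * j) • h ^ n • o) o ≤ R := by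
    intro i j hij
    obtain ⟨R, N, hRN⟩ := h1 (j - i) (by omega)
    refine ⟨R + dist o (f ^ (l * i) • o), N, fun m hm n hn => ?_⟩
    have e1 := hRN m hm n hn
    have e2 : f ^ (l * j) • h ^ n • o = f ^ (l * i) • f ^ (l * (j - i)) • h ^ n • o := by
      rw [← mul_smul (f ^ (l * i)), ← pow_add, ← mul_add]
      congr 3
      omega
    rw [e2]
    have e3 := gp_base_le (f ^ (l * i) • h ^ m • o)
      (f ^ (l * i) • f ^ (l * (j - i)) • h ^ n • o) o (f ^ (l * i) • o)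
    rw [gp_smul] at e3
    linarith
  have h3 : ∀ i j, i ≠ j → ∃ (R : ℝ) (N : ℕ), ∀ m, N ≤ m → ∀ n, N ≤ n →
      gp (f ^ (l * i) • h ^ m • o) (f ^ (l * j) • h ^ n • o) o ≤ R := by
    intro i j hij
    rcases lt_or_gt_of_ne hij with h4 | h4
    · exact h2 i j h4
    · obtain ⟨R, N, h5⟩ := h2 j i h4
      exact ⟨R, N, fun m hm n hn => by rw [gp_comm]; exact h5 n hn m hm⟩
  have h4 : ∀ i, i < 40 → ∃ (R : ℝ) (N : ℕ), ∀ j, j < 40 → i ≠ j → ∀ m, N ≤ m → ∀ n, N ≤ n →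
      gp (f ^ (l * i) • h ^ m • o) (f ^ (l * j) • h ^ n • o) o ≤ R := by
    intro i _
    obtain ⟨R, N, _, h5⟩ := unif (Q := fun j R N => i ≠ j → ∀ m, N ≤ m → ∀ n, N ≤ n →
      gp (f ^ (l * i) • h ^ m • o) (f ^ (l * j) • h ^ n • o) o ≤ R)
      (fun j R R' N N' hR hN hQ hij m hm n hn =>
        (hQ hij m (hN.trans hm) n (hN.trans hn)).trans hR) 40 (by
        intro j _
        by_cases hij : i = j
        · exact ⟨0, 0, fun h6 => absurd hij h6⟩
        · obtain ⟨R, N, h7⟩ := h3 i j hij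
          exact ⟨R, N, fun _ => h7⟩)
    exact ⟨R, N, h5⟩
  exact unif (Q := fun i R N => ∀ j, j < 40 → i ≠ j → ∀ m, N ≤ m → ∀ n, N ≤ n →
      gp (f ^ (l * i) • h ^ m • o) (f ^ (l * j) • h ^ n • o) o ≤ R)
      (fun j R R' N N' hR hN hQ i hi hij m hm n hn =>
        (hQ i hi hij m (hN.trans hm) n (hN.trans hn)).trans hR) 40 h4

theorem walk_pow {μ : PMF G} {l : ℕ} {f : G} (hf : walk μ l f ≠ 0) :
    ∀ k : ℕ, walk μ (l * k) (f ^ k) ≠ 0 := by
  intro k
  induction k with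
  | zero => simp [walk]
  | succ k ih =>
    rw [mul_add, mul_one, pow_succ]
    exact walk_pos μ ih hf

theorem schottky (hX : Hyp X δ) {μ : PMF G} {f f' h : G} {l l' l₃ : ℕ} (hl : 0 < l)
    (hl' : 0 < l') (hl₃ : 0 < l₃) (wf : walk μ l f ≠ 0) (wf' : walk μ l' f' ≠ 0)
    (wh : walk μ l₃ h ≠ 0) (hf : Lox X f) (hf' : Lox X f') (hh : WPD X h) (o : X)
    (hfh : ¬ Asy (fun n => f • h ^ n • o) (fun n => h ^ n • o))
    (hfh' : ¬ Asy (fun n => f' • (h⁻¹) ^ n • o) (fun n => (h⁻¹) ^ n • o)) :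
    ∃ C : ℝ, 0 < C ∧ δ ≤ C ∧ ∀ K : ℝ, 0 ≤ K → ∃ (S : Finset G) (L : ℕ), 0 < L ∧ Sch S C o ∧
      (∀ a ∈ S, walk μ L a ≠ 0) ∧ ∀ a ∈ S, (Stab G K o (a • o)).Finite := by
  classical
  obtain ⟨R1, N1, hR1, h1⟩ := pair_bound hX hf hh.1 o hfh hl₃
  obtain ⟨R2, N2, hR2, h2⟩ := pair_bound hX hf'.inv hh.1.inv o
    (fun h3 => hfh' (asy_inv_fix h3)) hl₃
  -- bound for the lengths of the short factors
  obtain ⟨B, _, hB0, hB⟩ := unif (Q := fun i R (_ : ℕ) => dist o (f ^ (l₃ * i) • o) ≤ R ∧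
      dist o (f' ^ (l₃ * i) • o) ≤ R) (fun i R R' N N' hR _ hQ => ⟨hQ.1.trans hR, hQ.2.trans hR⟩)
      40 (fun i _ => ⟨max (dist o (f ^ (l₃ * i) • o)) (dist o (f' ^ (l₃ * i) • o)), 0,
        le_max_left _ _, le_max_right _ _⟩)
  have hδ : 0 ≤ δ := hX.nonneg o
  set C : ℝ := R1 + R2 + 2 * B + δ + 1 with hC
  refine ⟨C, by positivity, by linarith, fun K hK => ?_⟩
  obtain ⟨N3, hN3⟩ := lox_tend hh.1 o (100 * C + 2 * B)
  obtain ⟨N4, hN4⟩ := stab_large hX hh o (K + 2 * B) (by positivity)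
  set M : ℕ := N1 + N2 + N3 + N4 with hM
  set n : ℕ → ℕ := fun i => (l + l') * (40 - i) + M with hn
  set s : ℕ → G := fun i => f ^ (l₃ * i) * h ^ n i * f' ^ (l₃ * i) with hs
  have hnM : ∀ i, M ≤ n i := fun i => Nat.le_add_left _ _
  -- approximations
  have ap1 : ∀ i, i < 40 → dist (s i • o) (f ^ (l₃ * i) • h ^ n i • o) ≤ B := by
    intro i hi
    have : s i • o = f ^ (l₃ * i) • h ^ n i • f' ^ (l₃ * i) • o := by
      rw [hs]; simp only [mul_smul]
    rw [this, dist_smul, dist_smul, dist_comm]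
    exact (hB i hi).2
  have ap2 : ∀ i, i < 40 →
      dist ((s i)⁻¹ • o) ((f'⁻¹) ^ (l₃ * i) • (h⁻¹) ^ n i • o) ≤ B := by
    intro i hi
    have : (s i)⁻¹ • o =
        (f'⁻¹) ^ (l₃ * i) • (h⁻¹) ^ n i • (f ^ (l₃ * i))⁻¹ • o := by
      rw [hs]
      simp only [mul_inv_rev, inv_pow, mul_smul]
    rw [this, dist_smul, dist_smul, dist_comm, dist_inv_smul]
    exact (hB i hi).1
  have fw : ∀ i, i < 40 → ∀ j, j < 40 → i ≠ j → gp (s i • o) (s j • o) o ≤ C - δ - 1 := by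
    intro i hi j hj hij
    have e1 := h1 i hi j hj hij (n i) (by have := hnM i; omega) (n j) (by have := hnM j; omega)
    have e2 := gp_left_le (s i • o) (f ^ (l₃ * i) • h ^ n i • o) (s j • o) o
    have e3 := gp_right_le (f ^ (l₃ * i) • h ^ n i • o) (s j • o)
      (f ^ (l₃ * j) • h ^ n j • o) o
    have e4 := ap1 i hi
    have e5 := ap1 j hj
    rw [hC]
    linarith
  have bw : ∀ i, i < 40 → ∀ j, j < 40 → i ≠ j →
      gp ((s i)⁻¹ • o) ((s j)⁻¹ • o) o ≤ C - δ - 1 := by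
    intro i hi j hj hij
    have e1 := h2 i hi j hj hij (n i) (by have := hnM i; omega) (n j) (by have := hnM j; omega)
    have e2 := gp_left_le ((s i)⁻¹ • o) ((f'⁻¹) ^ (l₃ * i) • (h⁻¹) ^ n i • o)
      ((s j)⁻¹ • o) o
    have e3 := gp_right_le ((f'⁻¹) ^ (l₃ * i) • (h⁻¹) ^ n i • o) ((s j)⁻¹ • o)
      ((f'⁻¹) ^ (l₃ * j) • (h⁻¹) ^ n j • o) o
    have e4 := ap2 i hi
    have e5 := ap2 j hj
    rw [hC]
    linarith
  have ln : ∀ i, i < 40 → 100 * C ≤ dist o (s i • o) := by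
    intro i hi
    have e1 := ap1 i hi
    have e2 := hN3 (n i) (by have := hnM i; omega)
    have e3 : dist o (h ^ n i • o) = dist (f ^ (l₃ * i) • o) (f ^ (l₃ * i) • h ^ n i • o) :=
      (dist_smul _ _ _).symm
    have e4 : dist (f ^ (l₃ * i) • o) (f ^ (l₃ * i) • h ^ n i • o) ≤
      dist (f ^ (l₃ * i) • o) o + dist o (s i • o) +
      dist (s i • o) (f ^ (l₃ * i) • h ^ n i • o) := dist_triangle4 _ _ _ _
    have e5 := (hB i hi).1
    rw [dist_comm] at e5
    linarith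
  have hC0 : 0 < C := by rw [hC]; positivity
  have inj : ∀ i, i < 40 → ∀ j, j < 40 → s i = s j → i = j := by
    intro i hi j hj hij
    by_contra hne
    have e1 := fw i hi j hj hne
    rw [hij, gp_self_left, dist_comm] at e1
    have e2 := ln j hj
    linarith
  set S : Finset G := (Finset.range 40).image s with hS
  have memS : ∀ a, a ∈ S ↔ ∃ i, i < 40 ∧ s i = a := by
    intro a
    rw [hS, Finset.mem_image]
    simp only [Finset.mem_range]
  refine ⟨S, l₃ * ((l + l') * 40 + M), by positivity, ⟨?_, ?_, ?_, ?_⟩, ?_, ?_⟩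
  · rw [hS, Finset.card_image_of_injOn, Finset.card_range]
    intro i hi j hj hij
    simp only [Finset.coe_range, Set.mem_Iio] at hi hj
    exact inj i hi j hj hij
  · intro y a ha a' ha' h3 h4
    obtain ⟨i, hi, rfl⟩ := (memS a).1 ha
    obtain ⟨j, hj, rfl⟩ := (memS a').1 ha'
    by_contra hne
    have hij : i ≠ j := fun h5 => hne (by rw [h5])
    have e1 := fw i hi j hj hij
    have e2 := hX (s i • o) y (s j • o) o
    have e3 : C < min (gp (s i • o) y o) (gp y (s j • o) o) :=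
      lt_min (by rw [gp_comm]; exact h3) h4
    linarith
  · intro y a ha a' ha' h3 h4
    obtain ⟨i, hi, rfl⟩ := (memS a).1 ha
    obtain ⟨j, hj, rfl⟩ := (memS a').1 ha'
    by_contra hne
    have hij : i ≠ j := fun h5 => hne (by rw [h5])
    have e1 := bw i hi j hj hij
    have e2 := hX ((s i)⁻¹ • o) y ((s j)⁻¹ • o) o
    have e3 : C < min (gp ((s i)⁻¹ • o) y o) (gp y ((s j)⁻¹ • o) o) :=
      lt_min (by rw [gp_comm]; exact h3) h4
    linarith
  · intro a ha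
    obtain ⟨i, hi, rfl⟩ := (memS a).1 ha
    exact ln i hi
  · intro a ha
    obtain ⟨i, hi, rfl⟩ := (memS a).1 ha
    obtain ⟨j, hj⟩ : ∃ j, 40 = i + j := ⟨40 - i, by omega⟩
    have e1 : l₃ * ((l + l') * 40 + M) = l * (l₃ * i) + l₃ * n i + l' * (l₃ * i) := by
      have : 40 - i = j := by omega
      rw [hn]
      simp only
      rw [this, hj]
      ring
    rw [e1]
    exact walk_pos μ (walk_pos μ (walk_pow wf _) (walk_pow wh _)) (walk_pow wf' _)
  · intro a ha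
    obtain ⟨i, hi, rfl⟩ := (memS a).1 ha
    have hfin := hN4 (n i) (by have := hnM i; omega)
    set u := f ^ (l₃ * i) with hu
    refine Set.Finite.subset (hfin.image (fun g => u * g * u⁻¹)) ?_
    intro g hg
    refine ⟨u⁻¹ * g * u, ⟨?_, ?_⟩, by group⟩
    · have e1 : dist o ((u⁻¹ * g * u) • o) = dist (u • o) (g • u • o) := by
        rw [← dist_smul u o, mul_smul, mul_smul, smul_inv_smul]
      rw [e1]
      have e2 : dist (u • o) (g • u • o) ≤ dist (u • o) o + dist o (g • o) +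
        dist (g • o) (g • u • o) := dist_triangle4 _ _ _ _
      rw [dist_smul, dist_comm (u • o) o] at e2
      have e3 := (hB i hi).1
      have e4 := hg.1
      linarith
    · have e1 : dist (h ^ n i • o) ((u⁻¹ * g * u) • h ^ n i • o) =
          dist (u • h ^ n i • o) (g • u • h ^ n i • o) := by
        rw [← dist_smul u (h ^ n i • o), mul_smul, mul_smul, smul_inv_smul]
      rw [e1]
      have e2 : dist (u • h ^ n i • o) (g • u • h ^ n i • o) ≤
        dist (u • h ^ n i • o) (s i • o) + dist (s i • o) (g • s i • o) +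
        dist (g • s i • o) (g • u • h ^ n i • o) := dist_triangle4 _ _ _ _
      rw [dist_smul, dist_comm (u • h ^ n i • o) (s i • o)] at e2
      have e3 := ap1 i hi
      have e4 := hg.2
      linarith

end sch

end Pool.Agent.H88.WPD
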