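import Pool.Agent.H88.WPD.Schottky
import Pool.Agent.H88.WPD.Kill

/-!
Schottky sets whose letters contain a prescribed element in the middle.
-/

namespace Pool.Agent.H88.WPD

section sch2

variable {X : Type*} [PseudoMetricSpace X] {δ : ℝ}
variable {G : Type*} [Group G] [MulAction G X] [IsIsometricSMul G X]

/-- The products of two elements near two points with small product. -/
theorem gp_trans_le (hX : Hyp X δ) {a b p q o : X} {R T : ℝ} (h : gp p q o ≤ R)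
    (ha : T ≤ gp a p o) (hb : T ≤ gp b q o) (hT : R + 2 * δ < T) (hδ : 0 ≤ δ) :
    gp a b o ≤ R + 2 * δ := by
  by_contra hcon
  push Not at hcon
  have h1 := hX a b q o
  have h2 := hX p a q o
  have h3 : R + 2 * δ < min (gp a b o) (gp b q o) := lt_min hcon (by linarith)
  have h4 : R + δ < min (gp p a o) (gp a q o) := lt_min (by rw [gp_comm]; linarith) (by linarith)
  linarith

theorem schottky2 (hX : Hyp X δ) {μ : PMF G} {Γ : Subgroup G} {f f' h : G} {l l' l₃ : ℕ}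
    (hl : 0 < l) (hl' : 0 < l') (hl₃ : 0 < l₃) (wf : walk μ l f ≠ 0) (wf' : walk μ l' f' ≠ 0)
    (wh : walk μ l₃ h ≠ 0) (hf : Lox X f) (hf' : Lox X f') (hh : Lox X h) (o : X)
    (gf : f ∈ Γ) (gf' : f' ∈ Γ) (gh : h ∈ Γ)
    (hfh : ¬ Asy (fun n => f • h ^ n • o) (fun n => h ^ n • o))
    (hfh' : ¬ Asy (fun n => f' • (h⁻¹) ^ n • o) (fun n => (h⁻¹) ^ n • o)) :
    ∃ C₀ : ℝ, 0 < C₀ ∧ δ ≤ C₀ ∧ ∀ C : ℝ, C₀ ≤ C → ∃ (T B : ℝ) (N : ℕ), 0 ≤ B ∧
      ∀ (κ : G) (lκ : ℕ), κ ∈ Γ → 0 < lκ → walk μ lκ κ ≠ 0 →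
        (∃ m, N ≤ m ∧ T ≤ gp (κ • o) (h ^ m • o) o) →
        (∃ m, N ≤ m ∧ T ≤ gp (κ⁻¹ • o) ((h⁻¹) ^ m • o) o) →
        ∃ (S : Finset G) (L : ℕ), 0 < L ∧ Sch S C o ∧ (∀ a ∈ S, walk μ L a ≠ 0) ∧
          ∀ a ∈ S, ∃ α ∈ Γ, ∃ α' ∈ Γ, a = α * κ * α' ∧ dist o (α • o) ≤ B ∧
            dist o (α' • o) ≤ B := by
  classical
  obtain ⟨R1, N1, hR1, h1⟩ := pair_bound hX hf hh o hfh hl₃
  obtain ⟨R2, N2, hR2, h2⟩ := pair_bound hX hf'.inv hh.inv o
    (fun h3 => hfh' (asy_inv_fix h3)) hl₃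
  set α : ℕ → G := fun i => f ^ (l₃ * i) * h ^ (l * (40 - i)) with hα
  set α' : ℕ → G := fun i => h ^ (l' * (40 - i)) * f' ^ (l₃ * i) with hα'
  obtain ⟨B, _, hB0, hB⟩ := unif (Q := fun i R (_ : ℕ) => dist o (α i • o) ≤ R ∧
      dist o (α' i • o) ≤ R) (fun i R R' N N' hR _ hQ => ⟨hQ.1.trans hR, hQ.2.trans hR⟩)
      40 (fun i _ => ⟨max (dist o (α i • o)) (dist o (α' i • o)), 0,
        le_max_left _ _, le_max_right _ _⟩)
  have hδ : 0 ≤ δ := hX.nonneg o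
  refine ⟨R1 + R2 + 3 * δ + 1, by positivity, by linarith, fun C hC => ?_⟩
  have hC0 : 0 < C := by linarith
  set T : ℝ := R1 + R2 + 2 * δ + 2 * B + 100 * C + 1 with hT
  refine ⟨T, B, N1 + N2, hB0, ?_⟩
  intro κ lκ hκΓ hlκ hκ hm1 hm2
  obtain ⟨m1, hm1, hκ1⟩ := hm1
  obtain ⟨m2, hm2, hκ2⟩ := hm2
  set s : ℕ → G := fun i => α i * κ * α' i with hs
  have hsi : ∀ i, s i = α i * κ * α' i := fun i => rfl
  -- approximations
  have ap1 : ∀ i, i < 40 →
      T - 2 * B ≤ gp (s i • o) (f ^ (l₃ * i) • h ^ (l * (40 - i) + m1) • o) o := by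
    intro i hi
    have e1 : f ^ (l₃ * i) • h ^ (l * (40 - i) + m1) • o = α i • h ^ m1 • o := by
      rw [hα, pow_add]
      simp only [mul_smul]
    have e2 : s i • o = α i • (κ * α' i) • o := by
      rw [hsi]; simp only [mul_smul]
    rw [e1, e2]
    have e3 := gp_base_le (α i • (κ * α' i) • o) (α i • h ^ m1 • o) (α i • o) o
    rw [gp_smul] at e3
    have e4 := gp_left_le (κ • o) ((κ * α' i) • o) (h ^ m1 • o) o
    rw [mul_smul κ (α' i), dist_smul] at e4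
    have e5 := (hB i hi).1
    have e6 := (hB i hi).2
    rw [dist_comm] at e5
    rw [mul_smul κ (α' i)] at e3 ⊢
    linarith
  have ap2 : ∀ i, i < 40 → T - 2 * B ≤
      gp ((s i)⁻¹ • o) ((f'⁻¹) ^ (l₃ * i) • (h⁻¹) ^ (l' * (40 - i) + m2) • o) o := by
    intro i hi
    have e0 : (α' i)⁻¹ = (f'⁻¹) ^ (l₃ * i) * (h⁻¹) ^ (l' * (40 - i)) := by
      rw [hα']
      simp only [mul_inv_rev, inv_pow]
    have e1 : (f'⁻¹) ^ (l₃ * i) • (h⁻¹) ^ (l' * (40 - i) + m2) • o =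
        (α' i)⁻¹ • (h⁻¹) ^ m2 • o := by
      rw [e0, pow_add]
      simp only [mul_smul]
    have e2 : (s i)⁻¹ • o = (α' i)⁻¹ • (κ⁻¹ * (α i)⁻¹) • o := by
      rw [hsi]
      simp only [mul_inv_rev, mul_smul]
    rw [e1, e2]
    have e3 := gp_base_le ((α' i)⁻¹ • (κ⁻¹ * (α i)⁻¹) • o) ((α' i)⁻¹ • (h⁻¹) ^ m2 • o)
      ((α' i)⁻¹ • o) o
    rw [gp_smul] at e3
    have e4 := gp_left_le (κ⁻¹ • o) ((κ⁻¹ * (α i)⁻¹) • o) ((h⁻¹) ^ m2 • o) o
    rw [mul_smul κ⁻¹ (α i)⁻¹, dist_smul, dist_inv_smul] at e4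
    have e5 := (hB i hi).1
    have e6 := (hB i hi).2
    have e7 : dist ((α' i)⁻¹ • o) o = dist o (α' i • o) := by rw [dist_comm, dist_inv_smul]
    rw [mul_smul κ⁻¹ (α i)⁻¹] at e3 ⊢
    linarith
  have fw : ∀ i, i < 40 → ∀ j, j < 40 → i ≠ j → gp (s i • o) (s j • o) o ≤ R1 + 2 * δ := by
    intro i hi j hj hij
    have e1 := h1 i hi j hj hij (l * (40 - i) + m1) (by omega) (l * (40 - j) + m1) (by omega)
    exact gp_trans_le hX e1 (ap1 i hi) (ap1 j hj) (by rw [hT]; linarith) hδ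
  have bw : ∀ i, i < 40 → ∀ j, j < 40 → i ≠ j →
      gp ((s i)⁻¹ • o) ((s j)⁻¹ • o) o ≤ R2 + 2 * δ := by
    intro i hi j hj hij
    have e1 := h2 i hi j hj hij (l' * (40 - i) + m2) (by omega) (l' * (40 - j) + m2) (by omega)
    exact gp_trans_le hX e1 (ap2 i hi) (ap2 j hj) (by rw [hT]; linarith) hδ
  have ln : ∀ i, i < 40 → 100 * C ≤ dist o (s i • o) := by
    intro i hi
    have e1 := ap1 i hi
    have e2 := gp_le_left (s i • o) (f ^ (l₃ * i) • h ^ (l * (40 - i) + m1) • o) o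
    rw [dist_comm] at e2
    rw [hT] at e1
    linarith
  have inj : ∀ i, i < 40 → ∀ j, j < 40 → s i = s j → i = j := by
    intro i hi j hj hij
    by_contra hne
    have e1 := fw i hi j hj hne
    rw [hij, gp_self_left, dist_comm] at e1
    have e2 := ln j hj
    linarith
  set S : Finset G := (Finset.range 40).image s with hS
  have memS : ∀ a, a ∈ S ↔ ∃ i, i < 40 ∧ s i = a := by
    intro a
    rw [hS, Finset.mem_image]
    simp only [Finset.mem_range]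
  refine ⟨S, l * l₃ * 40 + lκ + l' * l₃ * 40, by omega, ⟨?_, ?_, ?_, ?_⟩, ?_, ?_⟩
  · rw [hS, Finset.card_image_of_injOn, Finset.card_range]
    intro i hi j hj hij
    simp only [Finset.coe_range, Set.mem_Iio] at hi hj
    exact inj i hi j hj hij
  · intro y a ha a' ha' h3 h4
    obtain ⟨i, hi, rfl⟩ := (memS a).1 ha
    obtain ⟨j, hj, rfl⟩ := (memS a').1 ha'
    by_contra hne
    have hij : i ≠ j := fun h5 => hne (by rw [h5])
    have e1 := fw i hi j hj hij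
    have e2 := hX (s i • o) y (s j • o) o
    have e3 : C < min (gp (s i • o) y o) (gp y (s j • o) o) :=
      lt_min (by rw [gp_comm]; exact h3) h4
    linarith
  · intro y a ha a' ha' h3 h4
    obtain ⟨i, hi, rfl⟩ := (memS a).1 ha
    obtain ⟨j, hj, rfl⟩ := (memS a').1 ha'
    by_contra hne
    have hij : i ≠ j := fun h5 => hne (by rw [h5])
    have e1 := bw i hi j hj hij
    have e2 := hX ((s i)⁻¹ • o) y ((s j)⁻¹ • o) o
    have e3 : C < min (gp ((s i)⁻¹ • o) y o) (gp y ((s j)⁻¹ • o) o) :=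
      lt_min (by rw [gp_comm]; exact h3) h4
    linarith
  · intro a ha
    obtain ⟨i, hi, rfl⟩ := (memS a).1 ha
    exact ln i hi
  · intro a ha
    obtain ⟨i, hi, rfl⟩ := (memS a).1 ha
    obtain ⟨j, hj⟩ : ∃ j, 40 = i + j := ⟨40 - i, by omega⟩
    have e1 : l * l₃ * 40 + lκ + l' * l₃ * 40 =
        (l * (l₃ * i) + l₃ * (l * (40 - i))) + lκ + (l₃ * (l' * (40 - i)) + l' * (l₃ * i)) := by
      have : 40 - i = j := by omega
      rw [this, hj]
      ring
    rw [e1, hsi]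
    exact walk_pos μ (walk_pos μ (walk_pos μ (walk_pow wf _) (walk_pow wh _)) hκ)
      (walk_pos μ (walk_pow wh _) (walk_pow wf' _))
  · intro a ha
    obtain ⟨i, hi, rfl⟩ := (memS a).1 ha
    exact ⟨α i, Γ.mul_mem (Γ.pow_mem gf _) (Γ.pow_mem gh _), α' i,
      Γ.mul_mem (Γ.pow_mem gh _) (Γ.pow_mem gf' _), rfl, (hB i hi).1, (hB i hi).2⟩

/-- The coarse stabiliser of a letter is controlled by the one of its middle part. -/
theorem stab_core' {κ α α' : G} {o : X} {K B : ℝ}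
    (h1 : dist o (α • o) ≤ B) (h2 : dist o (α' • o) ≤ B) {g : G}
    (hg : g ∈ Stab G K o ((α * κ * α') • o)) :
    α⁻¹ * g * α ∈ Stab G (K + 2 * B) o (κ • o) := by
  have key : α⁻¹ * g * α ∈ Stab G (K + 2 * B) o (κ • o) := by
    constructor
    · have e1 : dist o ((α⁻¹ * g * α) • o) = dist (α • o) (g • α • o) := by
        rw [← dist_smul α o, mul_smul, mul_smul, smul_inv_smul]
      have e2 : dist (α • o) (g • α • o) ≤ dist (α • o) o + dist o (g • o) +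
        dist (g • o) (g • α • o) := dist_triangle4 _ _ _ _
      rw [dist_smul, dist_comm (α • o) o] at e2
      have := hg.1
      rw [e1]
      linarith
    · have e1 : dist (κ • o) ((α⁻¹ * g * α) • κ • o) = dist (α • κ • o) (g • α • κ • o) := by
        rw [← dist_smul α (κ • o), mul_smul, mul_smul, smul_inv_smul]
      set z := (α * κ * α') • o with hz
      have e3 : dist (α • κ • o) z ≤ B := by
        rw [hz, mul_smul, mul_smul, dist_smul, dist_smul]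
        exact h2
      have e2 : dist (α • κ • o) (g • α • κ • o) ≤ dist (α • κ • o) z + dist z (g • z) +
        dist (g • z) (g • α • κ • o) := dist_triangle4 _ _ _ _
      rw [dist_smul g z, dist_comm z (α • κ • o)] at e2
      have := hg.2
      rw [e1]
      linarith
  exact key

theorem stab_core {Γ : Subgroup G} {κ α α' : G} {o : X} {K B : ℝ} (hα : α ∈ Γ)
    (h1 : dist o (α • o) ≤ B) (h2 : dist o (α' • o) ≤ B)
    (hκ : Stab G (K + 2 * B) o (κ • o) ⊆ FixLim X Γ) :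
    Stab G K o ((α * κ * α') • o) ⊆ FixLim X Γ := by
  intro g hg
  have h3 := conj_mem_fixLim hα (hκ (stab_core' h1 h2 hg))
  have e1 : α * (α⁻¹ * g * α) * α⁻¹ = g := by group
  rwa [e1] at h3

theorem stab_core_fin {κ α α' : G} {o : X} {K B : ℝ}
    (h1 : dist o (α • o) ≤ B) (h2 : dist o (α' • o) ≤ B)
    (hκ : (Stab G (K + 2 * B) o (κ • o)).Finite) :
    (Stab G K o ((α * κ * α') • o)).Finite := by
  refine Set.Finite.subset (hκ.image (fun g => α * g * α⁻¹)) ?_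
  intro g hg
  exact ⟨α⁻¹ * g * α, stab_core' h1 h2 hg, by group⟩

end sch2

end Pool.Agent.H88.WPD
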